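import Pool.Agent.T3h90.WS.Stm
import Pool.Agent.TH949.UL.Kern
import Pool.Agent.TH942.SL.Line

/-!
# Task CAU: the value at the centre of a strip from the integrals over its boundary
-/

set_option autoImplicit false

open Complex MeasureTheory Filter Topology

namespace Pool.Agent.T3h90.WS

open Pool.Agent.TH949.UL Pool.Agent.TH942.SL

lemma cau_growth (B : ℝ) : ∃ C : ℝ, 0 ≤ C ∧ ∀ κ : ℝ, 1 ≤ κ → ∀ y : ℝ,
    Real.exp (B * (1 + |y|)) * Real.exp (-(κ * y ^ 2)) ≤ C * (1 + |y|) ^ (-(2 : ℝ)) := by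
  set B' : ℝ := |B| + 1 with hB'
  refine ⟨2 * Real.exp (B' + B' ^ 2 / 4), by positivity, fun κ hκ y => ?_⟩
  set t : ℝ := |y| with ht
  have ht0 : 0 ≤ t := abs_nonneg y
  have hy : y ^ 2 = t ^ 2 := (sq_abs y).symm
  have h1 : 0 < 1 + t := by linarith
  rw [Real.rpow_neg h1.le, Real.rpow_two, ← div_eq_mul_inv, le_div_iff₀ (by positivity), hy]
  have h2 : (1 + t) ^ 2 ≤ 2 * Real.exp (1 + t) := by
    have := Real.quadratic_le_exp_of_nonneg h1.le
    nlinarith
  calc Real.exp (B * (1 + t)) * Real.exp (-(κ * t ^ 2)) * (1 + t) ^ 2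
      ≤ Real.exp (B * (1 + t)) * Real.exp (-(κ * t ^ 2)) * (2 * Real.exp (1 + t)) :=
        mul_le_mul_of_nonneg_left h2 (by positivity)
    _ = 2 * Real.exp (B * (1 + t) + -(κ * t ^ 2) + (1 + t)) := by
        rw [Real.exp_add (B * (1 + t) + -(κ * t ^ 2)), Real.exp_add (B * (1 + t))]; ring
    _ ≤ 2 * Real.exp (B' + B' ^ 2 / 4) := by
        have h3 : B * (1 + t) ≤ |B| * (1 + t) := mul_le_mul_of_nonneg_right (le_abs_self B) h1.le
        have h4 : t ^ 2 ≤ κ * t ^ 2 := by nlinarith [sq_nonneg t]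
        have h5 : Real.exp (B * (1 + t) + -(κ * t ^ 2) + (1 + t)) ≤ Real.exp (B' + B' ^ 2 / 4) := by
          apply Real.exp_le_exp.2
          nlinarith [sq_nonneg (t - B' / 2)]
        linarith

lemma cau_rpow_int : Integrable (fun y : ℝ => (1 + |y|) ^ (-(2 : ℝ))) := decay_int (by norm_num)

/-- integrability on a line -/
lemma cau_int {g : ℂ → ℂ} {a κ B : ℝ} (ha : 1 / 4 ≤ |a|) (ha1 : |a| ≤ 1) (hκ : 1 ≤ κ)
    (hd : ∀ z : ℂ, z.re = a → ContinuousAt g z)
    (hB : ∀ z : ℂ, z.re = a → ‖g z‖ ≤ Real.exp (B * (1 + |z.im|))) :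
    Integrable (fun y : ℝ => g (a + y * I) * EK κ a y) ∧
    Integrable (fun y : ℝ => ‖g (a + y * I)‖ * Real.exp (-(κ * y ^ 2))) ∧
    ∀ y : ℝ, ‖g (a + y * I) * EK κ a y‖ ≤ 4 * Real.exp κ * (‖g (a + y * I)‖ * Real.exp (-(κ * y ^ 2))) := by
  obtain ⟨C, hC0, hC⟩ := cau_growth B
  have ha0 : a ≠ 0 := by
    intro h
    rw [h, abs_zero] at ha
    linarith
  have hc : Continuous (fun y : ℝ => g (a + y * I)) := line_cont hd
  have hE : ∀ y : ℝ, ‖EK κ a y‖ ≤ 4 * Real.exp κ * Real.exp (-(κ * y ^ 2)) := by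
    intro y
    unfold EK
    have h1 : ‖cexp (κ * ((a : ℂ) + y * I) ^ 2)‖ = Real.exp (κ * (a ^ 2 - y ^ 2)) := by
      rw [Complex.norm_exp]
      congr 1
      simp [pow_two]
    have h2 : 1 / 4 ≤ ‖(a : ℂ) + y * I‖ := by
      refine ha.trans ?_
      have := Complex.abs_re_le_norm ((a : ℂ) + y * I)
      simpa using this
    rw [norm_div, h1, div_le_iff₀ (by linarith)]
    have h3 : a ^ 2 ≤ 1 := by
      rw [← sq_abs]
      exact pow_le_one₀ (abs_nonneg _) ha1
    have h4 : Real.exp (κ * (a ^ 2 - y ^ 2)) ≤ Real.exp κ * Real.exp (-(κ * y ^ 2)) := by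
      rw [← Real.exp_add]
      apply Real.exp_le_exp.2
      nlinarith
    calc Real.exp (κ * (a ^ 2 - y ^ 2)) ≤ Real.exp κ * Real.exp (-(κ * y ^ 2)) := h4
      _ = 4 * Real.exp κ * Real.exp (-(κ * y ^ 2)) * (1 / 4) := by ring
      _ ≤ 4 * Real.exp κ * Real.exp (-(κ * y ^ 2)) * ‖(a : ℂ) + y * I‖ :=
          mul_le_mul_of_nonneg_left h2 (by positivity)
  have h2 : Integrable (fun y : ℝ => ‖g (a + y * I)‖ * Real.exp (-(κ * y ^ 2))) := by
    refine (cau_rpow_int.const_mul C).mono' ?_ (Eventually.of_forall fun y => ?_)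
    · exact (hc.norm.mul (by fun_prop)).aestronglyMeasurable
    · rw [Real.norm_of_nonneg (by positivity)]
      refine le_trans ?_ (hC κ hκ y)
      refine mul_le_mul_of_nonneg_right ?_ (Real.exp_pos _).le
      have := hB (a + y * I) (by simp)
      simpa using this
  have h3 : ∀ y : ℝ, ‖g (a + y * I) * EK κ a y‖ ≤
      4 * Real.exp κ * (‖g (a + y * I)‖ * Real.exp (-(κ * y ^ 2))) := by
    intro y
    rw [norm_mul]
    calc ‖g (a + y * I)‖ * ‖EK κ a y‖ ≤ ‖g (a + y * I)‖ * (4 * Real.exp κ * Real.exp (-(κ * y ^ 2))) :=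
          mul_le_mul_of_nonneg_left (hE y) (norm_nonneg _)
      _ = _ := by ring
  exact ⟨(h2.const_mul (4 * Real.exp κ)).mono' (hc.mul (EK_cont ha0)).aestronglyMeasurable
    (Eventually.of_forall h3), h2, h3⟩

theorem t_CAU : S_CAU := by
  intro f w κ B hw hw1 hκ hd hB
  have hκ0 : 0 < κ := by linarith
  have hw0 : 0 < w := by linarith
  obtain ⟨C, hC0, hC⟩ := cau_growth |B|
  -- the auxiliary function
  have hdiff : ∀ s : ℂ, -w ≤ s.re → s.re ≤ w → DifferentiableAt ℂ (dslope f 0) s := by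
    intro s h1 h2
    rcases eq_or_ne s 0 with h0 | h0
    · subst h0
      have hnhds : {z : ℂ | |z.re| < w} ∈ 𝓝 (0 : ℂ) := by
        refine IsOpen.mem_nhds ?_ (by simpa using hw0)
        exact isOpen_lt (Complex.continuous_re.abs) continuous_const
      have h3 : DifferentiableOn ℂ (dslope f 0) {z : ℂ | |z.re| < w} := by
        rw [Complex.differentiableOn_dslope hnhds]
        intro z hz
        exact (hd z (le_of_lt hz)).differentiableWithinAt
      exact h3.differentiableAt hnhds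
    · rw [differentiableAt_dslope_of_ne h0]
      exact hd s (abs_le.2 ⟨h1, h2⟩)
  have hbd : ∃ M : ℝ, 0 ≤ M ∧ ∀ s : ℂ, -w ≤ s.re → s.re ≤ w →
      ‖dslope f 0 s‖ ≤ M * Real.exp (|B| * (1 + |s.im|)) := by
    obtain ⟨M, hM⟩ := (isCompact_closedBall (0 : ℂ) (1 / 4)).exists_bound_of_continuousOn
      (f := dslope f 0) (fun s hs => by
        rw [Metric.mem_closedBall, dist_zero_right] at hs
        have h3 := abs_le.1 ((Complex.abs_re_le_norm s).trans hs)
        exact (hdiff s (by linarith) (by linarith)).continuousAt.continuousWithinAt)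
    refine ⟨|M| + 4 + 4 * ‖f 0‖, by positivity, fun s h1 h2 => ?_⟩
    have hexp1 : 1 ≤ Real.exp (|B| * (1 + |s.im|)) := by
      rw [← Real.exp_zero]
      exact Real.exp_le_exp.2 (by positivity)
    rcases le_or_gt ‖s‖ (1 / 4) with h3 | h3
    · have h4 := hM s (by rw [Metric.mem_closedBall, dist_zero_right]; exact h3)
      calc ‖dslope f 0 s‖ ≤ |M| := h4.trans (le_abs_self M)
        _ ≤ |M| + 4 + 4 * ‖f 0‖ := by have := norm_nonneg (f 0); linarith
        _ ≤ _ := le_mul_of_one_le_right (by positivity) hexp1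
    · have hs0 : s ≠ 0 := by
        intro h; rw [h, norm_zero] at h3; linarith
      rw [dslope_of_ne f hs0, slope_def_field, sub_zero, norm_div, div_le_iff₀ (by linarith)]
      have h4 : ‖f s‖ ≤ Real.exp (|B| * (1 + |s.im|)) := by
        refine (hB s (abs_le.2 ⟨h1, h2⟩)).trans (Real.exp_le_exp.2 ?_)
        exact mul_le_mul_of_nonneg_right (le_abs_self B) (by positivity)
      have h5 : ‖f s - f 0‖ ≤ (1 + ‖f 0‖) * Real.exp (|B| * (1 + |s.im|)) := by
        refine (norm_sub_le _ _).trans ?_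
        have h6 : ‖f 0‖ ≤ ‖f 0‖ * Real.exp (|B| * (1 + |s.im|)) :=
          le_mul_of_one_le_right (norm_nonneg _) hexp1
        linarith
      refine h5.trans ?_
      have h6 : (1 + ‖f 0‖) ≤ (|M| + 4 + 4 * ‖f 0‖) * ‖s‖ := by
        have h7 : 1 ≤ 4 * ‖s‖ := by linarith
        have h8 : 0 ≤ ‖f 0‖ := norm_nonneg _
        have h9 : 0 ≤ |M| * ‖s‖ := by positivity
        nlinarith
      calc (1 + ‖f 0‖) * Real.exp (|B| * (1 + |s.im|)) ≤
          ((|M| + 4 + 4 * ‖f 0‖) * ‖s‖) * Real.exp (|B| * (1 + |s.im|)) :=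
            mul_le_mul_of_nonneg_right h6 (Real.exp_pos _).le
        _ = _ := by ring
  obtain ⟨M, hM0, hM⟩ := hbd
  have hshift := shift (H := fun z => dslope f 0 z * cexp (κ * z ^ 2)) (a := -w) (b := w)
    (B := M * Real.exp κ * C) (p := 2) (by norm_num) (by linarith)
    (fun s h1 h2 => (hdiff s h1 h2).mul (by fun_prop))
    (fun s h1 h2 => by
      have h3 : ‖cexp (κ * s ^ 2)‖ ≤ Real.exp κ * Real.exp (-(κ * s.im ^ 2)) := by
        rw [Complex.norm_exp, ← Real.exp_add]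
        apply Real.exp_le_exp.2
        have h4 : ((κ : ℂ) * s ^ 2).re = κ * (s.re ^ 2 - s.im ^ 2) := by
          simp [pow_two]
        rw [h4]
        have h5 : s.re ^ 2 ≤ 1 := by nlinarith
        nlinarith
      rw [norm_mul]
      calc ‖dslope f 0 s‖ * ‖cexp (κ * s ^ 2)‖
          ≤ (M * Real.exp (|B| * (1 + |s.im|))) * (Real.exp κ * Real.exp (-(κ * s.im ^ 2))) :=
            mul_le_mul (hM s h1 h2) h3 (norm_nonneg _) (by positivity)
        _ = M * Real.exp κ * (Real.exp (|B| * (1 + |s.im|)) * Real.exp (-(κ * s.im ^ 2))) := by ring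
        _ ≤ M * Real.exp κ * (C * (1 + |s.im|) ^ (-(2 : ℝ))) :=
            mul_le_mul_of_nonneg_left (hC κ hκ s.im) (by positivity)
        _ = _ := by ring)
  have hpi := Real.pi_pos
  have hI : ∫ y : ℝ, dslope f 0 ((-w : ℝ) + y * I) * cexp (κ * ((-w : ℝ) + y * I) ^ 2) =
      ∫ y : ℝ, dslope f 0 (w + y * I) * cexp (κ * (w + y * I) ^ 2) := by
    have h2 : (((2 * Real.pi)⁻¹ : ℝ) : ℂ) ≠ 0 := by
      rw [Complex.ofReal_ne_zero]; positivity
    exact mul_left_cancel₀ h2 hshift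
  -- on a line
  have hline : ∀ a : ℝ, a = w ∨ a = -w → ∫ y : ℝ, dslope f 0 (a + y * I) * cexp (κ * (a + y * I) ^ 2) =
      (∫ y : ℝ, f (a + y * I) * EK κ a y) - f 0 * ∫ y : ℝ, EK κ a y := by
    intro a ha
    have haw : |a| = w := by
      rcases ha with h | h
      · rw [h, abs_of_pos hw0]
      · rw [h, abs_neg, abs_of_pos hw0]
    have ha0 : a ≠ 0 := by
      intro h
      rw [h, abs_zero] at haw
      linarith
    have i1 := (cau_int (g := f) (a := a) (κ := κ) (B := B) (by rw [haw]; exact hw) (by rw [haw]; exact hw1)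
      hκ (fun z hz => (hd z (by rw [hz, haw])).continuousAt) (fun z hz => hB z (by rw [hz, haw]))).1
    have i2 := (cau_int (g := fun _ => 1) (a := a) (κ := κ) (B := 0) (by rw [haw]; exact hw)
      (by rw [haw]; exact hw1) hκ (fun z hz => continuousAt_const) (fun z hz => by simp)).1
    simp only [one_mul] at i2
    rw [← integral_const_mul, ← integral_sub i1 (i2.const_mul _)]
    congr 1
    funext y
    have hne : (a : ℂ) + y * I ≠ 0 := by
      intro h
      have := congrArg Complex.re h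
      simp at this
      exact ha0 this
    rw [dslope_of_ne f hne, slope_def_field, sub_zero, EK]
    field_simp
  have e1 := hline w (Or.inl rfl)
  have e2 := hline (-w) (Or.inr rfl)
  rw [EK_pos hκ0 hw0] at e1
  rw [EK_neg hκ0 (by linarith : -w < 0)] at e2
  rw [e1, e2] at hI
  have hf0 : f 0 * (2 * Real.pi) = (∫ y : ℝ, f (w + y * I) * EK κ w y) -
      ∫ y : ℝ, f ((-w : ℝ) + y * I) * EK κ (-w) y := by
    linear_combination hI
  have k1 := cau_int (g := f) (a := w) (κ := κ) (B := B) (by rw [abs_of_pos hw0]; exact hw)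
    (by rw [abs_of_pos hw0]; exact hw1)
    hκ (fun z hz => (hd z (by rw [hz, abs_of_pos hw0])).continuousAt)
    (fun z hz => hB z (by rw [hz, abs_of_pos hw0]))
  have hnw : |-w| = w := by rw [abs_neg, abs_of_pos hw0]
  have k2 := cau_int (g := f) (a := -w) (κ := κ) (B := B) (by rw [hnw]; exact hw)
    (by rw [hnw]; exact hw1)
    hκ (fun z hz => (hd z (by rw [hz, hnw])).continuousAt)
    (fun z hz => hB z (by rw [hz, hnw]))
  have n1 : ‖∫ y : ℝ, f (w + y * I) * EK κ w y‖ ≤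
      4 * Real.exp κ * ∫ y : ℝ, ‖f (w + y * I)‖ * Real.exp (-(κ * y ^ 2)) := by
    rw [← integral_const_mul]
    exact norm_integral_le_of_norm_le (k1.2.1.const_mul _) (Eventually.of_forall k1.2.2)
  have n2 : ‖∫ y : ℝ, f ((-w : ℝ) + y * I) * EK κ (-w) y‖ ≤
      4 * Real.exp κ * ∫ y : ℝ, ‖f ((-w : ℝ) + y * I)‖ * Real.exp (-(κ * y ^ 2)) := by
    rw [← integral_const_mul]
    exact norm_integral_le_of_norm_le (k2.2.1.const_mul _) (Eventually.of_forall k2.2.2)
  have e3 : ∫ y : ℝ, (‖f (w + y * I)‖ + ‖f (-w + y * I)‖) * Real.exp (-(κ * y ^ 2)) =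
      (∫ y : ℝ, ‖f (w + y * I)‖ * Real.exp (-(κ * y ^ 2))) +
        ∫ y : ℝ, ‖f ((-w : ℝ) + y * I)‖ * Real.exp (-(κ * y ^ 2)) := by
    rw [← integral_add k1.2.1 k2.2.1]
    congr 1
    funext y
    push_cast
    ring
  rw [e3]
  have h4 : ‖f 0‖ * (2 * Real.pi) ≤ 4 * Real.exp κ * ((∫ y : ℝ, ‖f (w + y * I)‖ * Real.exp (-(κ * y ^ 2))) +
        ∫ y : ℝ, ‖f ((-w : ℝ) + y * I)‖ * Real.exp (-(κ * y ^ 2))) := by
    have h5 : ‖f 0‖ * (2 * Real.pi) = ‖f 0 * (2 * Real.pi)‖ := by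
      rw [norm_mul]
      congr 1
      rw [show (2 * (Real.pi : ℂ)) = ((2 * Real.pi : ℝ) : ℂ) by push_cast; ring, Complex.norm_real,
        Real.norm_of_nonneg (by positivity)]
    rw [h5, hf0]
    refine (norm_sub_le _ _).trans ?_
    linarith
  have h6 : 0 ≤ (∫ y : ℝ, ‖f (w + y * I)‖ * Real.exp (-(κ * y ^ 2))) +
        ∫ y : ℝ, ‖f ((-w : ℝ) + y * I)‖ * Real.exp (-(κ * y ^ 2)) :=
    add_nonneg (integral_nonneg fun y => by positivity) (integral_nonneg fun y => by positivity)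
  have h7 : (3 : ℝ) < Real.pi := Real.pi_gt_three
  have h8 : 0 ≤ Real.exp κ * ((∫ y : ℝ, ‖f (w + y * I)‖ * Real.exp (-(κ * y ^ 2))) +
        ∫ y : ℝ, ‖f ((-w : ℝ) + y * I)‖ * Real.exp (-(κ * y ^ 2))) := mul_nonneg (Real.exp_pos _).le h6
  have h9 : 0 ≤ ‖f 0‖ := norm_nonneg _
  nlinarith

end Pool.Agent.T3h90.WS
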