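import Pool.Agent.T3h90.WS.Stm

/-!
# Task EUL: the Euler product is the exponential of a Dirichlet series
-/

set_option autoImplicit false

open Complex MeasureTheory

namespace Pool.Agent.T3h90.WS

/-- the prime power `p^(k+1)` -/
def eulN (x : X) : ℕ := (x.1 : ℕ) ^ (x.2 + 1)

lemma eulN_inj : Function.Injective eulN := by
  intro x x' hxx
  have : Nat.Primes.prodNatEquiv x = Nat.Primes.prodNatEquiv x' := Subtype.ext hxx
  exact Nat.Primes.prodNatEquiv.injective this

lemma eul_exp_lam (x : X) (σ : ℝ) : Real.exp (-(σ * lam x)) = ((eulN x : ℕ) : ℝ) ^ (-σ) := by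
  have hp : (0 : ℝ) < ((x.1 : ℕ) : ℝ) := by exact_mod_cast x.1.2.pos
  have hn : (0 : ℝ) < ((eulN x : ℕ) : ℝ) := by
    unfold eulN; push_cast; positivity
  rw [Real.rpow_def_of_pos hn]
  congr 1
  unfold eulN lam
  push_cast
  rw [Real.log_pow]
  push_cast
  ring

lemma eul_av {m : ℕ} {α : Fin m → ℕ → ℂ} (hα : ∀ j, ∀ p : ℕ, p.Prime → ‖α j p‖ ≤ Real.sqrt p) (x : X) :
    ‖av α x‖ ≤ m * ((eulN x : ℕ) : ℝ) ^ (1 / 2 : ℝ) := by
  unfold av
  refine (norm_sum_le _ _).trans ?_
  have h : ∀ j ∈ Finset.univ, ‖α j (x.1 : ℕ) ^ (x.2 + 1)‖ ≤ ((eulN x : ℕ) : ℝ) ^ (1 / 2 : ℝ) := by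
    intro j _
    rw [norm_pow]
    refine (pow_le_pow_left₀ (norm_nonneg _) (hα j _ x.1.2) _).trans (le_of_eq ?_)
    unfold eulN
    push_cast
    rw [Real.sqrt_eq_rpow, ← Real.rpow_natCast, ← Real.rpow_natCast, ← Real.rpow_mul (by positivity),
      ← Real.rpow_mul (by positivity), mul_comm]
  refine (Finset.sum_le_card_nsmul _ _ _ h).trans (le_of_eq ?_)
  simp

theorem t_EUL : S_EUL := by
  intro m α hα s hs
  have hp0 : ∀ p : Nat.Primes, (0 : ℝ) < ((p : ℕ) : ℝ) := fun p => by exact_mod_cast p.2.pos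
  have hsummable : Summable (fun x : X => ‖av α x‖ * Real.exp (-(s.re * lam x)) / ((x.2 : ℝ) + 1)) := by
    have h1 : Summable (fun n : ℕ => (n : ℝ) ^ (1 / 2 - s.re)) := Real.summable_nat_rpow.2 (by linarith)
    have h2 : Summable (fun x : X => (m : ℝ) * ((eulN x : ℕ) : ℝ) ^ (1 / 2 - s.re)) :=
      (h1.comp_injective eulN_inj).mul_left _
    refine Summable.of_nonneg_of_le (fun x => by positivity) (fun x => ?_) h2
    have hn : (0 : ℝ) < ((eulN x : ℕ) : ℝ) := by
      have := hp0 x.1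
      unfold eulN; push_cast; positivity
    have h3 : ‖av α x‖ * Real.exp (-(s.re * lam x)) ≤ m * ((eulN x : ℕ) : ℝ) ^ (1 / 2 - s.re) := by
      rw [eul_exp_lam, sub_eq_add_neg, Real.rpow_add hn, ← mul_assoc]
      exact mul_le_mul_of_nonneg_right (eul_av hα x) (by positivity)
    have h4 : ‖av α x‖ * Real.exp (-(s.re * lam x)) / ((x.2 : ℝ) + 1) ≤ ‖av α x‖ * Real.exp (-(s.re * lam x)) :=
      div_le_self (by positivity) (by have : (0 : ℝ) ≤ x.2 := by positivity
                                      linarith)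
    exact h4.trans h3
  refine ⟨hsummable, ?_⟩
  set F : X → ℂ := fun x => av α x / ((x.2 : ℂ) + 1) * cexp (-(lam x : ℂ) * s) with hF
  have hFn : ∀ x, ‖F x‖ = ‖av α x‖ * Real.exp (-(s.re * lam x)) / ((x.2 : ℝ) + 1) := by
    intro x
    rw [hF]
    simp only
    rw [norm_mul, norm_div, Complex.norm_exp]
    have h1 : ‖((x.2 : ℂ) + 1)‖ = (x.2 : ℝ) + 1 := by
      have : ((x.2 : ℂ) + 1) = (((x.2 : ℝ) + 1 : ℝ) : ℂ) := by push_cast; rfl
      rw [this, Complex.norm_real, Real.norm_of_nonneg (by positivity)]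
    have h2 : (-(lam x : ℂ) * s).re = -(s.re * lam x) := by simp [mul_comm]
    rw [h1, h2]
    ring
  have hFs : Summable F := Summable.of_norm (by simp_rw [hFn]; exact hsummable)
  -- the local factors
  set z : Nat.Primes → Fin m → ℂ := fun p j => α j p * ((p : ℕ) : ℂ) ^ (-s) with hz
  have hzn : ∀ p j, ‖z p j‖ < 1 := by
    intro p j
    rw [hz]
    simp only
    rw [norm_mul, Complex.norm_natCast_cpow_of_pos p.2.pos, Complex.neg_re]
    have h1 := hα j p p.2
    calc ‖α j p‖ * ((p : ℕ) : ℝ) ^ (-s.re) ≤ Real.sqrt ((p : ℕ) : ℝ) * ((p : ℕ) : ℝ) ^ (-s.re) :=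
          mul_le_mul_of_nonneg_right h1 (by positivity)
      _ = ((p : ℕ) : ℝ) ^ (1 / 2 + -s.re) := by
          rw [Real.sqrt_eq_rpow, Real.rpow_add (hp0 p)]
      _ < 1 := Real.rpow_lt_one_of_one_lt_of_neg (by exact_mod_cast p.2.one_lt) (by linarith)
  have hpow : ∀ (p : Nat.Primes) (k : ℕ), cexp (-(lam (p, k) : ℂ) * s) = (((p : ℕ) : ℂ) ^ (-s)) ^ (k + 1) := by
    intro p k
    have hpc : ((p : ℕ) : ℂ) ≠ 0 := by exact_mod_cast p.2.ne_zero
    rw [Complex.cpow_def_of_ne_zero hpc, ← Complex.exp_nat_mul]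
    congr 1
    unfold lam
    rw [← Complex.natCast_log]
    push_cast
    ring
  have hFeq : ∀ (p : Nat.Primes) (k : ℕ), F (p, k) = ∑ j, z p j ^ (k + 1) / ((k : ℂ) + 1) := by
    intro p k
    rw [hF]
    simp only
    rw [hpow, av, Finset.sum_div, Finset.sum_mul]
    refine Finset.sum_congr rfl fun j _ => ?_
    rw [hz]
    simp only
    rw [mul_pow]
    ring
  have hloc : ∀ p : Nat.Primes, HasSum (fun k : ℕ => F (p, k)) (∑ j, -Complex.log (1 - z p j)) := by
    intro p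
    simp_rw [hFeq]
    exact hasSum_sum fun j _ => Complex.hasSum_taylorSeries_neg_log' (hzn p j)
  have hexp : ∀ p : Nat.Primes, cexp (∑ j, -Complex.log (1 - z p j)) = ∏ j, (1 - z p j)⁻¹ := by
    intro p
    rw [Complex.exp_sum]
    refine Finset.prod_congr rfl fun j _ => ?_
    have h1 : 1 - z p j ≠ 0 := by
      intro h
      have h2 : z p j = 1 := by linear_combination -h
      have := hzn p j
      rw [h2, norm_one] at this
      exact lt_irrefl _ this
    rw [Complex.exp_neg, Complex.exp_log h1]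
  have htot : HasSum (fun p : Nat.Primes => ∑ j, -Complex.log (1 - z p j)) (∑' x, F x) :=
    hFs.hasSum.prod_fiberwise hloc
  have hprod := htot.cexp
  have hfun : (cexp ∘ fun p : Nat.Primes => ∑ j, -Complex.log (1 - z p j)) =
      fun p : Nat.Primes => ∏ j, (1 - α j p * ((p : ℕ) : ℂ) ^ (-s))⁻¹ := by
    funext p
    exact hexp p
  rw [hfun] at hprod
  exact hprod.tprod_eq

end Pool.Agent.T3h90.WS
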