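import Pool.Agent.H353R6.E10

/-!
# Project WS: the gamma factor near the critical strip (copied from H353R7 and W169.HF, to keep the
imports small)
-/

set_option autoImplicit false

open Complex Set MeasureTheory intervalIntegral Filter Topology
open scoped ComplexConjugate NNReal ENNReal

namespace Pool.Agent.T3h90.WS.Gam

open H353.E

section

variable {C : ℝ} {Sg : ℝ → ℝ} {γ D : ℂ → ℂ}

/-- moving `γ` over a bounded distance, `ℓ` close to `D` -/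
lemma gam_move (gp : GP C Sg γ D) {s v : ℂ} {ℓ K : ℝ} (hs : 1 ≤ s.re) (hv : 1 ≤ (s + v).re)
    (hD : ∀ t ∈ Icc (0:ℝ) 1, ‖D (s + t * v) - ℓ‖ ≤ K) :
    ‖γ (s + v)‖ ≤ ‖γ s‖ * Real.exp (ℓ * v.re + K * ‖v‖) := by
  refine seg_le gp (fun t ht => ?_) fun t ht => ?_
  · rw [add_re] at hv ⊢
    rw [Complex.re_ofReal_mul]
    nlinarith [ht.1, ht.2]
  · have e : D (s + t * v) * v = (ℓ : ℂ) * v + (D (s + t * v) - ℓ) * v := by ring
    rw [e, add_re, Complex.re_ofReal_mul]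
    have h1 : ((D (s + t * v) - ℓ) * v).re ≤ K * ‖v‖ := by
      refine (re_le_norm _).trans ?_
      rw [norm_mul]
      have := hD t ht
      gcongr
    linarith

/-- the gamma factor near the point `1/2 + i y` -/
lemma gam_loc (gp : GP C Sg γ D) (y : ℝ) {u : ℂ} (hu : 1 / 2 ≤ u.re) :
    ‖γ (1 / 2 + (y : ℂ) * I + u)‖ ≤ ‖γ (3 / 2 + y * I)‖ * Real.exp (-(D (3 / 2 + y * I)).re) *
      Real.exp ((D (3 / 2 + y * I)).re * u.re + 4 * C * (1 + ‖u‖ ^ 2)) ∧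
    ‖γ (3 / 2 + y * I)‖ * Real.exp (-(D (3 / 2 + y * I)).re) *
      Real.exp ((D (3 / 2 + y * I)).re * u.re - 4 * C * (1 + ‖u‖ ^ 2)) ≤
      ‖γ (1 / 2 + (y : ℂ) * I + u)‖ := by
  have hC := gp.C_nonneg
  obtain ⟨ℓ, hℓ⟩ : ∃ ℓ : ℝ, ℓ = (D (3 / 2 + y * I)).re := ⟨_, rfl⟩
  rw [← hℓ]
  obtain ⟨v, hv⟩ : ∃ v : ℂ, v = u - 1 := ⟨_, rfl⟩
  have e1 : (1 / 2 + (y : ℂ) * I + u : ℂ) = 3 / 2 + y * I + v := by rw [hv]; ring
  have hs : (3 / 2 + y * I : ℂ).re = 3 / 2 := by simp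
  have hvre : v.re = u.re - 1 := by rw [hv]; simp
  have hsv : 1 ≤ (3 / 2 + y * I + v : ℂ).re := by rw [add_re, hs, hvre]; linarith
  have hs1 : 1 ≤ (3 / 2 + y * I : ℂ).re := by rw [hs]; norm_num
  have hvn : ‖v‖ ≤ ‖u‖ + 1 := by
    rw [hv]
    refine (norm_sub_le _ _).trans ?_
    simp
  have hv0 := norm_nonneg v
  have hu0 := norm_nonneg u
  have hpath : ∀ t ∈ Icc (0 : ℝ) 1, ‖D (3 / 2 + y * I + t * v) - ℓ‖ ≤ C * (1 + ‖v‖) := by
    intro t ht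
    have hre : 1 ≤ (3 / 2 + y * I + t * v : ℂ).re := by
      rw [add_re, hs, Complex.re_ofReal_mul]
      rw [add_re, hs] at hsv
      nlinarith [ht.1, ht.2]
    have h1 := gp.lipD (ρ := 1) le_rfl hre hs1
    have e2 : (3 / 2 + y * I + t * v : ℂ) - (3 / 2 + y * I) = t * v := by ring
    rw [e2, norm_mul, Complex.norm_real, Real.norm_eq_abs, abs_of_nonneg ht.1, div_one] at h1
    have h2 : ‖D (3 / 2 + y * I) - ℓ‖ ≤ C := by
      have e3 : D (3 / 2 + y * I) - ℓ = ((D (3 / 2 + y * I)).im : ℂ) * I := by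
        rw [hℓ]
        apply Complex.ext <;> simp
      rw [e3, norm_mul, Complex.norm_I, mul_one, Complex.norm_real, Real.norm_eq_abs]
      exact gp.im _ hs1
    have h3 : D (3 / 2 + y * I + t * v) - ℓ =
      (D (3 / 2 + y * I + t * v) - D (3 / 2 + y * I)) + (D (3 / 2 + y * I) - ℓ) := by ring
    rw [h3]
    refine (norm_add_le _ _).trans ?_
    have h4 : C * (t * ‖v‖) ≤ C * (1 * ‖v‖) := by
      apply mul_le_mul_of_nonneg_left _ hC
      exact mul_le_mul_of_nonneg_right ht.2 hv0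
    linarith
  have hfin : C * (1 + ‖v‖) * ‖v‖ ≤ 4 * C * (1 + ‖u‖ ^ 2) := by
    have h1 : (1 + ‖v‖) * ‖v‖ ≤ 4 * (1 + ‖u‖ ^ 2) := by nlinarith [sq_nonneg (‖u‖ - 1)]
    calc C * (1 + ‖v‖) * ‖v‖ = C * ((1 + ‖v‖) * ‖v‖) := by ring
      _ ≤ C * (4 * (1 + ‖u‖ ^ 2)) := mul_le_mul_of_nonneg_left h1 hC
      _ = _ := by ring
  rw [e1]
  constructor
  · have h1 := gam_move gp hs1 hsv hpath
    refine h1.trans ?_
    rw [mul_assoc ‖γ (3 / 2 + y * I)‖, ← Real.exp_add]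
    apply mul_le_mul_of_nonneg_left _ (norm_nonneg _)
    apply Real.exp_le_exp.2
    rw [hvre]
    linarith
  · have hback : 1 ≤ (3 / 2 + y * I + v + -v : ℂ).re := by
      rw [add_neg_cancel_right]; exact hs1
    have h1 := gam_move gp (ℓ := ℓ) (K := C * (1 + ‖v‖)) hsv hback (fun t ht => by
      have e4 : (3 / 2 + y * I + v + t * -v : ℂ) = 3 / 2 + y * I + ((1 - t : ℝ) : ℂ) * v := by
        push_cast; ring
      rw [e4]
      exact hpath (1 - t) ⟨by linarith [ht.2], by linarith [ht.1]⟩)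
    rw [add_neg_cancel_right, neg_re, norm_neg] at h1
    calc ‖γ (3 / 2 + y * I)‖ * Real.exp (-ℓ) * Real.exp (ℓ * u.re - 4 * C * (1 + ‖u‖ ^ 2))
        ≤ ‖γ (3 / 2 + y * I + v)‖ * Real.exp (ℓ * -v.re + C * (1 + ‖v‖) * ‖v‖) * Real.exp (-ℓ) *
          Real.exp (ℓ * u.re - 4 * C * (1 + ‖u‖ ^ 2)) := by gcongr
      _ = ‖γ (3 / 2 + y * I + v)‖ * Real.exp (ℓ * -v.re + C * (1 + ‖v‖) * ‖v‖ + -ℓ +
          (ℓ * u.re - 4 * C * (1 + ‖u‖ ^ 2))) := by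
          rw [Real.exp_add (ℓ * -v.re + C * (1 + ‖v‖) * ‖v‖ + -ℓ),
            Real.exp_add (ℓ * -v.re + C * (1 + ‖v‖) * ‖v‖)]
          ring
      _ ≤ ‖γ (3 / 2 + y * I + v)‖ * 1 := by
          apply mul_le_mul_of_nonneg_left _ (norm_nonneg _)
          apply Real.exp_le_one_iff.2
          rw [hvre]
          linarith
      _ = _ := mul_one _

end

/-- the real part of the logarithmic derivative of the gamma factor -/
lemma gaD_re_le {m : ℕ} {N : ℝ} (hN : 1 ≤ N) {μ : Fin m → ℂ} (hμ : ∀ j, (μ j).re ≤ 1 / 2) (t : ℝ) :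
    (gaD N μ (3 / 2 + t * I)).re ≤ 1 / 2 * Real.log (N * ∏ j, (1 + ‖(t : ℂ) * I - μ j‖)) + 5 * m := by
  have hN0 : 0 < N := by linarith
  have hp : ∀ j, 0 < 1 + ‖(t : ℂ) * I - μ j‖ := fun j => by positivity
  have hpp : 0 < ∏ j, (1 + ‖(t : ℂ) * I - μ j‖) := Finset.prod_pos fun j _ => hp j
  rw [Real.log_mul hN0.ne' hpp.ne', Real.log_prod (fun j _ => (hp j).ne')]
  unfold gaD
  rw [add_re, ofReal_re, re_sum]
  have h2 : ∀ j, ((((-(Real.log Real.pi) / 2 : ℝ)) : ℂ) +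
      logDeriv Gamma ((3 / 2 + t * I - μ j) / 2) / 2).re ≤
      1 / 2 * Real.log (1 + ‖(t : ℂ) * I - μ j‖) + 5 := fun j => by
    have hs : (1 : ℝ) ≤ (3 / 2 + t * I : ℂ).re := by simp; norm_num
    obtain ⟨_, _, hz⟩ := zre (hμ j) hs
    set z : ℂ := (3 / 2 + t * I - μ j) / 2 with hzdef
    have h3 := (Complex.abs_re_le_norm _).trans (dig_aux hz)
    rw [sub_re, Complex.log_re] at h3
    have h3' := (abs_le.mp h3).2
    have hlp := logpi
    have h4 : ‖z + 2‖ ≤ 3 * (1 + ‖(t : ℂ) * I - μ j‖) := by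
      have e : z + 2 = ((11 / 4 : ℝ) : ℂ) + ((t : ℂ) * I - μ j) / 2 := by
        rw [hzdef]
        push_cast
        ring
      rw [e]
      refine (norm_add_le _ _).trans ?_
      rw [Complex.norm_real, norm_div, Real.norm_eq_abs]
      have := norm_nonneg ((t : ℂ) * I - μ j)
      norm_num
      linarith
    have h5 : 0 < ‖z + 2‖ := by
      have := re_le_norm (z + 2)
      rw [add_re, re_ofNat] at this
      linarith
    have h6 : Real.log ‖z + 2‖ ≤ Real.log 3 + Real.log (1 + ‖(t : ℂ) * I - μ j‖) := by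
      rw [← Real.log_mul (by norm_num) (hp j).ne']
      exact Real.log_le_log h5 h4
    have h7 : Real.log 3 ≤ 2 := by
      have := Real.log_le_sub_one_of_pos (show (0:ℝ) < 3 by norm_num)
      linarith
    have e2 : ((((-(Real.log Real.pi) / 2 : ℝ)) : ℂ) + logDeriv Gamma z / 2).re =
        -(Real.log Real.pi) / 2 + (logDeriv Gamma z).re / 2 := by
      rw [add_re, ofReal_re, show (2 : ℂ) = ((2 : ℝ) : ℂ) by norm_num, Complex.div_ofReal_re]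
    rw [e2]
    linarith
  have h3 := Finset.sum_le_sum (s := (Finset.univ : Finset (Fin m))) fun j _ => h2 j
  rw [Finset.sum_add_distrib, ← Finset.mul_sum, Finset.sum_const, Finset.card_univ, Fintype.card_fin,
    nsmul_eq_mul] at h3
  have hlog : 0 ≤ Real.log N := Real.log_nonneg hN
  linarith

/-- lower bound for the real part of the logarithmic derivative of the gamma factor -/
lemma gaD_re_ge {m : ℕ} {N : ℝ} (hN : 1 ≤ N) {μ : Fin m → ℂ} (hμ : ∀ j, (μ j).re ≤ 1 / 2) (t : ℝ) :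
    1 / 2 * Real.log (N * ∏ j, (1 + ‖(t : ℂ) * I - μ j‖)) - 7 * m ≤ (gaD N μ (3 / 2 + t * I)).re := by
  have hN0 : 0 < N := by linarith
  have hp : ∀ j, 0 < 1 + ‖(t : ℂ) * I - μ j‖ := fun j => by positivity
  have hpp : 0 < ∏ j, (1 + ‖(t : ℂ) * I - μ j‖) := Finset.prod_pos fun j _ => hp j
  rw [Real.log_mul hN0.ne' hpp.ne', Real.log_prod (fun j _ => (hp j).ne')]
  unfold gaD
  rw [add_re, ofReal_re, re_sum]
  have h2 : ∀ j, 1 / 2 * Real.log (1 + ‖(t : ℂ) * I - μ j‖) - 7 ≤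
      ((((-(Real.log Real.pi) / 2 : ℝ)) : ℂ) +
      logDeriv Gamma ((3 / 2 + t * I - μ j) / 2) / 2).re := fun j => by
    have hs : (1 : ℝ) ≤ (3 / 2 + t * I : ℂ).re := by simp; norm_num
    obtain ⟨_, _, hz⟩ := zre (hμ j) hs
    set z : ℂ := (3 / 2 + t * I - μ j) / 2 with hzdef
    have h3 := (Complex.abs_re_le_norm _).trans (dig_aux hz)
    rw [sub_re, Complex.log_re] at h3
    have h3' := (abs_le.mp h3).1
    have hlp := logpi
    have h4 : (1 + ‖(t : ℂ) * I - μ j‖) / 5 ≤ ‖z + 2‖ := by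
      have e : (t : ℂ) * I - μ j = 2 * (z + 2) - ((11 / 2 : ℝ) : ℂ) := by
        rw [hzdef]
        push_cast
        ring
      have h5 : ‖(t : ℂ) * I - μ j‖ ≤ 2 * ‖z + 2‖ + 11 / 2 := by
        rw [e]
        refine (norm_sub_le _ _).trans ?_
        rw [norm_mul, Complex.norm_real]
        norm_num
      have h6 : 9 / 4 ≤ ‖z + 2‖ := by
        have := re_le_norm (z + 2)
        rw [add_re, re_ofNat] at this
        linarith
      linarith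
    have h6 : Real.log (1 + ‖(t : ℂ) * I - μ j‖) - Real.log 5 ≤ Real.log ‖z + 2‖ := by
      rw [← Real.log_div (hp j).ne' (by norm_num)]
      exact Real.log_le_log (by have := hp j; positivity) h4
    have h7 : Real.log 5 ≤ 4 := by
      have := Real.log_le_sub_one_of_pos (show (0:ℝ) < 5 by norm_num)
      linarith
    have e2 : ((((-(Real.log Real.pi) / 2 : ℝ)) : ℂ) + logDeriv Gamma z / 2).re =
        -(Real.log Real.pi) / 2 + (logDeriv Gamma z).re / 2 := by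
      rw [add_re, ofReal_re, show (2 : ℂ) = ((2 : ℝ) : ℂ) by norm_num, Complex.div_ofReal_re]
    rw [e2]
    linarith
  have h3 := Finset.sum_le_sum (s := (Finset.univ : Finset (Fin m))) fun j _ => h2 j
  rw [Finset.sum_sub_distrib, ← Finset.mul_sum, Finset.sum_const, Finset.card_univ, Fintype.card_fin,
    nsmul_eq_mul] at h3
  have hlog : 0 ≤ Real.log N := Real.log_nonneg hN
  linarith

/-- the analytic conductor at height `y` -/
noncomputable def cnd {m : ℕ} (N : ℝ) (μ : Fin m → ℂ) (y : ℝ) : ℝ :=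
  N * ∏ j, (1 + ‖(y : ℂ) * I - μ j‖)

lemma one_le_prod {m : ℕ} (μ : Fin m → ℂ) (y : ℝ) : 1 ≤ ∏ j, (1 + ‖(y : ℂ) * I - μ j‖) := by
  refine Finset.prod_induction _ (fun x => (1 : ℝ) ≤ x) (fun a b ha hb => ?_) le_rfl fun j _ => ?_
  · nlinarith
  · linarith [norm_nonneg ((y : ℂ) * I - μ j)]

lemma le_cnd {m : ℕ} {N : ℝ} (hN : 1 ≤ N) (μ : Fin m → ℂ) (y : ℝ) : N ≤ cnd N μ y := by
  unfold cnd
  have := one_le_prod μ y
  nlinarith

variable {m : ℕ} {N : ℝ} {μ : Fin m → ℂ}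

lemma gaf_add_two (hN : 0 < N) {s : ℂ} (hs : ∀ j, s - μ j ≠ 0) :
    gaf N μ (s + 2) = gaf N μ s * (N * ∏ j, ((s - μ j) / 2 / Real.pi)) := by
  unfold gaf
  have h1 : (N : ℂ) ^ ((s + 2) / 2) = (N : ℂ) ^ (s / 2) * N := by
    rw [show (s + 2) / 2 = s / 2 + 1 by ring, cpow_add _ _ (by exact_mod_cast hN.ne'), cpow_one]
  have h2 : ∀ j, Gammaℝ (s + 2 - μ j) = Gammaℝ (s - μ j) * ((s - μ j) / 2 / Real.pi) := fun j => by
    rw [show s + 2 - μ j = s - μ j + 2 by ring, Gammaℝ_add_two (hs j)]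
    ring
  rw [h1, Finset.prod_congr rfl fun j _ => h2 j, Finset.prod_mul_distrib]
  ring

lemma norm_fac (hN : 0 < N) (s : ℂ) :
    ‖((N : ℂ) * ∏ j, ((s - μ j) / 2 / Real.pi))‖ = N * ∏ j, (‖s - μ j‖ / (2 * Real.pi)) := by
  rw [norm_mul, norm_prod, Complex.norm_real, Real.norm_eq_abs, abs_of_pos hN]
  congr 1
  refine Finset.prod_congr rfl fun j _ => ?_
  rw [norm_div, norm_div, Complex.norm_real, Real.norm_eq_abs, abs_of_pos Real.pi_pos, Complex.norm_ofNat,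
    div_div]

lemma sq2 (u : ℂ) : 1 + ‖u + 2‖ ^ 2 ≤ 9 * (1 + ‖u‖ ^ 2) := by
  have h1 : ‖u + 2‖ ≤ ‖u‖ + 2 := by
    refine (norm_add_le _ _).trans ?_
    simp
  have h2 := norm_nonneg u
  have h3 : ‖u + 2‖ ^ 2 ≤ (‖u‖ + 2) ^ 2 := pow_le_pow_left₀ (norm_nonneg _) h1 2
  nlinarith [sq_nonneg (‖u‖ - 1)]

lemma bd_exp {a M : ℝ} (h0 : 0 ≤ a) (h : a ≤ M) (k : ℕ) : a ^ k ≤ Real.exp (k * M) := by
  have h1 : a ≤ Real.exp M := h.trans (by linarith [Real.add_one_le_exp M])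
  calc a ^ k ≤ Real.exp M ^ k := pow_le_pow_left₀ h0 h1 k
    _ = Real.exp (k * M) := by rw [← Real.exp_nat_mul]

lemma cnd_exp (hN : 1 ≤ N) (y : ℝ) : cnd N μ y = Real.exp (Real.log (cnd N μ y)) :=
  (Real.exp_log (lt_of_lt_of_le (by linarith) (le_cnd hN μ y))).symm

/-- upper bound for the product of the linear factors -/
lemma fac_le (hN : 1 ≤ N) (y : ℝ) (u : ℂ) :
    N * ∏ j, (‖1 / 2 + (y : ℂ) * I + u - μ j‖ / (2 * Real.pi)) ≤
      cnd N μ y * Real.exp (m * (1 + ‖u‖ ^ 2)) := by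
  have hN0 : 0 < N := by linarith
  have hpi := Real.pi_gt_three
  have hu := norm_nonneg u
  have h1 : ∀ j, ‖1 / 2 + (y : ℂ) * I + u - μ j‖ / (2 * Real.pi) ≤
      (1 + ‖(y : ℂ) * I - μ j‖) * Real.exp (1 + ‖u‖ ^ 2) := fun j => by
    have h2 : ‖1 / 2 + (y : ℂ) * I + u - μ j‖ ≤ 1 / 2 + ‖u‖ + ‖(y : ℂ) * I - μ j‖ := by
      have e : 1 / 2 + (y : ℂ) * I + u - μ j = (1 / 2 + u) + (y * I - μ j) := by ring
      rw [e]
      refine (norm_add_le _ _).trans ?_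
      have := norm_add_le (1 / 2 : ℂ) u
      have e2 : ‖(1 / 2 : ℂ)‖ = 1 / 2 := by simp
      linarith
    have h3 : ‖1 / 2 + (y : ℂ) * I + u - μ j‖ / (2 * Real.pi) ≤ ‖1 / 2 + (y : ℂ) * I + u - μ j‖ :=
      div_le_self (norm_nonneg _) (by linarith)
    have h4 := norm_nonneg ((y : ℂ) * I - μ j)
    have h5 : 1 + ‖u‖ ≤ Real.exp (1 + ‖u‖ ^ 2) := by
      have := Real.add_one_le_exp (1 + ‖u‖ ^ 2)
      nlinarith [sq_nonneg (‖u‖ - 1)]
    have h6 : 1 / 2 + ‖u‖ + ‖(y : ℂ) * I - μ j‖ ≤ (1 + ‖(y : ℂ) * I - μ j‖) * (1 + ‖u‖) := by nlinarith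
    calc _ ≤ _ := h3
      _ ≤ _ := h2
      _ ≤ _ := h6
      _ ≤ _ := mul_le_mul_of_nonneg_left h5 (by linarith)
  have h7 : ∏ j, (‖1 / 2 + (y : ℂ) * I + u - μ j‖ / (2 * Real.pi)) ≤
      ∏ j, ((1 + ‖(y : ℂ) * I - μ j‖) * Real.exp (1 + ‖u‖ ^ 2)) :=
    Finset.prod_le_prod (fun j _ => by positivity) fun j _ => h1 j
  rw [Finset.prod_mul_distrib, Finset.prod_const, Finset.card_univ, Fintype.card_fin,
    ← Real.exp_nat_mul] at h7
  unfold cnd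
  calc N * ∏ j, (‖1 / 2 + (y : ℂ) * I + u - μ j‖ / (2 * Real.pi)) ≤
      N * ((∏ j, (1 + ‖(y : ℂ) * I - μ j‖)) * Real.exp (m * (1 + ‖u‖ ^ 2))) :=
        mul_le_mul_of_nonneg_left h7 hN0.le
    _ = _ := by ring

/-- lower bound for the product of the linear factors -/
lemma le_fac (hN : 1 ≤ N) (hμ : ∀ j, (μ j).re ≤ 1 / 2) (y : ℝ) {ρ : ℝ} (hρ : 0 < ρ) (hρ1 : ρ ≤ 1) {u : ℂ}
    (hu : ρ ≤ u.re) : cnd N μ y ≤
      N * (∏ j, (‖1 / 2 + (y : ℂ) * I + u - μ j‖ / (2 * Real.pi))) *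
        Real.exp (m * (25 / ρ * (1 + ‖u‖ ^ 2))) := by
  have hN0 : 0 < N := by linarith
  have hpi := Real.pi_gt_three
  have hpi' : Real.pi < 3.15 := Real.pi_lt_d2
  have hu0 := norm_nonneg u
  have h1 : ∀ j, 1 + ‖(y : ℂ) * I - μ j‖ ≤ (‖1 / 2 + (y : ℂ) * I + u - μ j‖ / (2 * Real.pi)) *
      Real.exp (25 / ρ * (1 + ‖u‖ ^ 2)) := fun j => by
    have h2 : ‖(y : ℂ) * I - μ j‖ ≤ ‖1 / 2 + (y : ℂ) * I + u - μ j‖ + (1 / 2 + ‖u‖) := by
      have e : (y : ℂ) * I - μ j = (1 / 2 + (y : ℂ) * I + u - μ j) - (1 / 2 + u) := by ring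
      rw [e]
      refine (norm_sub_le _ _).trans ?_
      have := norm_add_le (1 / 2 : ℂ) u
      have e2 : ‖(1 / 2 : ℂ)‖ = 1 / 2 := by simp
      linarith
    have h3 : ρ ≤ ‖1 / 2 + (y : ℂ) * I + u - μ j‖ := by
      refine le_trans ?_ (re_le_norm _)
      simp
      linarith [hμ j]
    obtain ⟨w, hw⟩ : ∃ w : ℝ, w = ‖1 / 2 + (y : ℂ) * I + u - μ j‖ := ⟨_, rfl⟩
    rw [← hw] at h2 h3 ⊢
    have hw0 : 0 < w := by linarith
    have h5 : 25 / ρ * (1 + ‖u‖ ^ 2) ≤ Real.exp (25 / ρ * (1 + ‖u‖ ^ 2)) := by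
      linarith [Real.add_one_le_exp (25 / ρ * (1 + ‖u‖ ^ 2))]
    have h6 : 1 + ‖(y : ℂ) * I - μ j‖ ≤ w + (3 / 2 + ‖u‖) := by linarith
    have h7 : w + (3 / 2 + ‖u‖) ≤ w / ρ * (5 / 2 + ‖u‖) := by
      rw [div_mul_eq_mul_div, le_div_iff₀ hρ]
      nlinarith [mul_nonneg (sub_nonneg.2 h3) hu0, mul_nonneg hw0.le hu0]
    have h8 : w / ρ * (5 / 2 + ‖u‖) ≤ w / (2 * Real.pi) * (25 / ρ * (1 + ‖u‖ ^ 2)) := by
      rw [div_mul_eq_mul_div, div_mul_eq_mul_div, div_le_div_iff₀ hρ (by positivity)]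
      have h9 : (5 / 2 + ‖u‖) * (2 * Real.pi) ≤ 25 * (1 + ‖u‖ ^ 2) := by nlinarith [sq_nonneg (‖u‖ - 1)]
      have e9 : w * (25 / ρ * (1 + ‖u‖ ^ 2)) * ρ = w * (25 * (1 + ‖u‖ ^ 2)) := by field_simp
      rw [e9]
      have := mul_le_mul_of_nonneg_left h9 hw0.le
      linarith
    calc _ ≤ _ := h6
      _ ≤ _ := h7
      _ ≤ _ := h8
      _ ≤ _ := mul_le_mul_of_nonneg_left h5 (by positivity)
  have h7 : ∏ j, (1 + ‖(y : ℂ) * I - μ j‖) ≤ ∏ j, ((‖1 / 2 + (y : ℂ) * I + u - μ j‖ / (2 * Real.pi)) *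
      Real.exp (25 / ρ * (1 + ‖u‖ ^ 2))) :=
    Finset.prod_le_prod (fun j _ => by positivity) fun j _ => h1 j
  rw [Finset.prod_mul_distrib, Finset.prod_const, Finset.card_univ, Fintype.card_fin,
    ← Real.exp_nat_mul] at h7
  unfold cnd
  calc N * ∏ j, (1 + ‖(y : ℂ) * I - μ j‖) ≤ N * ((∏ j, (‖1 / 2 + (y : ℂ) * I + u - μ j‖ / (2 * Real.pi))) *
      Real.exp (m * (25 / ρ * (1 + ‖u‖ ^ 2)))) := mul_le_mul_of_nonneg_left h7 hN0.le
    _ = _ := by ring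

/-- the inverse of the gamma factor on the right of the critical line -/
theorem gam_inv (hm : 1 ≤ m) (hN : 1 ≤ N) (hμ : ∀ j, (μ j).re ≤ 1 / 2) (y : ℝ) {u : ℂ} (hu : 0 ≤ u.re) :
    ‖(gaf N μ (1 / 2 + (y : ℂ) * I + u))⁻¹‖ ≤
      (‖gaf N μ (3 / 2 + y * I)‖ * Real.exp (-(gaD N μ (3 / 2 + y * I)).re))⁻¹ *
      Real.exp (-((gaD N μ (3 / 2 + y * I)).re * u.re) + 231 * m * (1 + ‖u‖ ^ 2)) := by
  have hN0 : 0 < N := by linarith
  have hm' : (1 : ℝ) ≤ m := by exact_mod_cast hm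
  have gp := gaf_GP hm hN hμ
  obtain ⟨ℓ, hℓ⟩ : ∃ ℓ : ℝ, ℓ = (gaD N μ (3 / 2 + y * I)).re := ⟨_, rfl⟩
  obtain ⟨G, hG⟩ : ∃ G : ℝ, G = ‖gaf N μ (3 / 2 + y * I)‖ * Real.exp (-ℓ) := ⟨_, rfl⟩
  rw [← hℓ, ← hG]
  have hs1 : 1 ≤ (3 / 2 + y * I : ℂ).re := by simp; norm_num
  have hGpos : 0 < G := by
    rw [hG]
    have := norm_pos_iff.2 (gp.ne _ hs1)
    positivity
  obtain ⟨s, hs⟩ : ∃ s : ℂ, s = 1 / 2 + (y : ℂ) * I + u := ⟨_, rfl⟩
  rw [← hs]
  by_cases hz : ∀ j, s - μ j ≠ 0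
  · have h1 := gaf_add_two hN0 hz
    have h2 := (gam_loc gp y (u := u + 2) (by simp; linarith)).2
    rw [← hℓ, ← hG, show (1 / 2 + (y : ℂ) * I + (u + 2) : ℂ) = s + 2 by rw [hs]; ring] at h2
    have h3 : 0 < ‖gaf N μ (s + 2)‖ := lt_of_lt_of_le (by positivity) h2
    have h4 : (gaf N μ s)⁻¹ = (gaf N μ (s + 2))⁻¹ * (N * ∏ j, ((s - μ j) / 2 / Real.pi)) := by
      have h5 : gaf N μ (s + 2) ≠ 0 := norm_pos_iff.1 h3
      have h6 : gaf N μ s ≠ 0 := fun h => h5 (by rw [h1, h, zero_mul])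
      have h7 : (N * ∏ j, ((s - μ j) / 2 / Real.pi) : ℂ) ≠ 0 := fun h => h5 (by rw [h1, h, mul_zero])
      rw [h1, mul_inv, mul_assoc, inv_mul_cancel₀ h7, mul_one]
    rw [h4, norm_mul, norm_fac hN0, norm_inv]
    have h5 := fac_le (μ := μ) hN y u
    rw [← hs, cnd_exp hN] at h5
    have hlo := gaD_re_ge hN hμ y
    change 1 / 2 * Real.log (cnd N μ y) - 7 * m ≤ _ at hlo
    rw [← hℓ] at hlo
    have h6 : ‖gaf N μ (s + 2)‖⁻¹ ≤ (G * Real.exp (ℓ * (u + 2).re - 4 * (6 * m) * (1 + ‖u + 2‖ ^ 2)))⁻¹ :=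
      inv_anti₀ (by positivity) h2
    have h7 := sq2 u
    have h8 : 0 ≤ ‖u‖ ^ 2 := by positivity
    calc ‖gaf N μ (s + 2)‖⁻¹ * (N * ∏ j, (‖s - μ j‖ / (2 * Real.pi))) ≤
        (G * Real.exp (ℓ * (u + 2).re - 4 * (6 * m) * (1 + ‖u + 2‖ ^ 2)))⁻¹ *
        (Real.exp (Real.log (cnd N μ y)) * Real.exp (m * (1 + ‖u‖ ^ 2))) :=
          mul_le_mul h6 h5 (by positivity) (by positivity)
      _ = G⁻¹ * Real.exp (-(ℓ * (u + 2).re - 4 * (6 * m) * (1 + ‖u + 2‖ ^ 2)) + Real.log (cnd N μ y) +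
          m * (1 + ‖u‖ ^ 2)) := by
          rw [mul_inv, ← Real.exp_neg, Real.exp_add (_ + _), Real.exp_add]
          ring
      _ ≤ _ := by
          apply mul_le_mul_of_nonneg_left _ (by positivity)
          apply Real.exp_le_exp.2
          have e : (u + 2).re = u.re + 2 := by simp
          rw [e]
          nlinarith
  · push Not at hz
    obtain ⟨j, hj⟩ := hz
    have h1 : gaf N μ s = 0 := by
      unfold gaf
      rw [Finset.prod_eq_zero (Finset.mem_univ j), mul_zero]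
      rw [hj, Gammaℝ_eq_zero_iff]
      exact ⟨0, by simp⟩
    rw [h1, inv_zero, norm_zero]
    positivity

/-- upper bound for the gamma factor on the right of the critical line -/
theorem gam_up (hm : 1 ≤ m) (hN : 1 ≤ N) (hμ : ∀ j, (μ j).re ≤ 1 / 2) (y : ℝ) {ρ : ℝ} (hρ : 0 < ρ)
    (hρ1 : ρ ≤ 1) {u : ℂ} (hu : ρ ≤ u.re) :
    gaf N μ (1 / 2 + (y : ℂ) * I + u) ≠ 0 ∧ ‖gaf N μ (1 / 2 + (y : ℂ) * I + u)‖ ≤
      (‖gaf N μ (3 / 2 + y * I)‖ * Real.exp (-(gaD N μ (3 / 2 + y * I)).re)) *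
      Real.exp ((gaD N μ (3 / 2 + y * I)).re * u.re + (226 * m + 25 * m / ρ) * (1 + ‖u‖ ^ 2)) := by
  have hN0 : 0 < N := by linarith
  have hm' : (1 : ℝ) ≤ m := by exact_mod_cast hm
  have gp := gaf_GP hm hN hμ
  obtain ⟨ℓ, hℓ⟩ : ∃ ℓ : ℝ, ℓ = (gaD N μ (3 / 2 + y * I)).re := ⟨_, rfl⟩
  obtain ⟨G, hG⟩ : ∃ G : ℝ, G = ‖gaf N μ (3 / 2 + y * I)‖ * Real.exp (-ℓ) := ⟨_, rfl⟩
  rw [← hℓ, ← hG]
  have hs1 : 1 ≤ (3 / 2 + y * I : ℂ).re := by simp; norm_num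
  have hGpos : 0 < G := by
    rw [hG]
    have := norm_pos_iff.2 (gp.ne _ hs1)
    positivity
  obtain ⟨s, hs⟩ : ∃ s : ℂ, s = 1 / 2 + (y : ℂ) * I + u := ⟨_, rfl⟩
  have hre : ∀ j, 0 < (s - μ j).re := fun j => by
    rw [hs]
    simp
    linarith [hμ j]
  have hz : ∀ j, s - μ j ≠ 0 := fun j h => by
    have := hre j
    rw [h] at this
    simp at this
  have hle := le_fac hN hμ y hρ hρ1 hu
  rw [← hs] at hle ⊢
  have h0 : gaf N μ s ≠ 0 := by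
    unfold gaf
    refine mul_ne_zero ?_ (Finset.prod_ne_zero_iff.mpr fun j _ => Gammaℝ_ne_zero_of_re_pos (hre j))
    rw [cpow_def_of_ne_zero (by exact_mod_cast hN0.ne')]
    exact Complex.exp_ne_zero _
  refine ⟨h0, ?_⟩
  have h1 := gaf_add_two hN0 hz
  have h2 := (gam_loc gp y (u := u + 2) (by simp; linarith)).1
  rw [← hℓ, ← hG, show (1 / 2 + (y : ℂ) * I + (u + 2) : ℂ) = s + 2 by rw [hs]; ring, h1, norm_mul,
    norm_fac hN0] at h2
  obtain ⟨P, hP⟩ : ∃ P : ℝ, P = N * ∏ j, (‖s - μ j‖ / (2 * Real.pi)) := ⟨_, rfl⟩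
  rw [← hP] at h2 hle
  rw [cnd_exp hN] at hle
  have hup := gaD_re_le hN hμ y
  change _ ≤ 1 / 2 * Real.log (cnd N μ y) + 5 * m at hup
  rw [← hℓ] at hup
  have hPpos : 0 < P := by
    by_contra hcon
    push Not at hcon
    have := mul_nonpos_of_nonpos_of_nonneg hcon (Real.exp_pos (m * (25 / ρ * (1 + ‖u‖ ^ 2)))).le
    linarith [Real.exp_pos (Real.log (cnd N μ y))]
  have h7 := sq2 u
  have h8 : 0 ≤ ‖u‖ ^ 2 := by positivity
  have e25 : (m : ℝ) * (25 / ρ * (1 + ‖u‖ ^ 2)) = 25 * m / ρ * (1 + ‖u‖ ^ 2) := by ring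
  rw [e25] at hle
  have h9 : P⁻¹ ≤ Real.exp (-Real.log (cnd N μ y)) * Real.exp (25 * m / ρ * (1 + ‖u‖ ^ 2)) := by
    rw [inv_le_iff_one_le_mul₀ hPpos]
    calc (1 : ℝ) = Real.exp (-Real.log (cnd N μ y)) * Real.exp (Real.log (cnd N μ y)) := by
          rw [← Real.exp_add]; simp
      _ ≤ Real.exp (-Real.log (cnd N μ y)) * (P * Real.exp (25 * m / ρ * (1 + ‖u‖ ^ 2))) := by gcongr
      _ = _ := by ring
  calc ‖gaf N μ s‖ = ‖gaf N μ s‖ * P * P⁻¹ := by field_simp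
    _ ≤ G * Real.exp (ℓ * (u + 2).re + 4 * (6 * m) * (1 + ‖u + 2‖ ^ 2)) *
        (Real.exp (-Real.log (cnd N μ y)) * Real.exp (25 * m / ρ * (1 + ‖u‖ ^ 2))) :=
          mul_le_mul h2 h9 (by positivity) (by positivity)
    _ = G * Real.exp (ℓ * (u + 2).re + 4 * (6 * m) * (1 + ‖u + 2‖ ^ 2) + -Real.log (cnd N μ y) +
        25 * m / ρ * (1 + ‖u‖ ^ 2)) := by
          rw [Real.exp_add (_ + _), Real.exp_add (ℓ * (u + 2).re + 4 * (6 * m) * (1 + ‖u + 2‖ ^ 2))]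
          ring
    _ ≤ _ := by
          apply mul_le_mul_of_nonneg_left _ hGpos.le
          apply Real.exp_le_exp.2
          have e : (u + 2).re = u.re + 2 := by simp
          rw [e]
          have h10 : (226 * m + 25 * m / ρ) * (1 + ‖u‖ ^ 2) =
            226 * m * (1 + ‖u‖ ^ 2) + 25 * m / ρ * (1 + ‖u‖ ^ 2) := by ring
          rw [h10]
          nlinarith

lemma cnd_pos {N : ℝ} (hN : 1 ≤ N) (μ : Fin m → ℂ) (y : ℝ) : 1 ≤ cnd N μ y := hN.trans (le_cnd hN μ y)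

/-- the conductor of the problem and the local conductor, normalised data -/
lemma cnd_norm {N : ℝ} (hN : 1 ≤ N) (μ : Fin m → ℂ) (hm : 1 ≤ m) (hsum : ∑ j, (μ j).im = 0) (y : ℝ) :
    Real.log ((1 + |y|) * (N * ∏ j, (1 + ‖μ j‖))) ≤ (m + 2) * Real.log (cnd N μ y) ∧
    Real.log (cnd N μ y) ≤ m * Real.log ((1 + |y|) * (N * ∏ j, (1 + ‖μ j‖))) := by
  have hm' : (1 : ℝ) ≤ m := by exact_mod_cast hm
  have hy := abs_nonneg y
  have hc := cnd_pos hN μ y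
  have hp1 : 1 ≤ ∏ j, (1 + ‖μ j‖) := by
    refine Finset.prod_induction _ (fun x => (1 : ℝ) ≤ x) (fun a b ha hb => ?_) le_rfl fun j _ => ?_
    · nlinarith
    · linarith [norm_nonneg (μ j)]
  have hC : 1 ≤ N * ∏ j, (1 + ‖μ j‖) := by nlinarith
  have hC2 : 1 ≤ (1 + |y|) * (N * ∏ j, (1 + ‖μ j‖)) := by nlinarith
  -- comparison of products
  have hA : ∏ j, (1 + ‖(y : ℂ) * I - μ j‖) ≤ (1 + |y|) ^ m * ∏ j, (1 + ‖μ j‖) := by
    have h1 : ∀ j, 1 + ‖(y : ℂ) * I - μ j‖ ≤ (1 + |y|) * (1 + ‖μ j‖) := fun j => by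
      have h2 := norm_sub_le ((y : ℂ) * I) (μ j)
      rw [norm_mul, Complex.norm_real, Complex.norm_I, mul_one, Real.norm_eq_abs] at h2
      have := norm_nonneg (μ j)
      nlinarith
    have h2 := Finset.prod_le_prod (s := (Finset.univ : Finset (Fin m))) (fun j _ => by positivity)
      fun j _ => h1 j
    rwa [Finset.prod_mul_distrib, Finset.prod_const, Finset.card_univ, Fintype.card_fin] at h2
  have hB : ∏ j, (1 + ‖μ j‖) ≤ (1 + |y|) ^ m * ∏ j, (1 + ‖(y : ℂ) * I - μ j‖) := by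
    have h1 : ∀ j, 1 + ‖μ j‖ ≤ (1 + |y|) * (1 + ‖(y : ℂ) * I - μ j‖) := fun j => by
      have h2 := norm_sub_le ((y : ℂ) * I) ((y : ℂ) * I - μ j)
      rw [sub_sub_cancel, norm_mul, Complex.norm_real, Complex.norm_I, mul_one, Real.norm_eq_abs] at h2
      have := norm_nonneg ((y : ℂ) * I - μ j)
      nlinarith
    have h2 := Finset.prod_le_prod (s := (Finset.univ : Finset (Fin m))) (fun j _ => by positivity)
      fun j _ => h1 j
    rwa [Finset.prod_mul_distrib, Finset.prod_const, Finset.card_univ, Fintype.card_fin] at h2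
  -- the height
  have hD : 1 + |y| ≤ ∏ j, (1 + ‖(y : ℂ) * I - μ j‖) := by
    have h1 : |y| ≤ ∑ j, ‖(y : ℂ) * I - μ j‖ := by
      have h2 : ∑ j, ((y : ℂ) * I - μ j).im = m * y := by
        simp only [sub_im, mul_im, ofReal_re, I_im, mul_one, ofReal_im, I_re, mul_zero, add_zero]
        rw [Finset.sum_sub_distrib, hsum, Finset.sum_const, Finset.card_univ, Fintype.card_fin, nsmul_eq_mul,
          sub_zero]
      have h3 : |(m : ℝ) * y| ≤ ∑ j, ‖(y : ℂ) * I - μ j‖ := by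
        rw [← h2]
        refine (Finset.abs_sum_le_sum_abs _ _).trans (Finset.sum_le_sum fun j _ => abs_im_le_norm _)
      rw [abs_mul, abs_of_nonneg (by linarith : (0 : ℝ) ≤ m)] at h3
      nlinarith
    have h4 : ∀ s : Finset (Fin m), 1 + ∑ j ∈ s, ‖(y : ℂ) * I - μ j‖ ≤
        ∏ j ∈ s, (1 + ‖(y : ℂ) * I - μ j‖) := by
      classical
      intro s
      induction s using Finset.induction_on with
      | empty => simp
      | insert a s ha ih =>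
        rw [Finset.sum_insert ha, Finset.prod_insert ha]
        have h5 := norm_nonneg ((y : ℂ) * I - μ a)
        have h6 : 0 ≤ ∑ j ∈ s, ‖(y : ℂ) * I - μ j‖ := Finset.sum_nonneg fun j _ => norm_nonneg _
        nlinarith
    linarith [h4 Finset.univ]
  have hD' : 1 + |y| ≤ cnd N μ y := by
    unfold cnd
    nlinarith
  have hlog1 : 0 ≤ Real.log (cnd N μ y) := Real.log_nonneg hc
  constructor
  · have h1 : (1 + |y|) * (N * ∏ j, (1 + ‖μ j‖)) ≤ cnd N μ y ^ (m + 2) := by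
      calc (1 + |y|) * (N * ∏ j, (1 + ‖μ j‖)) ≤
          (1 + |y|) * (N * ((1 + |y|) ^ m * ∏ j, (1 + ‖(y : ℂ) * I - μ j‖))) := by gcongr
        _ = (1 + |y|) * ((1 + |y|) ^ m * cnd N μ y) := by unfold cnd; ring
        _ ≤ cnd N μ y * (cnd N μ y ^ m * cnd N μ y) := by gcongr
        _ = _ := by ring
    have h2 := Real.log_le_log (by linarith) h1
    rw [Real.log_pow] at h2
    push_cast at h2
    exact h2
  · have h1 : cnd N μ y ≤ ((1 + |y|) * (N * ∏ j, (1 + ‖μ j‖))) ^ m := by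
      calc cnd N μ y ≤ N * ((1 + |y|) ^ m * ∏ j, (1 + ‖μ j‖)) := by
            unfold cnd
            gcongr
        _ = (1 + |y|) ^ m * (N * ∏ j, (1 + ‖μ j‖)) := by ring
        _ ≤ (1 + |y|) ^ m * (N * ∏ j, (1 + ‖μ j‖)) ^ m := by
            apply mul_le_mul_of_nonneg_left _ (by positivity)
            exact le_self_pow₀ hC (by omega)
        _ = _ := by rw [← mul_pow]
    have h2 := Real.log_le_log (by linarith) h1
    rwa [Real.log_pow] at h2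

end Pool.Agent.T3h90.WS.Gam
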