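import Pool.Agent.T3h90.WS.Stm
import Pool.Agent.H370R2.Local

/-!
# Task LAN: Landau's lemma for a Dirichlet series with nonnegative coefficients and a simple pole
-/

set_option autoImplicit false

open Complex MeasureTheory Filter Topology Set Metric

namespace Pool.Agent.T3h90.WS

open H370.Loc

lemma lan_Pf_re {s : Multiset ℂ} {z : ℂ} {a : ℝ} (hz : a < z.re) (h : ∀ ρ ∈ s, ρ.re ≤ a) :
    0 ≤ (logDeriv (Pf s) z).re := by
  induction s using Multiset.induction_on with
  | empty =>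
    have : Pf 0 = fun _ => (1 : ℂ) := funext Pf_zero
    rw [this]
    simp [logDeriv]
  | cons ρ s ih =>
    have : Pf (ρ ::ₘ s) = fun z => (z - ρ) * Pf s z := funext (Pf_cons ρ s)
    have hre : 0 < (z - ρ).re := by
      rw [Complex.sub_re]
      have := h ρ (Multiset.mem_cons_self ρ s)
      linarith
    have hz0 : z - ρ ≠ 0 := by
      intro h0
      rw [h0] at hre
      simp at hre
    have hP : Pf s z ≠ 0 := Pf_ne_zero fun ρ' h' => by
      have := h ρ' (Multiset.mem_cons_of_mem h')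
      rintro rfl
      linarith
    have e1 : logDeriv (fun z => (z - ρ) * Pf s z) z =
        logDeriv (fun z => z - ρ) z + logDeriv (Pf s) z :=
      logDeriv_mul z hz0 hP (differentiableAt_id.sub_const ρ) (Pf_diff s z)
    rw [this, e1]
    have e2 : logDeriv (fun z => z - ρ) z = 1 / (z - ρ) := by
      rw [logDeriv_apply]
      congr 1
      simp
    have h3 := ih fun ρ' h' => h ρ' (Multiset.mem_cons_of_mem h')
    rw [Complex.add_re, e2]
    have h4 : 0 ≤ (1 / (z - ρ)).re := by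
      rw [one_div, Complex.inv_re]
      exact div_nonneg hre.le (Complex.normSq_nonneg _)
    linarith

/-- Landau's lemma, one-sided -/
lemma landau_re {f : ℂ → ℂ} {c : ℂ} {r r1 r2 R M a : ℝ} (hr2 : 0 < r2) (h21 : r2 < r1)
    (h1r : r1 < r) (hrR : r < R) (hRr : R ≤ 2 * r) (hM : 1 ≤ M) (hMf : ‖f c‖ ≤ M)
    (hf : AnalyticOnNhd ℂ f (closedBall c R)) (hc : f c ≠ 0)
    (hb : ∀ z ∈ closedBall c R, ‖f z‖ ≤ M) {z : ℂ} (hz : z ∈ closedBall c r2) (haz : a < z.re)
    (ha : ∀ ρ ∈ closedBall c r, f ρ = 0 → ρ.re ≤ a) :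
    -(logDeriv f z).re ≤
        2 * (Real.log (M / ‖f c‖) + Real.log (M / ‖f c‖) / Real.log (R / r) *
          Real.log (r / (R - r)) + 1) * r1 / (r - r1) / (r1 - r2) := by
  have hr : 0 < r := by linarith
  have hR : 0 < R := by linarith
  obtain ⟨s, g, hs, hg, hfg, hg0, hcard⟩ := extract hr hrR hM hf hc hb
  have hzr : z ∈ closedBall c r := closedBall_subset_closedBall (by linarith) hz
  have hzR : z ∈ closedBall c R := closedBall_subset_closedBall hrR.le hzr
  have hcr : c ∈ closedBall c r := mem_closedBall_self hr.le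
  have hcR : c ∈ closedBall c R := mem_closedBall_self hR.le
  have has : ∀ ρ ∈ s, ρ.re ≤ a := fun ρ hρ => ha ρ (hs ρ hρ).1 (hs ρ hρ).2
  have hPz : Pf s z ≠ 0 := Pf_ne_zero fun ρ hρ he => by
    have := has ρ hρ
    rw [he] at haz
    linarith
  have hfc : 0 < ‖f c‖ := norm_pos_iff.2 hc
  set n := Multiset.card s with hn
  have hlogM : 0 ≤ Real.log (M / ‖f c‖) := Real.log_nonneg (by rw [le_div_iff₀ hfc]; linarith)
  have hRr0 : 0 < R - r := by linarith
  have hq : 1 ≤ r / (R - r) := by rw [le_div_iff₀ hRr0]; linarith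
  have hlogq : 0 ≤ Real.log (r / (R - r)) := Real.log_nonneg hq
  -- bounds for g
  have hgsphere : ∀ w ∈ sphere c R, ‖g w‖ ≤ M / (R - r) ^ n := by
    intro w hw
    have hwR := sphere_subset_closedBall hw
    have h1 : (R - r) ^ n ≤ ‖Pf s w‖ := Pf_norm_ge hRr0.le fun ρ hρ => by
      have h2 := (hs ρ hρ).1
      rw [mem_closedBall, dist_eq_norm] at h2
      rw [mem_sphere, dist_eq_norm] at hw
      have h3 : ‖w - c‖ ≤ ‖w - ρ‖ + ‖ρ - c‖ := by
        calc ‖w - c‖ = ‖(w - ρ) + (ρ - c)‖ := by congr 1; ring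
          _ ≤ _ := norm_add_le _ _
      linarith
    rw [le_div_iff₀ (by positivity)]
    calc ‖g w‖ * (R - r) ^ n ≤ ‖g w‖ * ‖Pf s w‖ := mul_le_mul_of_nonneg_left h1 (norm_nonneg _)
      _ = ‖f w‖ := by rw [hfg w, norm_mul, mul_comm]
      _ ≤ M := hb w hwR
  have hgball : ∀ w ∈ closedBall c R, ‖g w‖ ≤ M / (R - r) ^ n := by
    intro w hw
    refine Complex.norm_le_of_forall_mem_frontier_norm_le (U := ball c R) isBounded_ball ?_ ?_ ?_
    · apply DifferentiableOn.diffContOnCl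
      rw [closure_ball c hR.ne']
      exact fun x hx => (hg x hx).differentiableAt.differentiableWithinAt
    · intro x hx
      rw [frontier_ball c hR.ne'] at hx
      exact hgsphere x hx
    · rwa [closure_ball c hR.ne']
  have hgc : ‖f c‖ / r ^ n ≤ ‖g c‖ := by
    rw [div_le_iff₀ (by positivity)]
    have h1 : ‖Pf s c‖ ≤ r ^ n := Pf_norm_le fun ρ hρ => by
      have h2 := (hs ρ hρ).1
      rw [mem_closedBall, dist_eq_norm, norm_sub_rev] at h2
      exact h2
    calc ‖f c‖ = ‖g c‖ * ‖Pf s c‖ := by rw [hfg c, norm_mul, mul_comm]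
      _ ≤ ‖g c‖ * r ^ n := mul_le_mul_of_nonneg_left h1 (norm_nonneg _)
  set B : ℝ := Real.log (M / ‖f c‖) + n * Real.log (r / (R - r)) with hB
  have hB0 : 0 ≤ B := by positivity
  have hexpB : Real.exp B = M / ‖f c‖ * (r / (R - r)) ^ n := by
    rw [hB, Real.exp_add, Real.exp_log (by positivity), Real.exp_nat_mul,
      Real.exp_log (by positivity)]
  have hgb : ∀ w ∈ closedBall c r, ‖g w‖ ≤ Real.exp B * ‖g c‖ := by
    intro w hw
    refine (hgball w (closedBall_subset_closedBall hrR.le hw)).trans ?_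
    rw [hexpB]
    calc M / (R - r) ^ n = M / ‖f c‖ * (r / (R - r)) ^ n * (‖f c‖ / r ^ n) := by
          rw [div_pow]; field_simp
      _ ≤ _ := mul_le_mul_of_nonneg_left hgc (by positivity)
  have hlg := logDeriv_zero_free hr2 h21 h1r hB0
    (hg.mono (closedBall_subset_closedBall hrR.le)) hg0 hgb hz
  have hlP := lan_Pf_re haz has
  have heq : logDeriv f z = logDeriv (Pf s) z + logDeriv g z := by
    have h1 : f = fun w => Pf s w * g w := funext hfg
    conv_lhs => rw [h1]
    exact logDeriv_mul z hPz (hg0 z hzr) (Pf_diff s z) (hg z hzR).differentiableAt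
  rw [heq, Complex.add_re]
  have h7 : -(logDeriv g z).re ≤ ‖logDeriv g z‖ := (neg_le_abs _).trans (Complex.abs_re_le_norm _)
  have h8 : B ≤ Real.log (M / ‖f c‖) + Real.log (M / ‖f c‖) / Real.log (R / r) *
        Real.log (r / (R - r)) := by
    rw [hB]
    have := mul_le_mul_of_nonneg_right hcard hlogq
    linarith
  have h9 : 0 < r - r1 := by linarith
  have h10 : 0 < r1 - r2 := by linarith
  have h11 : 0 < r1 := by linarith
  have h12 : 2 * (B + 1) * r1 / (r - r1) / (r1 - r2) ≤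
      2 * (Real.log (M / ‖f c‖) + Real.log (M / ‖f c‖) / Real.log (R / r) *
          Real.log (r / (R - r)) + 1) * r1 / (r - r1) / (r1 - r2) := by
    gcongr
  linarith

theorem t_LAN : S_LAN := by
  set L1 : ℝ := Real.log ((6 / 5 : ℝ) / (11 / 10)) with hL1
  set L2 : ℝ := Real.log ((11 / 10 : ℝ) / (6 / 5 - 11 / 10)) with hL2
  have hL1p : 0 < L1 := Real.log_pos (by norm_num)
  have hL2p : 0 < L2 := Real.log_pos (by norm_num)
  refine ⟨2 * (2 + 2 / L1 * L2 + 1) * (4 / 5) / (11 / 10 - 4 / 5) / (4 / 5 - 1 / 2), by positivity, ?_⟩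
  intro Z b M hM hb hsum hZ hZd hZM η hη hη1
  have hlam : ∀ x : X, 0 < lam x := fun x =>
    mul_pos (by positivity) (Real.log_pos (by exact_mod_cast x.1.2.one_lt))
  -- the Dirichlet series
  set F : X → ℂ → ℂ := fun x s => (b x : ℂ) / ((x.2 : ℂ) + 1) * cexp (-(lam x : ℂ) * s) with hF
  have hFd : ∀ x, Differentiable ℂ (F x) := by intro x; rw [hF]; fun_prop
  have hFn : ∀ (x : X) (s : ℂ), ‖F x s‖ = b x / ((x.2 : ℝ) + 1) * Real.exp (-(s.re * lam x)) := by
    intro x s
    rw [hF]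
    simp only
    rw [norm_mul, norm_div, Complex.norm_real, Real.norm_of_nonneg (hb x), Complex.norm_exp]
    congr 2
    · have : ((x.2 : ℂ) + 1) = (((x.2 : ℝ) + 1 : ℝ) : ℂ) := by push_cast; rfl
      rw [this, Complex.norm_real, Real.norm_of_nonneg (by positivity)]
    · simp [mul_comm]
  have hZ' : ∀ s : ℂ, 1 < s.re → Z s = (s - 1) * cexp (∑' x, F x s) := hZ
  have hs1 : ((1 + η : ℝ) : ℂ).re = 1 + η := Complex.ofReal_re _
  set s : ℂ := ((1 + η : ℝ) : ℂ) with hs
  set U : Set ℂ := {w : ℂ | 1 + η / 2 < w.re} with hU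
  have hUo : IsOpen U := isOpen_lt continuous_const Complex.continuous_re
  have hsU : s ∈ U := by rw [hU, mem_setOf_eq, hs1]; linarith
  have hle : ∀ (x : X) (w : ℂ), w ∈ U → ‖F x w‖ ≤ b x / ((x.2 : ℝ) + 1) * Real.exp (-((1 + η / 2) * lam x)) := by
    intro x w hw
    rw [hFn]
    refine mul_le_mul_of_nonneg_left (Real.exp_le_exp.2 ?_) (div_nonneg (hb x) (by positivity))
    have hw' : 1 + η / 2 < w.re := hw
    have := mul_le_mul_of_nonneg_right hw'.le (hlam x).le
    linarith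
  have hu := hsum (1 + η / 2) (by linarith)
  have hder := Complex.hasSum_deriv_of_summable_norm hu (fun x => (hFd x).differentiableOn) hUo hle hsU
  have hDd : DifferentiableOn ℂ (fun w => ∑' x, F x w) U :=
    Complex.differentiableOn_tsum_of_summable_norm hu (fun x => (hFd x).differentiableOn) hUo hle
  have hDds : DifferentiableAt ℂ (fun w => ∑' x, F x w) s := hDd.differentiableAt (hUo.mem_nhds hsU)
  have hterm : ∀ x : X, deriv (F x) s = ((-(wt x * b x * Real.exp (-(η * lam x))) : ℝ) : ℂ) := by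
    intro x
    have h1 : HasDerivAt (F x) ((b x : ℂ) / ((x.2 : ℂ) + 1) * (cexp (-(lam x : ℂ) * s) * (-(lam x : ℂ)))) s := by
      have h2 : HasDerivAt (fun w : ℂ => -(lam x : ℂ) * w) (-(lam x : ℂ)) s := by
        simpa using (hasDerivAt_id s).const_mul (-(lam x : ℂ))
      exact h2.cexp.const_mul _
    rw [h1.deriv]
    have h3 : cexp (-(lam x : ℂ) * s) = ((Real.exp (-lam x) * Real.exp (-(η * lam x)) : ℝ) : ℂ) := by
      rw [← Real.exp_add, Complex.ofReal_exp]
      congr 1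
      rw [hs]
      push_cast
      ring
    have h4 : ((x.2 : ℂ) + 1) ≠ 0 := by exact_mod_cast Nat.succ_ne_zero x.2
    rw [h3, wt]
    have h5 : (lam x : ℂ) = ((x.2 : ℂ) + 1) * (Real.log ((x.1 : ℕ) : ℝ) : ℂ) := by
      rw [lam]; push_cast; ring
    rw [h5]
    push_cast
    field_simp
  simp_rw [hterm] at hder
  have hder2 := (Complex.hasSum_re hder)
  simp only [Complex.ofReal_re] at hder2
  have hder3 := hder2.neg
  simp only [neg_neg] at hder3
  refine ⟨hder3.summable, ?_⟩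
  rw [hder3.tsum_eq]
  -- the logarithmic derivative
  have hsne : s - 1 ≠ 0 := by
    rw [hs]
    have : (((1 + η : ℝ) : ℂ) - 1) = (η : ℂ) := by push_cast; ring
    rw [this]
    exact_mod_cast hη.ne'
  have hev : Z =ᶠ[𝓝 s] fun w => (w - 1) * cexp (∑' x, F x w) := by
    filter_upwards [hUo.mem_nhds hsU] with w hw
    have hw' : 1 + η / 2 < w.re := hw
    exact hZ' w (by linarith)
  have hlog : logDeriv Z s = 1 / (s - 1) + deriv (fun w => ∑' x, F x w) s := by
    rw [logDeriv_apply, hev.deriv_eq, hev.eq_of_nhds]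
    have h1 : HasDerivAt (fun w => (w - 1) * cexp (∑' x, F x w))
        (1 * cexp (∑' x, F x s) + (s - 1) * (cexp (∑' x, F x s) * deriv (fun w => ∑' x, F x w) s)) s :=
      ((hasDerivAt_id s).sub_const 1).mul hDds.hasDerivAt.cexp
    rw [h1.deriv]
    have := Complex.exp_ne_zero (∑' x, F x s)
    field_simp
  have hre : (logDeriv Z s).re = 1 / η + (deriv (fun w => ∑' x, F x w) s).re := by
    rw [hlog, Complex.add_re]
    congr 1
    rw [hs]
    have : (((1 + η : ℝ) : ℂ) - 1) = (η : ℂ) := by push_cast; ring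
    rw [this, ← Complex.ofReal_one, ← Complex.ofReal_div, Complex.ofReal_re]
  -- Landau's lemma
  have hdo : DifferentiableOn ℂ Z {w : ℂ | 1 / 4 < w.re} := fun w hw => (hZd w hw).differentiableWithinAt
  have hana : AnalyticOnNhd ℂ Z {w : ℂ | 1 / 4 < w.re} :=
    hdo.analyticOnNhd (isOpen_lt continuous_const Complex.continuous_re)
  have hgeo : ∀ z ∈ closedBall (3 / 2 : ℂ) (6 / 5), 1 / 4 < z.re ∧ ‖z - 1‖ ≤ 4 := by
    intro z hz
    rw [mem_closedBall, dist_eq_norm] at hz
    have h1 := abs_le.1 ((Complex.abs_re_le_norm (z - 3 / 2)).trans hz)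
    have h32 : (3 / 2 : ℂ).re = 3 / 2 := by
      have : (3 / 2 : ℂ) = ((3 / 2 : ℝ) : ℂ) := by push_cast; rfl
      rw [this, Complex.ofReal_re]
    rw [Complex.sub_re, h32] at h1
    refine ⟨by linarith, ?_⟩
    calc ‖z - 1‖ = ‖(z - 3 / 2) + 1 / 2‖ := by congr 1; ring
      _ ≤ ‖z - 3 / 2‖ + ‖(1 / 2 : ℂ)‖ := norm_add_le _ _
      _ ≤ 6 / 5 + 1 / 2 := by
          have : ‖(1 / 2 : ℂ)‖ = 1 / 2 := by simp
          rw [this]; linarith
      _ ≤ 4 := by norm_num
  have hZc : 1 / 2 ≤ ‖Z (3 / 2)‖ := by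
    have h32 : (3 / 2 : ℂ).re = 3 / 2 := by
      have : (3 / 2 : ℂ) = ((3 / 2 : ℝ) : ℂ) := by push_cast; rfl
      rw [this, Complex.ofReal_re]
    rw [hZ' (3 / 2) (by rw [h32]; norm_num), norm_mul, Complex.norm_exp]
    have h1 : ‖(3 / 2 - 1 : ℂ)‖ = 1 / 2 := by norm_num
    rw [h1]
    have h2 : 0 ≤ (∑' x, F x (3 / 2)).re := by
      have h3 : ∀ x, F x (3 / 2) = ((b x / ((x.2 : ℝ) + 1) * Real.exp (-(lam x) * (3 / 2)) : ℝ) : ℂ) := by
        intro x
        rw [hF]
        push_cast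
        rfl
      simp_rw [h3]
      rw [← Complex.ofReal_tsum, Complex.ofReal_re]
      exact tsum_nonneg fun x => mul_nonneg (div_nonneg (hb x) (by positivity)) (Real.exp_pos _).le
    have h4 : 1 ≤ Real.exp (∑' x, F x (3 / 2)).re := Real.one_le_exp h2
    linarith
  have hZc0 : Z (3 / 2) ≠ 0 := by
    intro h
    rw [h, norm_zero] at hZc
    linarith
  have key := landau_re (f := Z) (c := 3 / 2) (r := 11 / 10) (r1 := 4 / 5) (r2 := 1 / 2) (R := 6 / 5)
    (M := Real.exp M) (a := 1) (z := s) (by norm_num) (by norm_num) (by norm_num) (by norm_num)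
    (by norm_num) (Real.one_le_exp (by linarith))
    (by
      have h := hgeo (3 / 2) (mem_closedBall_self (by norm_num))
      exact hZM _ h.1 h.2)
    (fun z hz => hana z (hgeo z hz).1) hZc0 (fun z hz => hZM z (hgeo z hz).1 (hgeo z hz).2)
    (by
      rw [mem_closedBall, dist_eq_norm, hs]
      have : (((1 + η : ℝ) : ℂ) - 3 / 2) = ((η - 1 / 2 : ℝ) : ℂ) := by push_cast; ring
      rw [this, Complex.norm_real, Real.norm_eq_abs, abs_le]
      constructor <;> linarith)
    (by rw [hs1]; linarith)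
    (by
      intro ρ _ h0
      by_contra hcon
      push Not at hcon
      rw [hZ' ρ hcon] at h0
      rcases mul_eq_zero.1 h0 with h1 | h1
      · have : ρ = 1 := by linear_combination h1
        rw [this] at hcon
        simp at hcon
      · exact Complex.exp_ne_zero _ h1)
  rw [hre, ← hL1, ← hL2] at key
  have hfc : 0 < ‖Z (3 / 2)‖ := by linarith
  have hlogM : Real.log (Real.exp M / ‖Z (3 / 2)‖) ≤ 2 * M := by
    rw [Real.log_div (Real.exp_pos M).ne' hfc.ne', Real.log_exp]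
    have h1 : Real.log (1 / 2) ≤ Real.log ‖Z (3 / 2)‖ := Real.log_le_log (by norm_num) hZc
    have h2 : Real.log (1 / 2) = -Real.log 2 := by rw [one_div, Real.log_inv]
    have h3 : Real.log 2 ≤ 1 := by
      have := Real.log_le_sub_one_of_pos (show (0 : ℝ) < 2 by norm_num)
      linarith
    linarith
  have hfin : 2 * (Real.log (Real.exp M / ‖Z (3 / 2)‖) + Real.log (Real.exp M / ‖Z (3 / 2)‖) / L1 * L2 + 1) *
      (4 / 5) / (11 / 10 - 4 / 5) / (4 / 5 - 1 / 2) ≤
      2 * (2 + 2 / L1 * L2 + 1) * (4 / 5) / (11 / 10 - 4 / 5) / (4 / 5 - 1 / 2) * M := by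
    have h1 : Real.log (Real.exp M / ‖Z (3 / 2)‖) / L1 * L2 ≤ 2 * M / L1 * L2 := by
      gcongr
    have h2 : Real.log (Real.exp M / ‖Z (3 / 2)‖) + Real.log (Real.exp M / ‖Z (3 / 2)‖) / L1 * L2 + 1 ≤
        (2 + 2 / L1 * L2 + 1) * M := by
      have : 2 * M / L1 * L2 = 2 / L1 * L2 * M := by ring
      nlinarith
    calc 2 * (Real.log (Real.exp M / ‖Z (3 / 2)‖) + Real.log (Real.exp M / ‖Z (3 / 2)‖) / L1 * L2 + 1) *
          (4 / 5) / (11 / 10 - 4 / 5) / (4 / 5 - 1 / 2)
        ≤ 2 * ((2 + 2 / L1 * L2 + 1) * M) * (4 / 5) / (11 / 10 - 4 / 5) / (4 / 5 - 1 / 2) := by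
          have h3 : (0 : ℝ) < 11 / 10 - 4 / 5 := by norm_num
          have h4 : (0 : ℝ) < 4 / 5 - 1 / 2 := by norm_num
          gcongr
      _ = _ := by ring
  linarith

end Pool.Agent.T3h90.WS
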