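import Pool.Agent.T3h90.WS.Stm

/-!
# Task W: Chebyshev and Mertens for prime powers
-/

set_option autoImplicit false

open Complex MeasureTheory

namespace Pool.Agent.T3h90.WS

lemma log_prime_pos (p : Nat.Primes) : 0 < Real.log ((p : ℕ) : ℝ) :=
  Real.log_pos (by exact_mod_cast p.2.one_lt)

lemma lam_pos (x : X) : 0 < lam x := mul_pos (by positivity) (log_prime_pos x.1)

lemma wt_pos (x : X) : 0 < wt x := mul_pos (log_prime_pos x.1) (Real.exp_pos _)

lemma exp_lam (x : X) : Real.exp (lam x) = (((x.1 : ℕ) ^ (x.2 + 1) : ℕ) : ℝ) := by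
  have hp : (0 : ℝ) < ((x.1 : ℕ) : ℝ) := by exact_mod_cast x.1.2.pos
  rw [lam, mul_comm, Real.exp_mul, Real.exp_log hp]
  rw [show ((x.2 : ℝ) + 1) = ((x.2 + 1 : ℕ) : ℝ) by push_cast; ring, Real.rpow_natCast]
  push_cast
  rfl

/-- the constant of a block -/
noncomputable def KB : ℝ := (Real.log 4 + 4) * Real.exp 1

lemma KB_pos : 0 < KB := by
  unfold KB
  have : 0 < Real.log 4 := Real.log_pos (by norm_num)
  positivity

/-- Chebyshev's bound for a block -/
lemma block (s : Finset X) (y : ℝ) (hs : ∀ x ∈ s, y ≤ lam x ∧ lam x ≤ y + 1) :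
    ∑ x ∈ s, wt x ≤ KB := by
  classical
  have h1 : ∀ x ∈ s, wt x ≤ Real.exp (-y) * ArithmeticFunction.vonMangoldt ((x.1 : ℕ) ^ (x.2 + 1)) := by
    intro x hx
    rw [ArithmeticFunction.vonMangoldt_apply_pow (by omega),
      ArithmeticFunction.vonMangoldt_apply_prime x.1.2, wt, mul_comm]
    exact mul_le_mul_of_nonneg_right (Real.exp_le_exp.2 (by linarith [(hs x hx).1])) (log_prime_pos x.1).le
  have hinj : Set.InjOn (fun x : X => ((x.1 : ℕ) ^ (x.2 + 1) : ℕ)) s := by
    intro x _ x' _ hxx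
    have : Nat.Primes.prodNatEquiv x = Nat.Primes.prodNatEquiv x' := Subtype.ext hxx
    exact Nat.Primes.prodNatEquiv.injective this
  have h2 : ∑ x ∈ s, ArithmeticFunction.vonMangoldt ((x.1 : ℕ) ^ (x.2 + 1)) ≤
      Chebyshev.psi (Real.exp (y + 1)) := by
    rw [Chebyshev.psi]
    rw [← Finset.sum_image (f := fun n : ℕ => ArithmeticFunction.vonMangoldt n) hinj]
    refine Finset.sum_le_sum_of_subset_of_nonneg ?_ fun n _ _ => ArithmeticFunction.vonMangoldt_nonneg
    intro n hn
    obtain ⟨x, hx, rfl⟩ := Finset.mem_image.1 hn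
    rw [Finset.mem_Ioc]
    refine ⟨pow_pos x.1.2.pos _, Nat.le_floor ?_⟩
    rw [← exp_lam]
    exact Real.exp_le_exp.2 (hs x hx).2
  have h3 := Chebyshev.psi_le_const_mul_self (Real.exp_pos (y + 1)).le
  calc ∑ x ∈ s, wt x ≤ ∑ x ∈ s, Real.exp (-y) * ArithmeticFunction.vonMangoldt ((x.1 : ℕ) ^ (x.2 + 1)) :=
        Finset.sum_le_sum h1
    _ = Real.exp (-y) * ∑ x ∈ s, ArithmeticFunction.vonMangoldt ((x.1 : ℕ) ^ (x.2 + 1)) := by
        rw [Finset.mul_sum]
    _ ≤ Real.exp (-y) * ((Real.log 4 + 4) * Real.exp (y + 1)) :=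
        mul_le_mul_of_nonneg_left (h2.trans h3) (Real.exp_pos _).le
    _ = KB := by
        rw [KB, show y + 1 = y + 1 from rfl, Real.exp_add, Real.exp_neg]
        have := Real.exp_pos y
        field_simp

/-- sums by blocks -/
lemma blocks {ι : Type*} [DecidableEq ι] (φ : X → ι) (y : ι → ℝ)
    (hφ : ∀ x, y (φ x) ≤ lam x ∧ lam x ≤ y (φ x) + 1)
    (F : X → ℝ) (G : ι → ℝ) (hF : ∀ x, 0 ≤ F x) (hG : ∀ i, 0 ≤ G i) (hFG : ∀ x, F x ≤ G (φ x)) {S : ℝ}
    (hS : ∀ T : Finset ι, ∑ i ∈ T, G i ≤ S) :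
    Summable (fun x => wt x * F x) ∧ ∑' x, wt x * F x ≤ KB * S := by
  have key : ∀ s : Finset X, ∑ x ∈ s, wt x * F x ≤ KB * S := by
    intro s
    calc ∑ x ∈ s, wt x * F x ≤ ∑ x ∈ s, wt x * G (φ x) :=
          Finset.sum_le_sum fun x _ => mul_le_mul_of_nonneg_left (hFG x) (wt_pos x).le
      _ = ∑ i ∈ s.image φ, ∑ x ∈ s with φ x = i, wt x * G (φ x) :=
          (Finset.sum_fiberwise_of_maps_to (fun x hx => Finset.mem_image_of_mem φ hx) _).symm
      _ ≤ ∑ i ∈ s.image φ, KB * G i := by
          refine Finset.sum_le_sum fun i _ => ?_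
          have h1 : ∑ x ∈ s with φ x = i, wt x * G (φ x) = (∑ x ∈ s with φ x = i, wt x) * G i := by
            rw [Finset.sum_mul]
            refine Finset.sum_congr rfl fun x hx => ?_
            rw [(Finset.mem_filter.1 hx).2]
          rw [h1]
          refine mul_le_mul_of_nonneg_right (block _ (y i) fun x hx => ?_) (hG i)
          have := hφ x
          rwa [(Finset.mem_filter.1 hx).2] at this
      _ = KB * ∑ i ∈ s.image φ, G i := by rw [Finset.mul_sum]
      _ ≤ KB * S := mul_le_mul_of_nonneg_left (hS _) KB_pos.le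
  have hnn : ∀ x, 0 ≤ wt x * F x := fun x => mul_nonneg (wt_pos x).le (hF x)
  have hsum : Summable (fun x => wt x * F x) := summable_of_sum_le hnn key
  exact ⟨hsum, hsum.tsum_le_of_sum_le key⟩

theorem t_W : S_W := by
  classical
  have hZ : Summable (fun i : ℤ => 1 / (1 + (i : ℝ) ^ 2)) := by
    have h1 : Summable (fun i : ℤ => 1 / (i : ℝ) ^ 2) :=
      Real.summable_one_div_int_pow.2 (by norm_num)
    have h2 : Summable (fun i : ℤ => (if i = 0 then (1 : ℝ) else 0) + 1 / (i : ℝ) ^ 2) := by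
      refine Summable.add ?_ h1
      exact summable_of_ne_finset_zero (s := {0}) fun i hi => by
        rw [if_neg]; simpa using hi
    refine Summable.of_nonneg_of_le (fun i => by positivity) (fun i => ?_) h2
    by_cases hi : i = 0
    · subst hi; simp
    · rw [if_neg hi, zero_add]
      have : (0 : ℝ) < (i : ℝ) ^ 2 := by positivity
      exact one_div_le_one_div_of_le this (by linarith)
  set S0 : ℝ := ∑' i : ℤ, 1 / (1 + (i : ℝ) ^ 2) with hS0
  have hS00 : 0 ≤ S0 := tsum_nonneg fun i => by positivity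
  refine ⟨KB * (8 * S0) + KB * 2, ?_, ?_, ?_⟩
  · have := KB_pos
    positivity
  · intro u
    have key := blocks (fun x => ⌊lam x⌋) (fun i : ℤ => (i : ℝ))
      (fun x => ⟨Int.floor_le _, (Int.lt_floor_add_one _).le⟩)
      (fun x => Real.exp (-(lam x - u) ^ 2 / 4)) (fun i : ℤ => 8 * (1 / (1 + ((i - ⌊u⌋ : ℤ) : ℝ) ^ 2)))
      (fun x => (Real.exp_pos _).le) (fun i => by positivity)
      (fun x => by
        have h1 : Real.exp (-(lam x - u) ^ 2 / 4) ≤ 1 / (1 + (lam x - u) ^ 2 / 4) := by
          rw [le_div_iff₀ (by positivity)]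
          have h2 := Real.add_one_le_exp ((lam x - u) ^ 2 / 4)
          have h3 : Real.exp (-(lam x - u) ^ 2 / 4) * Real.exp ((lam x - u) ^ 2 / 4) = 1 := by
            rw [← Real.exp_add]
            simp [neg_div]
          calc Real.exp (-(lam x - u) ^ 2 / 4) * (1 + (lam x - u) ^ 2 / 4)
              ≤ Real.exp (-(lam x - u) ^ 2 / 4) * Real.exp ((lam x - u) ^ 2 / 4) :=
                mul_le_mul_of_nonneg_left (by linarith) (Real.exp_pos _).le
            _ = 1 := h3
        refine h1.trans ?_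
        rw [mul_one_div, div_le_div_iff₀ (by positivity) (by positivity)]
        have e1 := Int.floor_le (lam x)
        have e2 := Int.lt_floor_add_one (lam x)
        have e3 := Int.floor_le u
        have e4 := Int.lt_floor_add_one u
        push_cast
        set A : ℝ := (⌊lam x⌋ : ℝ) - (⌊u⌋ : ℝ) with hA
        set B : ℝ := lam x - u with hB
        have h5 : |A - B| ≤ 1 := by rw [abs_le]; constructor <;> linarith
        have h6 : (A - B) ^ 2 ≤ 1 := by
          rw [← sq_abs]
          exact pow_le_one₀ (abs_nonneg _) h5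
        nlinarith [sq_nonneg (A - 2 * B)])
      (S := 8 * S0) (fun T => by
        have h1 : Summable (fun i : ℤ => 8 * (1 / (1 + ((i - ⌊u⌋ : ℤ) : ℝ) ^ 2))) :=
          ((Equiv.subRight ⌊u⌋).summable_iff.2 hZ).mul_left 8
        refine (h1.sum_le_tsum T fun i _ => by positivity).trans (le_of_eq ?_)
        rw [tsum_mul_left, hS0]
        congr 1
        exact (Equiv.subRight ⌊u⌋).tsum_eq (fun i : ℤ => 1 / (1 + (i : ℝ) ^ 2)))
    refine ⟨key.1, key.2.trans ?_⟩
    have := KB_pos
    linarith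
  · intro η hη hη1
    have key := blocks (fun x => ⌊lam x⌋₊) (fun i : ℕ => (i : ℝ))
      (fun x => ⟨Nat.floor_le (lam_pos x).le, (Nat.lt_floor_add_one _).le⟩)
      (fun x => Real.exp (-(η * lam x))) (fun i : ℕ => Real.exp (-η) ^ i)
      (fun x => (Real.exp_pos _).le) (fun i => by positivity)
      (fun x => by
        rw [← Real.exp_nat_mul]
        apply Real.exp_le_exp.2
        have := Nat.floor_le (lam_pos x).le
        nlinarith)
      (S := 2 / η) (fun T => by
        have hr : Real.exp (-η) < 1 := by rw [Real.exp_lt_one_iff]; linarith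
        have h1 := summable_geometric_of_lt_one (Real.exp_pos (-η)).le hr
        refine (h1.sum_le_tsum T fun i _ => by positivity).trans ?_
        rw [tsum_geometric_of_lt_one (Real.exp_pos (-η)).le hr, ← one_div,
          div_le_div_iff₀ (by linarith) hη]
        have h2 : Real.exp (-η) ≤ 1 - η + η ^ 2 / 2 := by
          have h3 := Real.quadratic_le_exp_of_nonneg hη.le
          have h4 : Real.exp (-η) * Real.exp η = 1 := by rw [← Real.exp_add]; simp
          have h5 := Real.exp_pos (-η)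
          have h6 : Real.exp (-η) * (1 + η + η ^ 2 / 2) ≤ 1 := by
            exact (mul_le_mul_of_nonneg_left h3 h5.le).trans_eq h4
          have h7 : (1 : ℝ) ≤ (1 - η + η ^ 2 / 2) * (1 + η + η ^ 2 / 2) := by
            nlinarith [sq_nonneg (η ^ 2)]
          by_contra hcon
          push Not at hcon
          have h8 : 0 < 1 + η + η ^ 2 / 2 := by positivity
          have := mul_lt_mul_of_pos_right hcon h8
          linarith
        nlinarith)
    refine ⟨key.1, key.2.trans ?_⟩
    have h1 : 0 ≤ KB * (8 * S0) / η := by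
      have := KB_pos
      positivity
    calc KB * (2 / η) = KB * 2 / η := by ring
      _ ≤ KB * (8 * S0) / η + KB * 2 / η := by linarith
      _ = _ := by ring

end Pool.Agent.T3h90.WS
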