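import Pool.Agent.T3h90.WS.Defs
import Pool.Agent.T3h90.WS.Gam
import Pool.Agent.T3h90.WS.EUL
import Pool.Agent.T3h90.WS.LAN
import Pool.Agent.T3h90.WS.W

/-!
# Project WS: cuspidal representations satisfy the hypotheses of the analytic part (task CONV)
-/

set_option autoImplicit false

open Complex MeasureTheory Set Filter Topology
open scoped ComplexConjugate

namespace Pool.Agent.T3h90.WS

namespace ConvAux

open H353.E Gam

variable {m : ℕ} {A : ℝ}

/-- the saving in the bound for the Satake parameters -/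
noncomputable def th (m : ℕ) : ℝ := 1 / ((m : ℝ) ^ 2 + 1)

lemma th_pos (m : ℕ) : 0 < th m := by unfold th; positivity

lemma th_le {m : ℕ} (hm : 1 ≤ m) : th m ≤ 1 / 2 := by
  unfold th
  have : (1 : ℝ) ≤ m := by exact_mod_cast hm
  rw [div_le_div_iff₀ (by positivity) (by norm_num)]
  nlinarith

lemma norm_av_le (π : Cusp m A) (x : X) : ‖av π.α x‖ ≤ m * Real.exp ((1 / 2 - th m) * lam x) := by
  unfold av
  refine (norm_sum_le _ _).trans ?_
  have h1 : ∀ j ∈ Finset.univ, ‖π.α j (x.1 : ℕ) ^ (x.2 + 1)‖ ≤ Real.exp ((1 / 2 - th m) * lam x) := by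
    intro j _
    have h2 := π.norm_le j x.1 x.1.2
    have hp : (0 : ℝ) < (x.1 : ℕ) := by exact_mod_cast x.1.2.pos
    rw [Real.rpow_def_of_pos hp] at h2
    rw [norm_pow]
    refine (pow_le_pow_left₀ (norm_nonneg _) h2 _).trans (le_of_eq ?_)
    rw [← Real.exp_nat_mul]
    congr 1
    unfold lam th
    push_cast
    ring
  refine (Finset.sum_le_sum h1).trans (le_of_eq ?_)
  simp

lemma ts_le {KW : ℝ} (hW : W1 KW) (hm : 1 ≤ m) (π : Cusp m A) :
    TS (cc (av π.α)) (3 / 2 - th m / 2) ≤ 4 * m * KW / th m := by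
  have hth := th_pos m
  have hth2 := th_le hm
  obtain ⟨h1, h2⟩ := hW (th m / 2) (by positivity) (by linarith)
  unfold TS
  have h3 : ∀ x : X, ‖cc (av π.α) x‖ * Real.exp (-((3 / 2 - th m / 2) * lam x)) ≤
      2 * m * (wt x * Real.exp (-(th m / 2 * lam x))) := by
    intro x
    have hl := half_le_lam x
    have ha := norm_av_le π x
    have e : Real.exp (-((3 / 2 - th m / 2) * lam x)) =
        Real.exp (-lam x) * Real.exp (-((1 / 2 - th m / 2) * lam x)) := by
      rw [← Real.exp_add]; congr 1; ring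
    rw [e, ← mul_assoc, cc_wt]
    have hw := wt_pos x
    have hq : 0 ≤ wt x * ‖av π.α x‖ := by positivity
    calc wt x * ‖av π.α x‖ / lam x * Real.exp (-((1 / 2 - th m / 2) * lam x))
        ≤ wt x * (m * Real.exp ((1 / 2 - th m) * lam x)) * 2 * Real.exp (-((1 / 2 - th m / 2) * lam x)) := by
          apply mul_le_mul_of_nonneg_right _ (Real.exp_pos _).le
          rw [div_le_iff₀ (by linarith)]
          have h4 : wt x * ‖av π.α x‖ ≤ wt x * (m * Real.exp ((1 / 2 - th m) * lam x)) :=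
            mul_le_mul_of_nonneg_left ha hw.le
          nlinarith
      _ = 2 * m * (wt x * (Real.exp ((1 / 2 - th m) * lam x) * Real.exp (-((1 / 2 - th m / 2) * lam x)))) := by
          ring
      _ = _ := by
          rw [← Real.exp_add]
          congr 3
          ring
  have h4 : ∑' x, ‖cc (av π.α) x‖ * Real.exp (-((3 / 2 - th m / 2) * lam x)) ≤
      ∑' x, 2 * m * (wt x * Real.exp (-(th m / 2 * lam x))) :=
    Summable.tsum_le_tsum h3 ((h1.mul_left (2 * (m : ℝ))).of_nonneg_of_le (fun x => by positivity) h3)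
      (h1.mul_left _)
  rw [tsum_mul_left] at h4
  refine h4.trans ((mul_le_mul_of_nonneg_left h2 (by positivity)).trans (le_of_eq ?_))
  field_simp
  ring

lemma sum_log_le (N : ℕ) (hN : N ≠ 0) (P : Finset Nat.Primes) :
    ∑ p ∈ P, (if (p : ℕ) ∣ N then Real.log (p : ℕ) else 0) ≤ Real.log N := by
  classical
  rw [← Finset.sum_filter]
  have h1 : ∑ p ∈ P.filter (fun p : Nat.Primes => (p : ℕ) ∣ N), Real.log (p : ℕ) =
      ∑ q ∈ (P.filter (fun p : Nat.Primes => (p : ℕ) ∣ N)).image (fun p : Nat.Primes => (p : ℕ)),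
        Real.log q :=
    (Finset.sum_image (f := fun q : ℕ => Real.log q) fun a _ b _ h => Nat.Primes.coe_nat_injective h).symm
  rw [h1]
  have h2 : (P.filter (fun p : Nat.Primes => (p : ℕ) ∣ N)).image (fun p : Nat.Primes => (p : ℕ)) ⊆
      N.primeFactors := by
    intro q hq
    rw [Finset.mem_image] at hq
    obtain ⟨p, hp, rfl⟩ := hq
    exact Nat.mem_primeFactors.2 ⟨p.2, (Finset.mem_filter.1 hp).2, hN⟩
  refine (Finset.sum_le_sum_of_subset_of_nonneg h2 fun q hq _ =>
    Real.log_nonneg (by exact_mod_cast (Nat.mem_primeFactors.1 hq).1.one_lt.le)).trans ?_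
  rw [← Real.log_prod fun q hq => by
    have := (Nat.mem_primeFactors.1 hq).1.pos
    positivity]
  have h3 : (∏ q ∈ N.primeFactors, (q : ℝ)) = ((∏ q ∈ N.primeFactors, q : ℕ) : ℝ) := by push_cast; rfl
  rw [h3]
  have h4 : 0 < ∏ q ∈ N.primeFactors, q :=
    Finset.prod_pos fun q hq => (Nat.mem_primeFactors.1 hq).1.pos
  exact Real.log_le_log (by exact_mod_cast h4)
    (by exact_mod_cast Nat.le_of_dvd (Nat.pos_of_ne_zero hN) (Nat.prod_primeFactors_dvd N))

/-- the terms with `p ∣ N` -/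
noncomputable def bt (m N : ℕ) (x : X) : ℝ :=
  if (x.1 : ℕ) ∣ N then Real.log (x.1 : ℕ) * Real.exp (-(2 * th m * lam x)) else 0

lemma bt_nonneg (m N : ℕ) (x : X) : 0 ≤ bt m N x := by
  unfold bt
  have := log_pos x
  split_ifs <;> positivity

lemma expl1 {x : ℝ} (h : x < 0) : Real.exp x < 1 := by
  rw [← Real.exp_zero]
  exact Real.exp_lt_exp.2 h

/-- the constant -/
noncomputable def c2 (m : ℕ) : ℝ := (1 - Real.exp (-(2 * th m * Real.log 2)))⁻¹

lemma c2_pos (m : ℕ) : 0 < c2 m := by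
  unfold c2
  have hth := th_pos m
  have hl : 0 < Real.log 2 := Real.log_pos (by norm_num)
  have : Real.exp (-(2 * th m * Real.log 2)) < 1 := expl1 (by
    have : 0 < 2 * th m * Real.log 2 := by positivity
    linarith)
  have h2 : 0 < 1 - Real.exp (-(2 * th m * Real.log 2)) := by linarith
  positivity

lemma geom_le (m : ℕ) (p : Nat.Primes) (n : ℕ) :
    ∑ k ∈ Finset.range n, Real.exp (-(2 * th m * lam (p, k))) ≤ c2 m := by
  have hth := th_pos m
  have hl : 0 < Real.log 2 := Real.log_pos (by norm_num)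
  have hlp : Real.log 2 ≤ Real.log (p : ℕ) := log_two_le (p, 0)
  obtain ⟨r, hr⟩ : ∃ r : ℝ, r = Real.exp (-(2 * th m * Real.log 2)) := ⟨_, rfl⟩
  have hr0 : 0 < r := by rw [hr]; positivity
  have hr1 : r < 1 := by
    rw [hr]
    exact expl1 (by
      have : 0 < 2 * th m * Real.log 2 := by positivity
      linarith)
  have h1 : ∀ k, Real.exp (-(2 * th m * lam (p, k))) ≤ r ^ k := by
    intro k
    rw [hr, ← Real.exp_nat_mul]
    apply Real.exp_le_exp.2
    unfold lam
    simp only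
    have hk : (0 : ℝ) ≤ k := Nat.cast_nonneg k
    have h2 : (k : ℝ) * Real.log 2 ≤ (k + 1) * Real.log (p : ℕ) := by nlinarith
    nlinarith [mul_le_mul_of_nonneg_left h2 hth.le]
  refine (Finset.sum_le_sum fun k _ => h1 k).trans ?_
  unfold c2
  rw [← hr]
  have h2 := (summable_geometric_of_lt_one hr0.le hr1).sum_le_tsum (Finset.range n) (fun k _ => by positivity)
  rwa [tsum_geometric_of_lt_one hr0.le hr1] at h2

lemma bt_sum_le (m N : ℕ) (hN : N ≠ 0) (S : Finset X) : ∑ x ∈ S, bt m N x ≤ c2 m * Real.log N := by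
  classical
  obtain ⟨n, hn⟩ : ∃ n : ℕ, ∀ x ∈ S, x.2 < n := by
    refine ⟨(S.sup fun x => x.2) + 1, fun x hx => ?_⟩
    exact Nat.lt_succ_of_le (Finset.le_sup (f := fun x : X => x.2) hx)
  have h1 : S ⊆ (S.image Prod.fst) ×ˢ Finset.range n := fun x hx =>
    Finset.mem_product.2 ⟨Finset.mem_image_of_mem _ hx, Finset.mem_range.2 (hn x hx)⟩
  refine (Finset.sum_le_sum_of_subset_of_nonneg h1 fun x _ _ => bt_nonneg m N x).trans ?_
  rw [Finset.sum_product]
  have hc := c2_pos m
  calc ∑ p ∈ S.image Prod.fst, ∑ k ∈ Finset.range n, bt m N (p, k)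
      ≤ ∑ p ∈ S.image Prod.fst, c2 m * (if (p : ℕ) ∣ N then Real.log (p : ℕ) else 0) := by
        refine Finset.sum_le_sum fun p _ => ?_
        unfold bt
        simp only
        by_cases hp : (p : ℕ) ∣ N
        · simp only [hp, if_true]
          rw [← Finset.mul_sum, mul_comm (c2 m)]
          exact mul_le_mul_of_nonneg_left (geom_le m p n) (log_pos (p, 0)).le
        · simp only [hp, if_false]
          simp
    _ = c2 m * ∑ p ∈ S.image Prod.fst, (if (p : ℕ) ∣ N then Real.log (p : ℕ) else 0) := by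
        rw [Finset.mul_sum]
    _ ≤ _ := mul_le_mul_of_nonneg_left (sum_log_le N hN _) hc.le

lemma bt_summable (m N : ℕ) (hN : N ≠ 0) : Summable (bt m N) :=
  summable_of_sum_le (bt_nonneg m N) (bt_sum_le m N hN)

lemma bt_tsum_le (m N : ℕ) (hN : N ≠ 0) : ∑' x, bt m N x ≤ c2 m * Real.log N :=
  (bt_summable m N hN).tsum_le_of_sum_le (bt_sum_le m N hN)

lemma one_le_N (π : Cusp m A) : (1 : ℝ) ≤ π.N := by
  exact_mod_cast Nat.one_le_iff_ne_zero.2 π.N_ne

lemma C_le (hm : 1 ≤ m) (π : Cusp m A) (t : ℝ) : Real.log π.C ≤ (m + 2) * Real.log (π.Ct t) ∧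
    0 ≤ Real.log π.C := by
  have hN := one_le_N π
  have h := (cnd_norm hN π.μ hm π.normalised t).1
  have h1 : 1 ≤ ∏ j, (1 + ‖π.μ j‖) := by
    refine Finset.prod_induction _ (fun x => (1 : ℝ) ≤ x) (fun a b ha hb => ?_) le_rfl fun j _ => ?_
    · nlinarith
    · linarith [norm_nonneg (π.μ j)]
  have hC : 1 ≤ π.C := by unfold Cusp.C; nlinarith
  refine ⟨?_, Real.log_nonneg hC⟩
  refine le_trans ?_ h
  apply Real.log_le_log (by linarith)
  have := abs_nonneg t
  show π.C ≤ (1 + |t|) * π.C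
  nlinarith

lemma Ct_eq (π : Cusp m A) (t : ℝ) : π.Ct t = cnd π.N π.μ t := rfl

lemma rs_aux (m : ℕ) (A : ℝ) (hm : 1 ≤ m) : ∃ B1 : ℝ, 0 < B1 ∧ ∀ (π : Cusp m A) (t η : ℝ), 0 < η → η ≤ 1 →
    Summable (fun x => wt x * ‖av π.α x‖ ^ 2 * Real.exp (-(η * lam x))) ∧
    ∑' x, wt x * ‖av π.α x‖ ^ 2 * Real.exp (-(η * lam x)) ≤ B1 * (1 / η + (1 + Real.log (π.Ct t))) := by
  obtain ⟨KL, hKL, hLAN⟩ := t_LAN
  have hc := c2_pos m
  refine ⟨1 + KL * ((1 + |A|) * (m + 3)) + m ^ 2 * c2 m, by positivity, fun π t η hη hη1 => ?_⟩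
  have hN := one_le_N π
  obtain ⟨hC1, hC0⟩ := C_le hm π t
  have hCt : 1 ≤ π.Ct t := cnd_pos hN π.μ t
  have hlt : 0 ≤ Real.log (π.Ct t) := Real.log_nonneg hCt
  have hNt : Real.log π.N ≤ Real.log (π.Ct t) := Real.log_le_log (by linarith) (le_cnd hN π.μ t)
  have hCpos : 0 < π.C := by
    unfold Cusp.C
    have : 0 < ∏ j, (1 + ‖π.μ j‖) := Finset.prod_pos fun j _ => by positivity
    positivity
  obtain ⟨M, hM⟩ : ∃ M : ℝ, M = 1 + |A| * Real.log (2 * π.C) := ⟨_, rfl⟩
  have hl2 : Real.log (2 * π.C) = Real.log 2 + Real.log π.C := Real.log_mul (by norm_num) hCpos.ne'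
  have hlog2 : 0 < Real.log 2 := Real.log_pos (by norm_num)
  have hlog2' : Real.log 2 ≤ 1 := by
    have := Real.log_le_sub_one_of_pos (show (0 : ℝ) < 2 by norm_num)
    linarith
  have hA := abs_nonneg A
  have hM1 : 1 ≤ M := by
    rw [hM, hl2]
    have : 0 ≤ |A| * (Real.log 2 + Real.log π.C) := by positivity
    linarith
  have hML : M ≤ (1 + |A|) * (m + 3) * (1 + Real.log (π.Ct t)) := by
    rw [hM, hl2]
    have h1 : Real.log 2 + Real.log π.C ≤ (m + 3) * (1 + Real.log (π.Ct t)) := by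
      have : (0 : ℝ) ≤ m := Nat.cast_nonneg m
      nlinarith
    have h2 := mul_le_mul_of_nonneg_left h1 hA
    have h3 : 1 ≤ ((m : ℝ) + 3) * (1 + Real.log (π.Ct t)) := by
      have : (0 : ℝ) ≤ m := Nat.cast_nonneg m
      nlinarith
    nlinarith
  obtain ⟨h1, h2⟩ := hLAN π.Z π.b M hM1 π.b_nonneg π.b_conv π.rs π.Z_diff (fun s hs hs4 => by
    refine (π.Z_le s hs hs4).trans ?_
    show (2 * π.C) ^ A ≤ _
    rw [Real.rpow_def_of_pos (by positivity)]
    apply Real.exp_le_exp.2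
    rw [hM]
    have h0 : 0 ≤ Real.log (2 * π.C) := by rw [hl2]; positivity
    nlinarith [mul_le_mul_of_nonneg_left (le_abs_self A) h0]) η hη hη1
  have hle : ∀ x, wt x * ‖av π.α x‖ ^ 2 * Real.exp (-(η * lam x)) ≤
      wt x * π.b x * Real.exp (-(η * lam x)) + m ^ 2 * bt m π.N x := by
    intro x
    have hw := wt_pos x
    have hb := π.b_nonneg x
    by_cases hp : (x.1 : ℕ) ∣ π.N
    · have h3 : ‖av π.α x‖ ^ 2 ≤ (m * Real.exp ((1 / 2 - th m) * lam x)) ^ 2 :=
        pow_le_pow_left₀ (norm_nonneg _) (norm_av_le π x) 2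
      have h4 : wt x * ‖av π.α x‖ ^ 2 * Real.exp (-(η * lam x)) ≤ m ^ 2 * bt m π.N x := by
        unfold bt
        rw [if_pos hp]
        have hl := lam_pos x
        have h5 : Real.exp (-(η * lam x)) ≤ 1 := Real.exp_le_one_iff.2 (by
          have : 0 ≤ η * lam x := by positivity
          linarith)
        calc wt x * ‖av π.α x‖ ^ 2 * Real.exp (-(η * lam x))
            ≤ wt x * (m * Real.exp ((1 / 2 - th m) * lam x)) ^ 2 * 1 := by gcongr
          _ = m ^ 2 * (Real.log (x.1 : ℕ) * (Real.exp (-lam x) * (Real.exp ((1 / 2 - th m) * lam x) *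
              Real.exp ((1 / 2 - th m) * lam x)))) := by
              unfold wt
              ring
          _ = _ := by
              rw [← Real.exp_add, ← Real.exp_add]
              congr 3
              ring
      have h5 : 0 ≤ wt x * π.b x * Real.exp (-(η * lam x)) := by positivity
      linarith
    · have hbe : ‖av π.α x‖ ^ 2 = π.b x := (π.b_eq x hp).symm
      rw [hbe]
      have := bt_nonneg m π.N x
      have h6 : (0 : ℝ) ≤ m ^ 2 * bt m π.N x := by positivity
      linarith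
  have hs : Summable (fun x => wt x * π.b x * Real.exp (-(η * lam x)) + m ^ 2 * bt m π.N x) :=
    h1.add ((bt_summable m π.N π.N_ne).mul_left _)
  have hs2 : Summable (fun x => wt x * ‖av π.α x‖ ^ 2 * Real.exp (-(η * lam x))) :=
    hs.of_nonneg_of_le (fun x => by have := wt_pos x; positivity) hle
  refine ⟨hs2, (hs2.tsum_le_tsum hle hs).trans ?_⟩
  rw [h1.tsum_add ((bt_summable m π.N π.N_ne).mul_left _), tsum_mul_left]
  have h7 := bt_tsum_le m π.N π.N_ne
  have h8 : (m : ℝ) ^ 2 * ∑' x, bt m π.N x ≤ m ^ 2 * (c2 m * (1 + Real.log (π.Ct t))) := by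
    apply mul_le_mul_of_nonneg_left _ (by positivity)
    exact h7.trans (mul_le_mul_of_nonneg_left (by linarith) hc.le)
  have h9 : KL * M ≤ KL * ((1 + |A|) * (m + 3) * (1 + Real.log (π.Ct t))) :=
    mul_le_mul_of_nonneg_left hML hKL.le
  have h10 : 0 ≤ (KL * ((1 + |A|) * (m + 3)) + m ^ 2 * c2 m) * (1 / η) := by positivity
  nlinarith

/-- absolute convergence in `Re s > 1` -/
lemma sm_aux {KW : ℝ} (hW : W1 KW) (π : Cusp m A) (hrs : ∀ η : ℝ, 0 < η → η ≤ 1 →
    Summable (fun x => wt x * ‖av π.α x‖ ^ 2 * Real.exp (-(η * lam x)))) : Abs1 (cc (av π.α)) := by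
  have key : ∀ η : ℝ, 0 < η → η ≤ 1 → Summable (fun x => ‖cc (av π.α) x‖ * Real.exp (-((1 + η) * lam x))) := by
    intro η hη hη1
    have h1 := hrs η hη hη1
    have h2 := (hW η hη hη1).1
    refine Summable.of_nonneg_of_le (fun x => by positivity) (fun x => ?_) ((h1.add h2).mul_left 2)
    have hl := half_le_lam x
    have hw := wt_pos x
    have e : Real.exp (-((1 + η) * lam x)) = Real.exp (-lam x) * Real.exp (-(η * lam x)) := by
      rw [← Real.exp_add]; congr 1; ring
    rw [e, ← mul_assoc, cc_wt]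
    have ha := norm_nonneg (av π.α x)
    have h3 : wt x * ‖av π.α x‖ / lam x ≤ 2 * (wt x * ‖av π.α x‖ ^ 2 + wt x) := by
      rw [div_le_iff₀ (by linarith)]
      have h4 : ‖av π.α x‖ ≤ ‖av π.α x‖ ^ 2 + 1 := by nlinarith [sq_nonneg (‖av π.α x‖ - 1)]
      have h5 : wt x * ‖av π.α x‖ ≤ wt x * ‖av π.α x‖ ^ 2 + wt x := by nlinarith
      have h6 : 0 ≤ wt x * ‖av π.α x‖ ^ 2 + wt x := by positivity
      nlinarith
    calc _ ≤ 2 * (wt x * ‖av π.α x‖ ^ 2 + wt x) * Real.exp (-(η * lam x)) :=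
          mul_le_mul_of_nonneg_right h3 (Real.exp_pos _).le
      _ = _ := by ring
  intro η hη
  rcases le_total η 1 with h | h
  · exact key η hη h
  · refine (key 1 one_pos le_rfl).of_nonneg_of_le (fun x => by positivity) fun x => ?_
    apply mul_le_mul_of_nonneg_left _ (norm_nonneg _)
    apply Real.exp_le_exp.2
    have := lam_pos x
    nlinarith

lemma DS_diffAt {c : X → ℂ} (h : Abs1 c) {z : ℂ} (hz : 1 < z.re) : DifferentiableAt ℂ (DS c) z := by
  obtain ⟨a, ha1, ha2⟩ := exists_between hz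
  have ho : IsOpen {z : ℂ | a < z.re} := isOpen_lt continuous_const Complex.continuous_re
  have hsum : Summable (fun x => ‖c x‖ * Real.exp (-(a * lam x))) := h.at ha1
  have hd : DifferentiableOn ℂ (fun z => ∑' x, c x * cexp (-(lam x : ℂ) * z)) {z : ℂ | a < z.re} := by
    refine differentiableOn_tsum_of_summable_norm hsum (fun x => ?_) ho (fun x z hz => ?_)
    · fun_prop
    · rw [norm_mul, norm_ex]
      apply mul_le_mul_of_nonneg_left _ (norm_nonneg _)
      apply Real.exp_le_exp.2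
      have := lam_pos x
      have hz' : a < z.re := hz
      nlinarith
  exact hd.differentiableAt (ho.mem_nhds ha2)

lemma L_diff (π : Cusp m A) : Differentiable ℂ π.L := by
  unfold Cusp.L
  refine π.entire.mul (Differentiable.fun_finsetProd fun j _ => ?_)
  exact Complex.differentiable_Gammaℝ_inv.comp (differentiable_id.sub_const (π.μ j))

lemma eul32 (π : Cusp m A) {s : ℂ} (hs : 3 / 2 < s.re) : π.L s = cexp (DS (cc (av π.α)) s) := by
  have hα : ∀ j, ∀ p : ℕ, p.Prime → ‖π.α j p‖ ≤ Real.sqrt p := by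
    intro j p hp
    refine (π.norm_le j p hp).trans ?_
    rw [Real.sqrt_eq_rpow]
    have := th_pos m
    unfold th at this
    exact Real.rpow_le_rpow_of_exponent_le (by exact_mod_cast hp.one_lt.le) (by linarith)
  have h1 := (t_EUL m π.α hα s hs).2
  unfold Cusp.L
  rw [π.euler s hs]
  have h2 : ∏ j, Gammaℝ (s - π.μ j) ≠ 0 := Finset.prod_ne_zero_iff.mpr fun j _ =>
    Gammaℝ_ne_zero_of_re_pos (by rw [sub_re]; linarith [π.re_le j])
  have h3 : DS (cc (av π.α)) s = ∑' x : X, av π.α x / ((x.2 : ℂ) + 1) * cexp (-(lam x : ℂ) * s) := rfl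
  rw [h3, ← h1, Finset.prod_inv_distrib, mul_comm (∏ j, Gammaℝ (s - π.μ j)), mul_assoc, mul_inv_cancel₀ h2,
    mul_one]

lemma eul1 (π : Cusp m A) (h : Abs1 (cc (av π.α))) {s : ℂ} (hs : 1 < s.re) :
    π.L s = cexp (DS (cc (av π.α)) s) := by
  have ho : IsOpen {z : ℂ | 1 < z.re} := isOpen_lt continuous_const Complex.continuous_re
  have h1 : AnalyticOnNhd ℂ π.L {z : ℂ | 1 < z.re} := (L_diff π).differentiableOn.analyticOnNhd ho
  have h2 : AnalyticOnNhd ℂ (fun z => cexp (DS (cc (av π.α)) z)) {z : ℂ | 1 < z.re} := by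
    refine DifferentiableOn.analyticOnNhd (fun z hz => ?_) ho
    exact (DS_diffAt h hz).cexp.differentiableWithinAt
  have hc : IsPreconnected {z : ℂ | 1 < z.re} := (convex_halfSpace_re_gt 1).isPreconnected
  have h3 : π.L =ᶠ[𝓝 (2 : ℂ)] fun z => cexp (DS (cc (av π.α)) z) := by
    have ho2 : IsOpen {z : ℂ | 3 / 2 < z.re} := isOpen_lt continuous_const Complex.continuous_re
    have h4 : (2 : ℂ) ∈ {z : ℂ | 3 / 2 < z.re} := by simp; norm_num
    filter_upwards [ho2.mem_nhds h4] with z hz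
    exact eul32 π hz
  exact h1.eqOn_of_preconnected_of_eventuallyEq h2 hc (z₀ := 2) (by simp) h3 hs

/-- the completed function -/
noncomputable def xi (π : Cusp m A) (s : ℂ) : ℂ := ((π.N : ℝ) : ℂ) ^ (s / 2) * π.Λ s

lemma N_pos (π : Cusp m A) : (0 : ℝ) < π.N := lt_of_lt_of_le one_pos (one_le_N π)

lemma norm_xi (π : Cusp m A) (s : ℂ) : ‖xi π s‖ = (π.N : ℝ) ^ (s.re / 2) * ‖π.Λ s‖ := by
  unfold xi
  rw [norm_mul, Complex.norm_cpow_eq_rpow_re_of_pos (N_pos π)]
  congr 2
  rw [show (2 : ℂ) = ((2 : ℝ) : ℂ) by norm_num, Complex.div_ofReal_re]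

lemma xi_sym (π : Cusp m A) (s : ℂ) : ‖xi π (1 - conj s)‖ = ‖xi π s‖ := by
  rw [norm_xi, norm_xi, π.fe s, norm_mul, norm_mul, π.norm_eq, one_mul, Complex.norm_conj]
  have e1 : ((π.N : ℕ) : ℂ) = ((π.N : ℝ) : ℂ) := by push_cast; rfl
  rw [e1, Complex.norm_cpow_eq_rpow_re_of_pos (N_pos π), ← mul_assoc, ← Real.rpow_add (N_pos π)]
  congr 2
  simp
  ring

lemma L_eq (π : Cusp m A) (s : ℂ) : π.L s = xi π s * (gaf π.N π.μ s)⁻¹ := by
  unfold Cusp.L xi gaf
  have h : ((π.N : ℝ) : ℂ) ^ (s / 2) ≠ 0 := by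
    rw [Ne, Complex.cpow_eq_zero_iff]
    rintro ⟨h, -⟩
    exact (N_pos π).ne' (by exact_mod_cast h)
  rw [mul_inv, ← Finset.prod_inv_distrib]
  field_simp

theorem ld_aux (hm : 1 ≤ m) (π : Cusp m A) (h : Abs1 (cc (av π.α))) :
    LD (326 * m) (xi π) π.L (cc (av π.α))
      (fun y => ‖gaf π.N π.μ (3 / 2 + y * I)‖ * Real.exp (-(gaD π.N π.μ (3 / 2 + y * I)).re))
      (fun y => (gaD π.N π.μ (3 / 2 + y * I)).re) where
  K0 := by positivity
  dξ := by
    unfold xi
    refine Differentiable.mul ?_ π.entire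
    exact (differentiable_id.div_const 2).const_cpow (Or.inl (by exact_mod_cast (N_pos π).ne'))
  sym := xi_sym π
  bdd := by
    intro a b
    obtain ⟨M, hM⟩ := π.bdd a b
    refine ⟨|Real.log π.N * (b / 2)| + M, fun s ha hb => ?_⟩
    rw [norm_xi]
    have h1 : (π.N : ℝ) ^ (s.re / 2) ≤ Real.exp |Real.log π.N * (b / 2)| := by
      rw [Real.rpow_def_of_pos (N_pos π)]
      apply Real.exp_le_exp.2
      refine le_trans ?_ (le_abs_self _)
      exact mul_le_mul_of_nonneg_left (by linarith) (Real.log_nonneg (one_le_N π))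
    calc _ ≤ Real.exp |Real.log π.N * (b / 2)| * Real.exp (M * (1 + |s.im|)) :=
          mul_le_mul h1 (hM s ha hb) (norm_nonneg _) (Real.exp_pos _).le
      _ ≤ _ := by
          rw [← Real.exp_add]
          apply Real.exp_le_exp.2
          have h2 := abs_nonneg (Real.log π.N * (b / 2))
          have h3 := abs_nonneg s.im
          nlinarith
  dL := L_diff π
  sm := h
  eul := fun s hs => eul1 π h hs
  Gpos := by
    intro y
    have gp := gaf_GP hm (one_le_N π) π.re_le
    have := norm_pos_iff.2 (gp.ne (3 / 2 + y * I) (by simp; norm_num))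
    positivity
  up := by
    intro y u hu
    obtain ⟨h1, h2⟩ := gam_up hm (one_le_N π) π.re_le y (ρ := 1 / 4) (by norm_num) (by norm_num) hu
    have h3 : xi π (1 / 2 + y * I + u) = gaf π.N π.μ (1 / 2 + y * I + u) * π.L (1 / 2 + y * I + u) := by
      rw [L_eq, mul_comm (gaf π.N π.μ (1 / 2 + y * I + u)), mul_assoc, inv_mul_cancel₀ h1, mul_one]
    rw [h3, norm_mul]
    apply mul_le_mul_of_nonneg_right _ (norm_nonneg _)
    refine h2.trans (le_of_eq ?_)
    congr 3
    ring
  inv := by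
    intro y u hu
    have h1 := gam_inv hm (one_le_N π) π.re_le y hu
    rw [L_eq, norm_mul, mul_comm]
    apply mul_le_mul_of_nonneg_right _ (norm_nonneg _)
    refine h1.trans ?_
    apply mul_le_mul_of_nonneg_left _ (by positivity)
    apply Real.exp_le_exp.2
    have h2 : 231 * (m : ℝ) * (1 + ‖u‖ ^ 2) ≤ 326 * m * (1 + ‖u‖ ^ 2) := by
      have : (0 : ℝ) ≤ m * (1 + ‖u‖ ^ 2) := by positivity
      nlinarith
    linarith

lemma cnd_move (π : Cusp m A) (t v : ℝ) :
    Real.log (cnd π.N π.μ v) ≤ Real.log (cnd π.N π.μ t) + m * |v - t| := by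
  have hN := one_le_N π
  have h1 : cnd π.N π.μ v ≤ cnd π.N π.μ t * (1 + |v - t|) ^ m := by
    unfold cnd
    have h2 : ∀ j, 1 + ‖(v : ℂ) * I - π.μ j‖ ≤ (1 + ‖(t : ℂ) * I - π.μ j‖) * (1 + |v - t|) := fun j => by
      have e : (v : ℂ) * I - π.μ j = ((t : ℂ) * I - π.μ j) + ((v - t : ℝ) : ℂ) * I := by push_cast; ring
      have h3 := norm_add_le ((t : ℂ) * I - π.μ j) (((v - t : ℝ) : ℂ) * I)
      rw [← e, norm_mul, Complex.norm_I, mul_one, Complex.norm_real, Real.norm_eq_abs] at h3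
      have h4 := norm_nonneg ((t : ℂ) * I - π.μ j)
      have h5 := abs_nonneg (v - t)
      nlinarith
    have h6 := Finset.prod_le_prod (s := (Finset.univ : Finset (Fin m))) (fun j _ => by positivity)
      fun j _ => h2 j
    rw [Finset.prod_mul_distrib, Finset.prod_const, Finset.card_univ, Fintype.card_fin] at h6
    rw [mul_assoc]
    exact mul_le_mul_of_nonneg_left h6 (by linarith)
  have h2 := cnd_pos hN π.μ v
  have h3 := cnd_pos hN π.μ t
  have h4 := Real.log_le_log (by linarith) h1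
  have h5 := abs_nonneg (v - t)
  rw [Real.log_mul (by linarith) (by positivity), Real.log_pow] at h4
  have h6 : Real.log (1 + |v - t|) ≤ |v - t| := by
    have := Real.log_le_sub_one_of_pos (show 0 < 1 + |v - t| by linarith)
    linarith
  have h7 : (m : ℝ) * Real.log (1 + |v - t|) ≤ m * |v - t| := mul_le_mul_of_nonneg_left h6 (by positivity)
  linarith

end ConvAux

open H353.E Gam ConvAux in
theorem t_CONV : S_CONV := by
  intro m A hm
  obtain ⟨KW, hKW, _, hW⟩ := t_W
  obtain ⟨B1, hB1, hrs⟩ := rs_aux m A hm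
  have hth := th_pos m
  have hth2 := th_le hm
  have hm' : (1 : ℝ) ≤ m := by exact_mod_cast hm
  refine ⟨326 * m, B1, 4 * m * KW / th m, th m / 2, by positivity, hB1, by positivity, by positivity, by linarith,
    fun π t => ⟨xi π, fun y => ‖gaf π.N π.μ (3 / 2 + y * I)‖ * Real.exp (-(gaD π.N π.μ (3 / 2 + y * I)).re),
      fun y => (gaD π.N π.μ (3 / 2 + y * I)).re, ?_⟩⟩
  have hsm : Abs1 (cc (av π.α)) := sm_aux hW π fun η hη hη1 => (hrs π t η hη hη1).1
  exact
    { ld := ld_aux hm π hsm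
      lg := by
        intro v
        have h1 := gaD_re_le (one_le_N π) π.re_le v
        have h2 := cnd_move π t v
        have h3 := abs_nonneg (v - t)
        change (gaD π.N π.μ (3 / 2 + v * I)).re ≤ 1 / 2 * Real.log (cnd π.N π.μ v) + 5 * m at h1
        have h4 : (0 : ℝ) ≤ m * |v - t| := by positivity
        rw [Ct_eq]
        nlinarith
      rs := fun η hη hη1 => hrs π t η hη hη1
      ts := ts_le hW hm π }

end Pool.Agent.T3h90.WS
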