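import Pool.Agent.T3h90.WS.Maj

/-!
# Project WS: the value on the critical line (Step D)
-/

set_option autoImplicit false

open Complex MeasureTheory Set Filter Asymptotics Topology
open scoped ComplexConjugate

namespace Pool.Agent.T3h90.WS

variable {K : ℝ} {ξ Lf : ℂ → ℂ} {c : X → ℂ} {G ℓ : ℝ → ℝ}

/-- `L(s) / L(s + η) - 1` -/
noncomputable def GG (Lf : ℂ → ℂ) (η : ℝ) (s : ℂ) : ℂ := Lf s / Lf (s + η) - 1

lemma norm_quot_le (Lf : ℂ → ℂ) (η : ℝ) (s : ℂ) : ‖Lf s‖ * ‖Lf (s + η)‖⁻¹ ≤ 1 + ‖GG Lf η s‖ := by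
  have e : Lf s / Lf (s + η) = 1 + GG Lf η s := by unfold GG; ring
  rw [← norm_inv, ← norm_mul, ← div_eq_mul_inv, e]
  refine (norm_add_le _ _).trans ?_
  simp

/-- the tail sum -/
noncomputable def TS (c : X → ℂ) (σ : ℝ) : ℝ := ∑' x, ‖c x‖ * Real.exp (-(σ * lam x))

/-- **Step D** -/
theorem stepD (hC : S_CAU) (h : LD K ξ Lf c G ℓ) (t : ℝ) {δ η : ℝ} (hδ : 0 < δ) (hδ1 : δ ≤ 1 / 4) (hη : δ < η)
    (hi : Integrable fun y : ℝ => (1 + ‖GG Lf η ((1 - δ : ℝ) + (t + y : ℝ) * I)‖) * Real.exp (-y ^ 2)) :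
    ‖Lf (1 / 2 + t * I)‖ ≤ Real.exp (ℓ t * (1 / 2 - δ) + (5 * K + 2) + 2 * TS c (3 / 2 + η - 2 * δ)) *
      ∫ y : ℝ, (1 + ‖GG Lf η ((1 - δ : ℝ) + (t + y : ℝ) * I)‖) * Real.exp (-y ^ 2) := by
  have hK := h.K0
  have hGp := h.Gpos t
  have hσ : 1 < 1 - δ + η := by linarith
  have hw : 1 / 4 ≤ 1 / 2 - δ := by linarith
  have hw0 : 0 ≤ 1 / 2 - δ := by linarith
  obtain ⟨B, hB0, hB⟩ := FF_growth h (σ := 1 - δ + η) (w := 1 / 2 - δ) hσ t
  have h1 := hC (FF ξ c (1 - δ + η) t (1 / 2 - δ)) (1 / 2 - δ) (K + 1) B hw (by linarith) (by linarith)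
    (fun z hz => FF_diff h t (by linarith)) hB
  obtain ⟨J, hJ⟩ : ∃ J : ℝ, J = ∫ y : ℝ, (1 + ‖GG Lf η ((1 - δ : ℝ) + (t + y : ℝ) * I)‖) * Real.exp (-y ^ 2) :=
    ⟨_, rfl⟩
  rw [← hJ]
  -- the boundary
  have hbd : ∀ (z : ℂ), |z.re| = 1 / 2 - δ → ‖FF ξ c (1 - δ + η) t (1 / 2 - δ) z‖ ≤
      G t * Real.exp (ℓ t * (1 / 2 - δ) + K * (1 + (1 / 2 - δ) ^ 2)) * Real.exp (K * z.im ^ 2) *
      (1 + ‖GG Lf η ((1 - δ : ℝ) + (t + z.im : ℝ) * I)‖) := fun z hz => by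
    have h2 := FF_bd h hσ hw t hz
    refine h2.trans ?_
    have e1 : ((1 / 2 + (1 / 2 - δ) : ℝ) : ℂ) = ((1 - δ : ℝ) : ℂ) := by
      congr 1; ring
    have e2 : (((1 - δ + η : ℝ) : ℂ) + (t + z.im : ℝ) * I) = ((1 - δ : ℝ) + (t + z.im : ℝ) * I) + η := by
      push_cast; ring
    rw [e1, e2]
    have h3 := norm_quot_le Lf η ((1 - δ : ℝ) + (t + z.im : ℝ) * I)
    calc _ ≤ G t * Real.exp (ℓ t * (1 / 2 - δ) + K * (1 + (1 / 2 - δ) ^ 2 + z.im ^ 2)) *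
          (1 + ‖GG Lf η ((1 - δ : ℝ) + (t + z.im : ℝ) * I)‖) := mul_le_mul_of_nonneg_left h3 (by positivity)
      _ = _ := by
          rw [mul_assoc (G t) _ (Real.exp (K * z.im ^ 2)), ← Real.exp_add]
          congr 3
          ring
  have h4 : ∫ y : ℝ, (‖FF ξ c (1 - δ + η) t (1 / 2 - δ) (((1 / 2 - δ : ℝ) : ℂ) + y * I)‖ +
      ‖FF ξ c (1 - δ + η) t (1 / 2 - δ) (-((1 / 2 - δ : ℝ) : ℂ) + y * I)‖) * Real.exp (-((K + 1) * y ^ 2)) ≤
      2 * (G t * Real.exp (ℓ t * (1 / 2 - δ) + K * (1 + (1 / 2 - δ) ^ 2))) * J := by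
    rw [hJ, ← integral_const_mul]
    refine integral_mono_of_nonneg (Eventually.of_forall fun y => by positivity) (hi.const_mul _)
      (Eventually.of_forall fun y => ?_)
    have h5 := hbd (((1 / 2 - δ : ℝ) : ℂ) + y * I) (by simp only [add_re, ofReal_re, mul_re, I_re,
      mul_zero, ofReal_im, I_im, mul_one, sub_self, add_zero]; exact abs_of_nonneg hw0)
    have h6 := hbd (-((1 / 2 - δ : ℝ) : ℂ) + y * I) (by simp only [add_re, neg_re, ofReal_re, mul_re, I_re,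
      mul_zero, ofReal_im, I_im, mul_one, sub_self, add_zero, abs_neg]; exact abs_of_nonneg hw0)
    have e3 : (((1 / 2 - δ : ℝ) : ℂ) + y * I).im = y := by simp
    have e4 : (-((1 / 2 - δ : ℝ) : ℂ) + y * I).im = y := by simp
    rw [e3] at h5
    rw [e4] at h6
    have e5 : Real.exp (-y ^ 2) = Real.exp (K * y ^ 2) * Real.exp (-((K + 1) * y ^ 2)) := by
      rw [← Real.exp_add]; congr 1; ring
    simp only
    rw [e5]
    obtain ⟨A, hA⟩ : ∃ A : ℝ, A = G t * Real.exp (ℓ t * (1 / 2 - δ) + K * (1 + (1 / 2 - δ) ^ 2)) := ⟨_, rfl⟩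
    obtain ⟨Q, hQ⟩ : ∃ Q : ℝ, Q = 1 + ‖GG Lf η ((1 - δ : ℝ) + (t + y : ℝ) * I)‖ := ⟨_, rfl⟩
    rw [← hA, ← hQ] at h5 h6
    rw [← hA, ← hQ]
    calc _ ≤ (A * Real.exp (K * y ^ 2) * Q + A * Real.exp (K * y ^ 2) * Q) * Real.exp (-((K + 1) * y ^ 2)) :=
          mul_le_mul_of_nonneg_right (add_le_add h5 h6) (Real.exp_pos _).le
      _ = _ := by ring
  have h7 := h.inv t 0 (by simp)
  rw [add_zero, Complex.zero_re, mul_zero, neg_zero, zero_add, norm_zero] at h7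
  have h8 : ‖ξ (1 / 2 + t * I)‖ = ‖FF ξ c (1 - δ + η) t (1 / 2 - δ) 0‖ *
      Real.exp (Ph c (1 - δ + η) t (1 / 2 - δ) 0).re := by
    unfold FF
    rw [norm_mul, Complex.norm_exp, mul_assoc, ← Real.exp_add, Complex.neg_re, neg_add_cancel,
      Real.exp_zero, mul_one, add_zero]
  have h9 : (Ph c (1 - δ + η) t (1 / 2 - δ) 0).re ≤ 2 * TS c (3 / 2 + η - 2 * δ) := by
    refine (Complex.re_le_norm _).trans ?_
    unfold Ph TS
    rw [← tsum_mul_left]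
    refine tsum_of_norm_bounded ((h.sm.at (by linarith)).mul_left 2).hasSum fun x => ?_
    refine (norm_pt_le c _ t _ x 0).trans ?_
    have h10 := cosh_ratio_le' (l := lam x) (a := (0 : ℂ).re) (b := 1 / 2 - δ) (lam_pos x).le
    refine (mul_le_mul_of_nonneg_left h10 (by positivity)).trans (le_of_eq ?_)
    rw [show 2 * (‖c x‖ * Real.exp (-((3 / 2 + η - 2 * δ) * lam x))) =
      ‖c x‖ * (2 * Real.exp (-((3 / 2 + η - 2 * δ) * lam x))) by ring, mul_assoc]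
    congr 1
    rw [show Real.exp (-((1 - δ + η) * lam x)) * (2 * Real.exp ((|(0 : ℂ).re| - (1 / 2 - δ)) * lam x)) =
      2 * (Real.exp (-((1 - δ + η) * lam x)) * Real.exp ((|(0 : ℂ).re| - (1 / 2 - δ)) * lam x)) by ring,
      ← Real.exp_add]
    congr 2
    rw [Complex.zero_re, abs_zero]
    ring
  have hJ0 : 0 ≤ J := by
    rw [hJ]
    exact integral_nonneg fun y => by positivity
  rw [h8] at h7
  obtain ⟨E, hE⟩ : ∃ E : ℝ, E = ℓ t * (1 / 2 - δ) + K * (1 + (1 / 2 - δ) ^ 2) := ⟨_, rfl⟩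
  rw [← hE] at h4
  calc ‖Lf (1 / 2 + t * I)‖ ≤ _ := h7
    _ ≤ (G t)⁻¹ * Real.exp (K * (1 + (0 : ℝ) ^ 2)) * ((Real.exp (K + 1) * (2 * (G t * Real.exp E) * J)) *
        Real.exp (2 * TS c (3 / 2 + η - 2 * δ))) := by
        apply mul_le_mul_of_nonneg_left _ (by positivity)
        refine mul_le_mul (h1.trans ?_) (Real.exp_le_exp.2 h9) (Real.exp_pos _).le (by positivity)
        exact mul_le_mul_of_nonneg_left h4 (Real.exp_pos _).le
    _ = 2 * (Real.exp (K * (1 + (0 : ℝ) ^ 2)) * Real.exp (K + 1) * Real.exp E *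
        Real.exp (2 * TS c (3 / 2 + η - 2 * δ))) * J := by
        field_simp
    _ ≤ Real.exp 1 * (Real.exp (K * (1 + (0 : ℝ) ^ 2)) * Real.exp (K + 1) * Real.exp E *
        Real.exp (2 * TS c (3 / 2 + η - 2 * δ))) * J := by
        have : (2 : ℝ) ≤ Real.exp 1 := by linarith [Real.add_one_le_exp (1 : ℝ)]
        gcongr
    _ = Real.exp (1 + K * (1 + (0 : ℝ) ^ 2) + (K + 1) + E + 2 * TS c (3 / 2 + η - 2 * δ)) * J := by
        generalize K * (1 + (0 : ℝ) ^ 2) = a1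
        generalize K + 1 = a2
        generalize 2 * TS c (3 / 2 + η - 2 * δ) = a3
        rw [Real.exp_add, Real.exp_add, Real.exp_add, Real.exp_add]
        ring
    _ ≤ _ := by
        apply mul_le_mul_of_nonneg_right _ hJ0
        apply Real.exp_le_exp.2
        rw [hE]
        have h11 : (1 / 2 - δ) ^ 2 ≤ 1 := by nlinarith
        have h12 : K * (1 / 2 - δ) ^ 2 ≤ K * 1 := mul_le_mul_of_nonneg_left h11 hK
        nlinarith

end Pool.Agent.T3h90.WS
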