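import Pool.Agent.T3h90.WS.Thin

/-!
# Project WS: cuspidal representations of `GL(m)` and the hypotheses of the analytic part
-/

set_option autoImplicit false

open Complex MeasureTheory Set Filter Asymptotics Topology
open scoped ComplexConjugate

namespace Pool.Agent.T3h90.WS

/-- Analytic data of a unitary cuspidal automorphic representation `π` of `GL_m(𝔸_ℚ)` (not the trivial one
for `m = 1`), normalised as in the problem, with the known facts: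

* conductor `N`, archimedean parameters `μ_j` with `Re μ_j ≤ 1/2` and `∑ Im μ_j = 0` (the central character is
  trivial on the positive reals), Satake parameters `α_j(p)` with `|α_j(p)| ≤ p^(1/2 - 1/(m²+1))` (Luo, Rudnick
  and Sarnak), root number `ε`, and the entire completed L-function `Λ` (gamma factors times Euler product for
  `Re s > 3/2`) with the functional equation and finite order in vertical strips (Godement and Jacquet);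
* the Rankin-Selberg L-function (Jacquet, Piatetski-Shapiro and Shalika): `b(p^(k+1)) ≥ 0` are the coefficients
  of `- L'/L(s, π × π~) = ∑ b(p^(k+1)) (log p) p^(-(k+1) s)` (absolutely convergent for `Re s > 1`), equal to
  `|α_1(p)^(k+1) + ... + α_m(p)^(k+1)|^2` for `p` not dividing `N`; `Z(s) = (s - 1) L(s, π × π~)` is analytic in
  `Re s > 1/4`, and `|Z(s)| ≤ (2 C)^A` for `|s - 1| ≤ 4` there (a crude form of the convexity bound),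
  `C = N ∏ (1 + |μ_j|)` the analytic conductor of the problem, `A` a constant that depends on `m` only. -/
structure Cusp (m : ℕ) (A : ℝ) where
  /-- the conductor -/
  N : ℕ
  /-- the archimedean parameters -/
  μ : Fin m → ℂ
  /-- the Satake parameters -/
  α : Fin m → ℕ → ℂ
  /-- the root number -/
  ε : ℂ
  /-- the completed L-function -/
  Λ : ℂ → ℂ
  /-- the Rankin-Selberg coefficients -/
  b : X → ℝ
  /-- `(s - 1) L(s, π × π~)` -/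
  Z : ℂ → ℂ
  N_ne : N ≠ 0
  re_le : ∀ j, (μ j).re ≤ 1 / 2
  normalised : ∑ j, (μ j).im = 0
  norm_le : ∀ j, ∀ p : ℕ, p.Prime → ‖α j p‖ ≤ (p : ℝ) ^ ((1 : ℝ) / 2 - 1 / ((m : ℝ) ^ 2 + 1))
  norm_eq : ‖ε‖ = 1
  entire : Differentiable ℂ Λ
  euler : ∀ s : ℂ, 3 / 2 < s.re → Λ s = (∏ j, Gammaℝ (s - μ j)) *
    ∏' p : Nat.Primes, ∏ j, (1 - α j p * (p : ℂ) ^ (-s))⁻¹
  fe : ∀ s : ℂ, Λ s = ε * (N : ℂ) ^ (1 / 2 - s) * conj (Λ (1 - conj s))
  bdd : ∀ a b : ℝ, ∃ M, ∀ s : ℂ, a ≤ s.re → s.re ≤ b → ‖Λ s‖ ≤ Real.exp (M * (1 + |s.im|))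
  b_nonneg : ∀ x, 0 ≤ b x
  b_eq : ∀ x : X, ¬ (x.1 : ℕ) ∣ N → b x = ‖∑ j, α j x.1 ^ (x.2 + 1)‖ ^ 2
  b_conv : ∀ σ : ℝ, 1 < σ → Summable (fun x : X => b x / ((x.2 : ℝ) + 1) *
    Real.exp (-(σ * (((x.2 : ℝ) + 1) * Real.log x.1))))
  rs : ∀ s : ℂ, 1 < s.re → Z s = (s - 1) * cexp (∑' x : X, (b x : ℂ) / ((x.2 : ℂ) + 1) *
    cexp (-(((((x.2 : ℝ) + 1) * Real.log x.1 : ℝ)) : ℂ) * s))
  Z_diff : ∀ s : ℂ, 1 / 4 < s.re → DifferentiableAt ℂ Z s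
  Z_le : ∀ s : ℂ, 1 / 4 < s.re → ‖s - 1‖ ≤ 4 → ‖Z s‖ ≤ (2 * (N * ∏ j, (1 + ‖μ j‖))) ^ A

variable {m : ℕ} {A : ℝ}

/-- The L-function `L(s, π) = Λ(s, π) / ∏ Γ_ℝ(s - μ_j)`. -/
noncomputable def Cusp.L (π : Cusp m A) (s : ℂ) : ℂ := π.Λ s * ∏ j, (Gammaℝ (s - π.μ j))⁻¹

/-- The analytic conductor `C_π = N ∏ (1 + |μ_j|)`. -/
noncomputable def Cusp.C (π : Cusp m A) : ℝ := π.N * ∏ j, (1 + ‖π.μ j‖)

/-- The analytic conductor at the height `t`: `C_π(t) = N ∏ (1 + |i t - μ_j|)`. -/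
noncomputable def Cusp.Ct (π : Cusp m A) (t : ℝ) : ℝ := π.N * ∏ j, (1 + ‖(t : ℂ) * I - π.μ j‖)

/-- the hypotheses of the analytic part, at the height `t`; `L` is about the logarithm of the conductor -/
structure Hyp (K B1 B2 κ L : ℝ) (ξ Lf : ℂ → ℂ) (a : X → ℂ) (G ℓ : ℝ → ℝ) (t : ℝ) : Prop where
  ld : LD K ξ Lf (cc a) G ℓ
  lg : ∀ v : ℝ, ℓ v ≤ L / 2 + K * (1 + |v - t|)
  rs : ∀ η : ℝ, 0 < η → η ≤ 1 → Summable (fun x => wt x * ‖a x‖ ^ 2 * Real.exp (-(η * lam x))) ∧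
    ∑' x, wt x * ‖a x‖ ^ 2 * Real.exp (-(η * lam x)) ≤ B1 * (1 / η + L)
  ts : TS (cc a) (3 / 2 - κ) ≤ B2

/-- **Task CONV** -/
def S_CONV : Prop := ∀ (m : ℕ) (A : ℝ), 1 ≤ m → ∃ K B1 B2 κ : ℝ, 0 < K ∧ 0 < B1 ∧ 0 < B2 ∧ 0 < κ ∧ κ ≤ 1 / 4 ∧
  ∀ (π : Cusp m A) (t : ℝ), ∃ (ξ : ℂ → ℂ) (G ℓ : ℝ → ℝ),
    Hyp K B1 B2 κ (1 + Real.log (π.Ct t)) ξ π.L (av π.α) G ℓ t

end Pool.Agent.T3h90.WS
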