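import Pool.Agent.T3h90.WS.Stm

/-!
# Task MS: mean square over a window of length one
-/

set_option autoImplicit false

open Complex MeasureTheory Filter
open scoped ComplexConjugate

namespace Pool.Agent.T3h90.WS

/-- the Gaussian window -/
lemma gw_int (ξ t : ℝ) : Integrable (fun v : ℝ => cexp (-1 * (v : ℂ) ^ 2 + (2 * t - I * ξ) * v + -(t : ℂ) ^ 2)) :=
  integrable_cexp_quadratic' (by norm_num) _ _

lemma gw_eq (ξ t v : ℝ) : cexp (-1 * (v : ℂ) ^ 2 + (2 * t - I * ξ) * v + -(t : ℂ) ^ 2) =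
    cexp (-(ξ * v : ℝ) * I) * ((Real.exp (-(v - t) ^ 2) : ℝ) : ℂ) := by
  rw [Complex.ofReal_exp, ← Complex.exp_add]
  congr 1
  push_cast
  ring

lemma gw_norm (ξ t : ℝ) :
    ‖∫ v : ℝ, cexp (-(ξ * v : ℝ) * I) * ((Real.exp (-(v - t) ^ 2) : ℝ) : ℂ)‖ =
      Real.sqrt Real.pi * Real.exp (-ξ ^ 2 / 4) := by
  have h : (fun v : ℝ => cexp (-(ξ * v : ℝ) * I) * ((Real.exp (-(v - t) ^ 2) : ℝ) : ℂ)) =
      fun v : ℝ => cexp (-1 * (v : ℂ) ^ 2 + (2 * t - I * ξ) * v + -(t : ℂ) ^ 2) := by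
    funext v; rw [gw_eq]
  rw [h, integral_cexp_quadratic (by norm_num), norm_mul, neg_neg, div_one, Complex.norm_exp]
  congr 1
  · rw [Complex.norm_cpow_eq_rpow_re_of_pos Real.pi_pos]
    norm_num
    rw [Real.sqrt_eq_rpow]
  · congr 1
    have : (-(t : ℂ) ^ 2 - (2 * t - I * ξ) ^ 2 / (4 * -1)) = ((-ξ ^ 2 / 4 : ℝ) : ℂ) - (t * ξ : ℝ) * I := by
      push_cast
      have hI : (I : ℂ) ^ 2 = -1 := Complex.I_sq
      linear_combination (ξ : ℂ) ^ 2 / 4 * hI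
    rw [this]
    simp only [Complex.sub_re, Complex.ofReal_re, Complex.mul_re, Complex.I_re, Complex.ofReal_im,
      Complex.I_im]
    ring

lemma gw_real_int (t : ℝ) : Integrable (fun v : ℝ => Real.exp (-(v - t) ^ 2)) := by
  have h := (integrable_exp_neg_mul_sq (b := 1) one_pos).comp_sub_right t
  refine h.congr (Eventually.of_forall fun v => ?_)
  simp

/-- finite sums -/
lemma ms_fin {K : ℝ} (hK : ∀ u : ℝ, Summable (fun x : X => wt x * Real.exp (-(lam x - u) ^ 2 / 4)) ∧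
    ∑' x : X, wt x * Real.exp (-(lam x - u) ^ 2 / 4) ≤ K) (b : X → ℂ) (t : ℝ) (s : Finset X) :
    ∫ v : ℝ, ‖∑ x ∈ s, (wt x : ℂ) * b x * cexp (-(lam x * v : ℝ) * I)‖ ^ 2 * Real.exp (-(v - t) ^ 2) ≤
      Real.sqrt Real.pi * K * ∑ x ∈ s, wt x * ‖b x‖ ^ 2 := by
  have hwt : ∀ x : X, 0 ≤ wt x := fun x =>
    mul_nonneg (Real.log_nonneg (by exact_mod_cast x.1.2.one_lt.le)) (Real.exp_pos _).le
  obtain ⟨a, ha⟩ : ∃ a : X → ℂ, a = fun x => (wt x : ℂ) * b x := ⟨_, rfl⟩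
  have hna : ∀ x, ‖a x‖ = wt x * ‖b x‖ := by
    intro x
    rw [ha, norm_mul, Complex.norm_real, Real.norm_of_nonneg (hwt x)]
  have e1 : ∀ v : ℝ, ((‖∑ x ∈ s, a x * cexp (-(lam x * v : ℝ) * I)‖ ^ 2 * Real.exp (-(v - t) ^ 2) : ℝ) : ℂ) =
      ∑ x ∈ s, ∑ y ∈ s, a x * conj (a y) *
        (cexp (-((lam x - lam y) * v : ℝ) * I) * ((Real.exp (-(v - t) ^ 2) : ℝ) : ℂ)) := by
    intro v
    rw [Complex.ofReal_mul]
    rw [show ((‖∑ x ∈ s, a x * cexp (-(lam x * v : ℝ) * I)‖ ^ 2 : ℝ) : ℂ) =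
      (∑ x ∈ s, a x * cexp (-(lam x * v : ℝ) * I)) * conj (∑ x ∈ s, a x * cexp (-(lam x * v : ℝ) * I)) by
        rw [Complex.mul_conj, Complex.normSq_eq_norm_sq]]
    rw [map_sum, Finset.sum_mul_sum, Finset.sum_mul]
    refine Finset.sum_congr rfl fun x _ => ?_
    rw [Finset.sum_mul]
    refine Finset.sum_congr rfl fun y _ => ?_
    rw [map_mul, ← Complex.exp_conj]
    have h1 : conj (-(lam y * v : ℝ) * I) = (lam y * v : ℝ) * I := by
      rw [map_mul, map_neg, Complex.conj_ofReal, Complex.conj_I]; ring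
    rw [h1]
    have h2 : cexp (-((lam x - lam y) * v : ℝ) * I) =
        cexp (-(lam x * v : ℝ) * I) * cexp ((lam y * v : ℝ) * I) := by
      rw [← Complex.exp_add]
      congr 1
      push_cast
      ring
    rw [h2]
    ring
  have hint : ∀ x y : X, Integrable (fun v : ℝ => a x * conj (a y) *
      (cexp (-((lam x - lam y) * v : ℝ) * I) * ((Real.exp (-(v - t) ^ 2) : ℝ) : ℂ))) := by
    intro x y
    refine Integrable.const_mul ?_ _
    exact (gw_int (lam x - lam y) t).congr (Eventually.of_forall fun v => gw_eq _ _ _)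
  have e2 : ((∫ v : ℝ, ‖∑ x ∈ s, a x * cexp (-(lam x * v : ℝ) * I)‖ ^ 2 * Real.exp (-(v - t) ^ 2) : ℝ) : ℂ) =
      ∑ x ∈ s, ∑ y ∈ s, a x * conj (a y) *
        ∫ v : ℝ, cexp (-((lam x - lam y) * v : ℝ) * I) * ((Real.exp (-(v - t) ^ 2) : ℝ) : ℂ) := by
    rw [← integral_complex_ofReal]
    simp_rw [e1]
    rw [integral_finsetSum _ fun x _ => integrable_finsetSum _ fun y _ => hint x y]
    refine Finset.sum_congr rfl fun x _ => ?_
    rw [integral_finsetSum _ fun y _ => hint x y]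
    refine Finset.sum_congr rfl fun y _ => ?_
    rw [integral_const_mul]
  have h0 : 0 ≤ ∫ v : ℝ, ‖∑ x ∈ s, a x * cexp (-(lam x * v : ℝ) * I)‖ ^ 2 * Real.exp (-(v - t) ^ 2) :=
    integral_nonneg fun v => by positivity
  have h1 : ∫ v : ℝ, ‖∑ x ∈ s, a x * cexp (-(lam x * v : ℝ) * I)‖ ^ 2 * Real.exp (-(v - t) ^ 2) ≤
      ∑ x ∈ s, ∑ y ∈ s, (wt x * ‖b x‖) * (wt y * ‖b y‖) *
        (Real.sqrt Real.pi * Real.exp (-(lam x - lam y) ^ 2 / 4)) := by
    rw [← Real.norm_of_nonneg h0, ← Complex.norm_real, e2]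
    refine (norm_sum_le _ _).trans (Finset.sum_le_sum fun x _ => ?_)
    refine (norm_sum_le _ _).trans (Finset.sum_le_sum fun y _ => ?_)
    rw [norm_mul, norm_mul, gw_norm, Complex.norm_conj, hna, hna]
  have hexp : ∀ x y : X, Real.exp (-(lam x - lam y) ^ 2 / 4) = Real.exp (-(lam y - lam x) ^ 2 / 4) := by
    intro x y
    congr 2
    ring
  have h2 : ∀ x : X, ∑ y ∈ s, wt y * Real.exp (-(lam y - lam x) ^ 2 / 4) ≤ K := by
    intro x
    obtain ⟨hs, hle⟩ := hK (lam x)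
    exact (hs.sum_le_tsum s fun y _ => mul_nonneg (hwt y) (Real.exp_pos _).le).trans hle
  have h3 : ∑ x ∈ s, ∑ y ∈ s, (wt x * ‖b x‖) * (wt y * ‖b y‖) *
        (Real.sqrt Real.pi * Real.exp (-(lam x - lam y) ^ 2 / 4)) ≤
      ∑ x ∈ s, ∑ y ∈ s, (Real.sqrt Real.pi / 2 * (wt x * ‖b x‖ ^ 2 * (wt y * Real.exp (-(lam y - lam x) ^ 2 / 4))) +
        Real.sqrt Real.pi / 2 * (wt y * ‖b y‖ ^ 2 * (wt x * Real.exp (-(lam x - lam y) ^ 2 / 4)))) := by
    refine Finset.sum_le_sum fun x _ => Finset.sum_le_sum fun y _ => ?_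
    rw [hexp y x]
    have h4 : ‖b x‖ * ‖b y‖ ≤ (‖b x‖ ^ 2 + ‖b y‖ ^ 2) / 2 := by nlinarith [sq_nonneg (‖b x‖ - ‖b y‖)]
    have h5 : 0 ≤ wt x * wt y * (Real.sqrt Real.pi * Real.exp (-(lam x - lam y) ^ 2 / 4)) :=
      mul_nonneg (mul_nonneg (hwt x) (hwt y)) (by positivity)
    calc (wt x * ‖b x‖) * (wt y * ‖b y‖) * (Real.sqrt Real.pi * Real.exp (-(lam x - lam y) ^ 2 / 4))
        = wt x * wt y * (Real.sqrt Real.pi * Real.exp (-(lam x - lam y) ^ 2 / 4)) * (‖b x‖ * ‖b y‖) := by ring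
      _ ≤ wt x * wt y * (Real.sqrt Real.pi * Real.exp (-(lam x - lam y) ^ 2 / 4)) *
          ((‖b x‖ ^ 2 + ‖b y‖ ^ 2) / 2) := mul_le_mul_of_nonneg_left h4 h5
      _ = _ := by ring
  have h6 : ∑ x ∈ s, ∑ y ∈ s, Real.sqrt Real.pi / 2 *
      (wt x * ‖b x‖ ^ 2 * (wt y * Real.exp (-(lam y - lam x) ^ 2 / 4))) ≤
      Real.sqrt Real.pi / 2 * (K * ∑ x ∈ s, wt x * ‖b x‖ ^ 2) := by
    rw [Finset.mul_sum, Finset.mul_sum]
    refine Finset.sum_le_sum fun x _ => ?_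
    rw [← Finset.mul_sum, ← Finset.mul_sum]
    refine mul_le_mul_of_nonneg_left ?_ (by positivity)
    rw [mul_comm K]
    exact mul_le_mul_of_nonneg_left (h2 x) (mul_nonneg (hwt x) (by positivity))
  have h7 : ∑ x ∈ s, ∑ y ∈ s, Real.sqrt Real.pi / 2 *
      (wt y * ‖b y‖ ^ 2 * (wt x * Real.exp (-(lam x - lam y) ^ 2 / 4))) ≤
      Real.sqrt Real.pi / 2 * (K * ∑ x ∈ s, wt x * ‖b x‖ ^ 2) := by
    rw [Finset.sum_comm]
    exact h6
  have h8 : ∫ v : ℝ, ‖∑ x ∈ s, a x * cexp (-(lam x * v : ℝ) * I)‖ ^ 2 * Real.exp (-(v - t) ^ 2) ≤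
      Real.sqrt Real.pi * K * ∑ x ∈ s, wt x * ‖b x‖ ^ 2 := by
    refine (h1.trans h3).trans ?_
    simp_rw [Finset.sum_add_distrib]
    linarith
  rw [ha] at h8
  exact h8

theorem t_MS (hW : S_W) : S_MS := by
  obtain ⟨K, hK, hW1, -⟩ := hW
  refine ⟨Real.sqrt Real.pi * K, by have := Real.sqrt_pos.2 Real.pi_pos; positivity, ?_⟩
  intro b t hb1 hb2
  have hwt : ∀ x : X, 0 ≤ wt x := fun x =>
    mul_nonneg (Real.log_nonneg (by exact_mod_cast x.1.2.one_lt.le)) (Real.exp_pos _).le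
  set A : ℝ := ∑' x, wt x * ‖b x‖ with hA
  have hA0 : 0 ≤ A := tsum_nonneg fun x => mul_nonneg (hwt x) (norm_nonneg _)
  have hnorm : ∀ (v : ℝ) (x : X), ‖(wt x : ℂ) * b x * cexp (-(lam x * v : ℝ) * I)‖ = wt x * ‖b x‖ := by
    intro v x
    rw [norm_mul, norm_mul, Complex.norm_real, Real.norm_of_nonneg (hwt x)]
    have : ‖cexp (-(lam x * v : ℝ) * I)‖ = 1 := by
      have := Complex.norm_exp_ofReal_mul_I (-(lam x * v))
      push_cast at this ⊢
      exact this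
    rw [this, mul_one]
  have hsum : ∀ v : ℝ, Summable fun x => (wt x : ℂ) * b x * cexp (-(lam x * v : ℝ) * I) := fun v =>
    Summable.of_norm (by simp_rw [hnorm v]; exact hb1)
  have hlim : ∀ v : ℝ, Tendsto (fun s : Finset X =>
      ‖∑ x ∈ s, (wt x : ℂ) * b x * cexp (-(lam x * v : ℝ) * I)‖ ^ 2 * Real.exp (-(v - t) ^ 2)) atTop
      (nhds (‖∑' x, (wt x : ℂ) * b x * cexp (-(lam x * v : ℝ) * I)‖ ^ 2 * Real.exp (-(v - t) ^ 2))) :=
    fun v => (((hsum v).hasSum.norm).pow 2).mul_const _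
  have hdom := tendsto_integral_filter_of_dominated_convergence (μ := volume)
    (F := fun (s : Finset X) (v : ℝ) =>
      ‖∑ x ∈ s, (wt x : ℂ) * b x * cexp (-(lam x * v : ℝ) * I)‖ ^ 2 * Real.exp (-(v - t) ^ 2))
    (f := fun v : ℝ => ‖∑' x, (wt x : ℂ) * b x * cexp (-(lam x * v : ℝ) * I)‖ ^ 2 * Real.exp (-(v - t) ^ 2))
    (l := atTop)
    (fun v => A ^ 2 * Real.exp (-(v - t) ^ 2))
    (Eventually.of_forall fun s => by
      refine Continuous.aestronglyMeasurable ?_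
      fun_prop)
    (Eventually.of_forall fun s => Eventually.of_forall fun v => by
      rw [Real.norm_of_nonneg (by positivity)]
      refine mul_le_mul_of_nonneg_right ?_ (Real.exp_pos _).le
      refine pow_le_pow_left₀ (norm_nonneg _) ?_ 2
      refine (norm_sum_le _ _).trans ?_
      simp_rw [hnorm v]
      exact hb1.sum_le_tsum s fun x _ => mul_nonneg (hwt x) (norm_nonneg _))
    ((gw_real_int t).const_mul _)
    (Eventually.of_forall fun v => hlim v)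
  refine le_of_tendsto' hdom fun s => ?_
  refine (ms_fin hW1 b t s).trans ?_
  refine mul_le_mul_of_nonneg_left ?_ (by positivity)
  exact hb2.sum_le_tsum s fun x _ => mul_nonneg (hwt x) (by positivity)

end Pool.Agent.T3h90.WS
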