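import Pool.Agent.T3h90.WS.Ph

/-!
# Project WS: the majorant in the strip (Step A)
-/

set_option autoImplicit false

open Complex MeasureTheory Set Filter Asymptotics Topology
open scoped ComplexConjugate

namespace Pool.Agent.T3h90.WS

/-- An L-function `Lf` with the completed function `ξ`: `ξ` is entire, symmetric and of finite order in
vertical strips, `Lf` is the exponential of a Dirichlet series in `Re s > 1`, and the quotient `ξ / Lf`
(the gamma factor) is `G(y) e^(ℓ(y) Re u + O(1 + |u|^2))` at `1/2 + i y + u`. -/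
structure LD (K : ℝ) (ξ Lf : ℂ → ℂ) (c : X → ℂ) (G ℓ : ℝ → ℝ) : Prop where
  K0 : 0 ≤ K
  dξ : Differentiable ℂ ξ
  sym : ∀ s, ‖ξ (1 - conj s)‖ = ‖ξ s‖
  bdd : ∀ a b : ℝ, ∃ M, ∀ s : ℂ, a ≤ s.re → s.re ≤ b → ‖ξ s‖ ≤ Real.exp (M * (1 + |s.im|))
  dL : Differentiable ℂ Lf
  sm : Abs1 c
  eul : ∀ s : ℂ, 1 < s.re → Lf s = cexp (DS c s)
  Gpos : ∀ y, 0 < G y
  up : ∀ (y : ℝ) (u : ℂ), 1 / 4 ≤ u.re → ‖ξ (1 / 2 + y * I + u)‖ ≤
    G y * Real.exp (ℓ y * u.re + K * (1 + ‖u‖ ^ 2)) * ‖Lf (1 / 2 + y * I + u)‖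
  inv : ∀ (y : ℝ) (u : ℂ), 0 ≤ u.re → ‖Lf (1 / 2 + y * I + u)‖ ≤
    (G y)⁻¹ * Real.exp (-(ℓ y * u.re) + K * (1 + ‖u‖ ^ 2)) * ‖ξ (1 / 2 + y * I + u)‖

variable {K : ℝ} {ξ Lf : ℂ → ℂ} {c : X → ℂ} {G ℓ : ℝ → ℝ}

lemma LD.ne (h : LD K ξ Lf c G ℓ) {s : ℂ} (hs : 1 < s.re) : Lf s ≠ 0 := by
  rw [h.eul s hs]; exact Complex.exp_ne_zero _

lemma LD.norm_Lf (h : LD K ξ Lf c G ℓ) {s : ℂ} (hs : 1 < s.re) : ‖Lf s‖ = Real.exp (DS c s).re := by
  rw [h.eul s hs, Complex.norm_exp]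

/-- the function whose boundary values are controlled -/
noncomputable def FF (ξ : ℂ → ℂ) (c : X → ℂ) (σ t w : ℝ) (z : ℂ) : ℂ :=
  ξ (1 / 2 + t * I + z) * cexp (-Ph c σ t w z)

lemma FF_diff (h : LD K ξ Lf c G ℓ) {σ w : ℝ} (t : ℝ) {z : ℂ} (hz : |z.re| < w + σ - 1) :
    DifferentiableAt ℂ (FF ξ c σ t w) z := by
  unfold FF
  have h1 := Ph_diff h.sm t hz
  have h2 : DifferentiableAt ℂ (fun z : ℂ => ξ (1 / 2 + t * I + z)) z :=
    (h.dξ _).comp z (by fun_prop)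
  exact h2.mul h1.neg.cexp

lemma nsq (w y : ℝ) : ‖(w : ℂ) + y * I‖ ^ 2 = w ^ 2 + y ^ 2 := by
  rw [← Complex.normSq_eq_norm_sq, Complex.normSq_add_mul_I]

/-- the boundary values -/
lemma FF_bd (h : LD K ξ Lf c G ℓ) {σ w : ℝ} (hσ : 1 < σ) (hw : 1 / 4 ≤ w) (t : ℝ) {z : ℂ} (hz : |z.re| = w) :
    ‖FF ξ c σ t w z‖ ≤ G t * Real.exp (ℓ t * w + K * (1 + w ^ 2 + z.im ^ 2)) *
      (‖Lf ((1 / 2 + w : ℝ) + (t + z.im : ℝ) * I)‖ * ‖Lf (σ + (t + z.im : ℝ) * I)‖⁻¹) := by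
  have hw0 : 0 ≤ w := by linarith
  have h1 : ‖ξ (1 / 2 + t * I + z)‖ = ‖ξ (1 / 2 + t * I + (w + z.im * I))‖ := by
    rcases (abs_eq hw0).1 hz with h2 | h2
    · rw [show (z : ℂ) = (w : ℂ) + z.im * I by
        apply Complex.ext <;> simp [h2]]
      simp
    · rw [← h.sym (1 / 2 + t * I + z)]
      congr 2
      apply Complex.ext
      · simp [h2]; ring
      · simp; ring
  have h2 := h.up t (w + z.im * I) (by simpa using hw)
  rw [nsq] at h2
  have h3 : ‖cexp (-Ph c σ t w z)‖ = ‖Lf (σ + (t + z.im : ℝ) * I)‖⁻¹ := by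
    rw [Complex.norm_exp, h.norm_Lf (by simpa using hσ), ← Real.exp_neg, Complex.neg_re,
      Ph_bd h.sm hσ t hz]
  unfold FF
  rw [norm_mul, h1, h3]
  have e1 : (1 / 2 + t * I + (w + z.im * I) : ℂ) = ((1 / 2 + w : ℝ) + (t + z.im : ℝ) * I) := by
    push_cast; ring
  have e2 : ((w : ℂ) + z.im * I).re = w := by simp
  rw [e1] at h2 ⊢
  rw [e2] at h2
  rw [← mul_assoc]
  refine mul_le_mul_of_nonneg_right (h2.trans (le_of_eq ?_)) (by positivity)
  congr 3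
  ring

/-- growth -/
lemma FF_growth (h : LD K ξ Lf c G ℓ) {σ w : ℝ} (hσ : 1 < σ) (t : ℝ) :
    ∃ B : ℝ, 0 ≤ B ∧ ∀ z : ℂ, |z.re| ≤ w → ‖FF ξ c σ t w z‖ ≤ Real.exp (B * (1 + |z.im|)) := by
  obtain ⟨M, hM⟩ := h.bdd (1 / 2 - w) (1 / 2 + w)
  obtain ⟨S, hS⟩ : ∃ S : ℝ, S = ∑' x, ‖c x‖ * Real.exp (-(σ * lam x)) := ⟨_, rfl⟩
  have hS0 : 0 ≤ S := by rw [hS]; exact tsum_nonneg fun x => by positivity
  refine ⟨|M| * (1 + |t|) + S, by positivity, fun z hz => ?_⟩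
  have h1 := hM (1 / 2 + t * I + z) (by simp; linarith [(abs_le.1 hz).1]) (by simp; linarith [(abs_le.1 hz).2])
  have h2 := norm_Ph_le h.sm hσ t hz
  rw [← hS] at h2
  unfold FF
  rw [norm_mul, Complex.norm_exp]
  have h3 : (-Ph c σ t w z).re ≤ S := by
    have := Complex.abs_re_le_norm (Ph c σ t w z)
    rw [Complex.neg_re]
    linarith [neg_abs_le (Ph c σ t w z).re]
  calc _ ≤ Real.exp (M * (1 + |(1 / 2 + t * I + z : ℂ).im|)) * Real.exp S :=
        mul_le_mul h1 (Real.exp_le_exp.2 h3) (Real.exp_pos _).le (Real.exp_pos _).le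
    _ ≤ _ := by
        rw [← Real.exp_add]
        apply Real.exp_le_exp.2
        have e : (1 / 2 + t * I + z : ℂ).im = t + z.im := by simp
        rw [e]
        have h4 : M * (1 + |t + z.im|) ≤ |M| * (1 + (|t| + |z.im|)) :=
          mul_le_mul (le_abs_self M) (by linarith [abs_add_le t z.im]) (by positivity) (abs_nonneg _)
        have h5 := abs_nonneg t
        have h6 := abs_nonneg z.im
        have h7 := abs_nonneg M
        nlinarith [mul_nonneg h7 (mul_nonneg h5 h6), mul_nonneg hS0 h6]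

lemma norm_gs (κ : ℝ) (z : ℂ) : ‖cexp (κ * z ^ 2)‖ = Real.exp (κ * (z.re ^ 2 - z.im ^ 2)) := by
  rw [Complex.norm_exp]
  congr 1
  simp [pow_two]

lemma gauss_kill {B κ y : ℝ} (hκ : 1 ≤ κ) (hB : 0 ≤ B) :
    B * (1 + |y|) - κ * y ^ 2 ≤ B + B ^ 2 := by
  have h1 := abs_nonneg y
  have h2 : y ^ 2 = |y| ^ 2 := (sq_abs y).symm
  rw [h2]
  nlinarith [sq_nonneg (|y| - B / 2), sq_nonneg B, mul_nonneg (sub_nonneg.2 hκ) (sq_nonneg (|y|))]

/-- the maximum principle -/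
lemma strip_max {f : ℂ → ℂ} {w κ B A : ℝ} (hw : 0 < w) (hκ : 1 ≤ κ) (hB : 0 ≤ B)
    (hd : ∀ z : ℂ, |z.re| ≤ w → DifferentiableAt ℂ f z)
    (hg : ∀ z : ℂ, |z.re| ≤ w → ‖f z‖ ≤ Real.exp (B * (1 + |z.im|)))
    (hb : ∀ z : ℂ, |z.re| = w → ‖f z‖ ≤ A * Real.exp (κ * z.im ^ 2)) {x : ℝ} (hx : |x| ≤ w) :
    ‖f x‖ ≤ A * Real.exp (κ * w ^ 2) := by
  obtain ⟨g, hgd⟩ : ∃ g : ℂ → ℂ, g = fun z => f z * cexp (κ * z ^ 2) := ⟨_, rfl⟩
  have hgn : ∀ z, ‖g z‖ = ‖f z‖ * Real.exp (κ * (z.re ^ 2 - z.im ^ 2)) := fun z => by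
    rw [hgd]
    simp only [norm_mul, norm_gs]
  have hcl : ∀ z : ℂ, z ∈ closure (re ⁻¹' Ioo (-w) w) → |z.re| ≤ w := by
    intro z hz
    have h1 : closure (re ⁻¹' Ioo (-w) w) ⊆ re ⁻¹' Icc (-w) w :=
      closure_minimal (preimage_mono Ioo_subset_Icc_self) (isClosed_Icc.preimage continuous_re)
    have h2 := h1 hz
    exact abs_le.2 h2
  have hdc : DiffContOnCl ℂ g (re ⁻¹' Ioo (-w) w) := by
    refine DifferentiableOn.diffContOnCl fun z hz => ?_
    rw [hgd]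
    exact ((hd z (hcl z hz)).mul (by fun_prop)).differentiableWithinAt
  have hbA : ∀ z : ℂ, |z.re| = w → ‖g z‖ ≤ A * Real.exp (κ * w ^ 2) := fun z hz => by
    rw [hgn]
    have h1 := hb z hz
    have h2 : z.re ^ 2 = w ^ 2 := by rw [← sq_abs, hz]
    rw [h2]
    calc ‖f z‖ * Real.exp (κ * (w ^ 2 - z.im ^ 2)) ≤
          A * Real.exp (κ * z.im ^ 2) * Real.exp (κ * (w ^ 2 - z.im ^ 2)) :=
          mul_le_mul_of_nonneg_right h1 (Real.exp_pos _).le
      _ = _ := by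
          rw [mul_assoc, ← Real.exp_add]
          congr 2
          ring
  have key := PhragmenLindelof.vertical_strip (z := (x : ℂ)) (C := A * Real.exp (κ * w ^ 2)) hdc
    ⟨0, div_pos Real.pi_pos (by linarith), 0, ?_⟩ (fun z hz => hbA z (by rw [hz, abs_neg, abs_of_pos hw]))
    (fun z hz => hbA z (by rw [hz, abs_of_pos hw])) (by simpa using (abs_le.1 hx).1)
    (by simpa using (abs_le.1 hx).2)
  · rw [hgn] at key
    refine le_trans ?_ key
    have h1 : 1 ≤ Real.exp (κ * ((x : ℂ).re ^ 2 - (x : ℂ).im ^ 2)) := by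
      rw [Complex.ofReal_re, Complex.ofReal_im]
      apply Real.one_le_exp
      have := sq_nonneg x
      nlinarith
    exact le_mul_of_one_le_right (norm_nonneg _) h1
  · refine IsBigO.of_bound (Real.exp (B + B ^ 2 + κ * w ^ 2)) ?_
    refine (eventually_inf_principal.2 (Eventually.of_forall fun z hz => ?_))
    have hz' : |z.re| ≤ w := abs_le.2 ⟨hz.1.le, hz.2.le⟩
    rw [hgn]
    have h1 := hg z hz'
    have h2 : z.re ^ 2 ≤ w ^ 2 := sq_le_sq' (abs_le.1 hz').1 (abs_le.1 hz').2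
    have h3 := gauss_kill (y := z.im) hκ hB
    simp only [zero_mul, Real.exp_zero, norm_one, mul_one]
    calc ‖f z‖ * Real.exp (κ * (z.re ^ 2 - z.im ^ 2)) ≤
          Real.exp (B * (1 + |z.im|)) * Real.exp (κ * (z.re ^ 2 - z.im ^ 2)) :=
          mul_le_mul_of_nonneg_right h1 (Real.exp_pos _).le
      _ ≤ _ := by
          rw [← Real.exp_add]
          apply Real.exp_le_exp.2
          have h4 : κ * z.re ^ 2 ≤ κ * w ^ 2 := mul_le_mul_of_nonneg_left h2 (by linarith)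
          linarith

/-- the sum that measures the variation of `log |Lf|` to the right of `Re s = 1` -/
noncomputable def VS (c : X → ℂ) (r a : ℝ) : ℝ :=
  ∑' x, ‖c x‖ * Real.exp (-((1 + r) * lam x)) * min 1 (a * lam x)

lemma VS_summ (h : Abs1 c) {r a : ℝ} (hr : 0 < r) (ha : 0 ≤ a) :
    Summable fun x => ‖c x‖ * Real.exp (-((1 + r) * lam x)) * min 1 (a * lam x) := by
  refine (h r hr).of_nonneg_of_le (fun x => ?_) fun x => ?_
  · have := lam_pos x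
    have : 0 ≤ min 1 (a * lam x) := le_min zero_le_one (by positivity)
    positivity
  · exact mul_le_of_le_one_right (by positivity) (min_le_left _ _)

lemma VS_nonneg (c : X → ℂ) (r : ℝ) {a : ℝ} (ha : 0 ≤ a) : 0 ≤ VS c r a := by
  refine tsum_nonneg fun x => ?_
  have := lam_pos x
  have : 0 ≤ min 1 (a * lam x) := le_min zero_le_one (by positivity)
  positivity

/-- **Step A**: pointwise convexity bound relative to the value on `Re s = 1 + r`. -/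
theorem stepA (h : LD K ξ Lf c G ℓ) {r : ℝ} (hr : 0 < r) (hr1 : r ≤ 1) (v : ℝ) {x : ℝ} (hx : -r ≤ x)
    (hx2 : x ≤ 1 / 2) :
    ‖Lf ((1 - x : ℝ) + v * I)‖ ≤ Real.exp (ℓ v * (x + r) + (9 * K + 3) + VS c r (x + r)) *
      ‖Lf ((1 + r : ℝ) + v * I)‖ := by
  have hK := h.K0
  have hw : 1 / 4 ≤ 1 / 2 + r := by linarith
  have hxw : |(1 / 2 - x)| ≤ 1 / 2 + r := abs_le.2 ⟨by linarith, by linarith⟩
  have hGp := h.Gpos v
  obtain ⟨B, hB0, hB⟩ := FF_growth h (σ := 1 + r) (w := 1 / 2 + r) (by linarith) v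
  have h1 := strip_max (f := FF ξ c (1 + r) v (1 / 2 + r)) (w := 1 / 2 + r) (κ := K + 1) (B := B)
    (A := G v * Real.exp (ℓ v * (1 / 2 + r) + K * (1 + (1 / 2 + r) ^ 2))) (by linarith) (by linarith) hB0
    (fun z hz => FF_diff h v (by linarith)) hB (fun z hz => ?_) hxw
  · -- the point
    have h2 := h.inv v ((1 / 2 - x : ℝ) : ℂ) (by simp; linarith)
    have e1 : (1 / 2 + v * I + ((1 / 2 - x : ℝ) : ℂ) : ℂ) = ((1 - x : ℝ) + v * I) := by
      push_cast; ring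
    rw [e1, Complex.ofReal_re, Complex.norm_real, Real.norm_eq_abs, sq_abs] at h2
    have h3 : ‖ξ ((1 - x : ℝ) + v * I)‖ = ‖FF ξ c (1 + r) v (1 / 2 + r) ((1 / 2 - x : ℝ) : ℂ)‖ *
        Real.exp (Ph c (1 + r) v (1 / 2 + r) ((1 / 2 - x : ℝ) : ℂ)).re := by
      unfold FF
      rw [norm_mul, Complex.norm_exp, mul_assoc, ← Real.exp_add, Complex.neg_re, neg_add_cancel,
        Real.exp_zero, mul_one, e1]
    -- the harmonic function at the point
    have h4 : (Ph c (1 + r) v (1 / 2 + r) ((1 / 2 - x : ℝ) : ℂ)).re ≤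
        (DS c ((1 + r : ℝ) + v * I)).re + VS c r (x + r) := by
      rw [Ph_re h.sm v (by rw [Complex.ofReal_re]; linarith)]
      have hs1 : 1 < ((1 + r : ℝ) + v * I : ℂ).re := by simp; linarith
      unfold DS VS
      rw [Complex.re_tsum (DS_summ h.sm hs1)]
      have s1 : Summable fun x => (c x * cexp (-(lam x : ℂ) * ((1 + r : ℝ) + v * I))).re :=
        (DS_summ h.sm hs1).mapL Complex.reCLM
      have s2 := VS_summ h.sm hr (a := x + r) (by linarith)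
      rw [← s1.tsum_add s2]
      have hle : ∀ y : X, (c y * cexp (-(lam y : ℂ) * (((1 + r : ℝ) : ℂ) +
          ((v + ((1 / 2 - x : ℝ) : ℂ).im : ℝ) : ℂ) * I))).re *
          (Real.cosh (lam y * ((1 / 2 - x : ℝ) : ℂ).re) / Real.cosh ((1 / 2 + r) * lam y)) ≤
          (c y * cexp (-(lam y : ℂ) * ((1 + r : ℝ) + v * I))).re +
          ‖c y‖ * Real.exp (-((1 + r) * lam y)) * min 1 ((x + r) * lam y) := by
        intro y
        rw [Complex.ofReal_im, add_zero, Complex.ofReal_re]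
        have h5 := one_sub_ratio_le (a := 1 / 2 - x) (b := 1 / 2 + r) (lam_pos y).le hxw
        rw [show 1 / 2 + r - (1 / 2 - x) = x + r by ring] at h5
        obtain ⟨ρ, hρ⟩ : ∃ ρ : ℝ, ρ = Real.cosh (lam y * (1 / 2 - x)) / Real.cosh ((1 / 2 + r) * lam y) :=
          ⟨_, rfl⟩
        have h6 := cosh_ratio (a := 1 / 2 - x) (b := 1 / 2 + r) (lam_pos y).le hxw
        rw [← hρ] at h5 h6 ⊢
        obtain ⟨q, hq⟩ : ∃ q : ℂ, q = c y * cexp (-(lam y : ℂ) * ((1 + r : ℝ) + v * I)) := ⟨_, rfl⟩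
        rw [← hq]
        have h7 : ‖q‖ = ‖c y‖ * Real.exp (-((1 + r) * lam y)) := by
          rw [hq, norm_mul, norm_ex]
          simp
        rw [← h7]
        have h8 := Complex.abs_re_le_norm q
        have h9 : -q.re ≤ ‖q‖ := by linarith [neg_abs_le q.re]
        have h10 : q.re * ρ - q.re ≤ ‖q‖ * (1 - ρ) := by nlinarith
        have h11 : ‖q‖ * (1 - ρ) ≤ ‖q‖ * min 1 ((x + r) * lam y) :=
          mul_le_mul_of_nonneg_left h5 (norm_nonneg _)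
        linarith
      refine Summable.tsum_le_tsum hle ?_ (s1.add s2)
      have s3 := pt_summ h.sm (σ := 1 + r) (w := 1 / 2 + r) v (z := ((1 / 2 - x : ℝ) : ℂ))
        (by rw [Complex.ofReal_re]; linarith)
      have s4 : Summable fun y => (pt c (1 + r) v (1 / 2 + r) y ((1 / 2 - x : ℝ) : ℂ)).re :=
        s3.mapL Complex.reCLM
      exact s4.congr fun y => (pt_re c (1 + r) v (1 / 2 + r) y _)
    have h5 : ‖Lf ((1 + r : ℝ) + v * I)‖ = Real.exp (DS c ((1 + r : ℝ) + v * I)).re :=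
      h.norm_Lf (by simp; linarith)
    rw [h5, ← Real.exp_add]
    rw [h3] at h2
    refine h2.trans ?_
    calc (G v)⁻¹ * Real.exp (-(ℓ v * (1 / 2 - x)) + K * (1 + (1 / 2 - x) ^ 2)) *
          (‖FF ξ c (1 + r) v (1 / 2 + r) ((1 / 2 - x : ℝ) : ℂ)‖ *
            Real.exp (Ph c (1 + r) v (1 / 2 + r) ((1 / 2 - x : ℝ) : ℂ)).re) ≤
          (G v)⁻¹ * Real.exp (-(ℓ v * (1 / 2 - x)) + K * (1 + (1 / 2 - x) ^ 2)) *
          ((G v * Real.exp (ℓ v * (1 / 2 + r) + K * (1 + (1 / 2 + r) ^ 2)) *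
            Real.exp ((K + 1) * (1 / 2 + r) ^ 2)) *
            Real.exp ((DS c ((1 + r : ℝ) + v * I)).re + VS c r (x + r))) := by
          apply mul_le_mul_of_nonneg_left _ (by positivity)
          exact mul_le_mul h1 (Real.exp_le_exp.2 h4) (Real.exp_pos _).le (by positivity)
      _ = Real.exp ((-(ℓ v * (1 / 2 - x)) + K * (1 + (1 / 2 - x) ^ 2)) +
          (ℓ v * (1 / 2 + r) + K * (1 + (1 / 2 + r) ^ 2)) + (K + 1) * (1 / 2 + r) ^ 2 +
          ((DS c ((1 + r : ℝ) + v * I)).re + VS c r (x + r))) := by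
          generalize (-(ℓ v * (1 / 2 - x)) + K * (1 + (1 / 2 - x) ^ 2)) = A1
          generalize (ℓ v * (1 / 2 + r) + K * (1 + (1 / 2 + r) ^ 2)) = A2
          generalize (K + 1) * (1 / 2 + r) ^ 2 = A3
          generalize ((DS c ((1 + r : ℝ) + v * I)).re + VS c r (x + r)) = A4
          rw [Real.exp_add, Real.exp_add, Real.exp_add]
          field_simp
      _ ≤ _ := by
          apply Real.exp_le_exp.2
          have h6 : (1 / 2 - x) ^ 2 ≤ 9 / 4 := by nlinarith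
          have h7 : (1 / 2 + r) ^ 2 ≤ 9 / 4 := by nlinarith
          have h8 : K * (1 / 2 - x) ^ 2 ≤ K * (9 / 4) := mul_le_mul_of_nonneg_left h6 hK
          have h9 : K * (1 / 2 + r) ^ 2 ≤ K * (9 / 4) := mul_le_mul_of_nonneg_left h7 hK
          have e2 : ℓ v * (x + r) = -(ℓ v * (1 / 2 - x)) + ℓ v * (1 / 2 + r) := by ring
          rw [e2]
          have e3 : (K + 1) * (1 / 2 + r) ^ 2 = K * (1 / 2 + r) ^ 2 + (1 / 2 + r) ^ 2 := by ring
          rw [e3]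
          linarith
  · -- the boundary
    have hbd := FF_bd h (σ := 1 + r) (w := 1 / 2 + r) (by linarith) hw v hz
    have e4 : (1 / 2 + (1 / 2 + r) : ℝ) = 1 + r := by ring
    rw [e4] at hbd
    have hne : ‖Lf ((1 + r : ℝ) + (v + z.im : ℝ) * I)‖ ≠ 0 :=
      norm_ne_zero_iff.2 (h.ne (by simp; linarith))
    have e5 : (((1 + r : ℝ) : ℂ) : ℂ) = ((1 + r : ℝ) : ℂ) := rfl
    rw [mul_inv_cancel₀ hne, mul_one] at hbd
    refine hbd.trans ?_
    rw [mul_assoc, ← Real.exp_add]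
    apply mul_le_mul_of_nonneg_left _ hGp.le
    apply Real.exp_le_exp.2
    have := sq_nonneg z.im
    nlinarith

end Pool.Agent.T3h90.WS
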