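import Pool.Agent.T3h90.WS.Stm

/-!
# Project WS: an explicit harmonic function in a strip
-/

set_option autoImplicit false

open Complex MeasureTheory
open scoped ComplexConjugate

namespace Pool.Agent.T3h90.WS

lemma log_pos (x : X) : 0 < Real.log (x.1 : ℕ) :=
  Real.log_pos (by exact_mod_cast x.1.2.one_lt)

lemma log_two_le (x : X) : Real.log 2 ≤ Real.log (x.1 : ℕ) :=
  Real.log_le_log (by norm_num) (by exact_mod_cast x.1.2.two_le)

lemma lam_pos (x : X) : 0 < lam x := by
  unfold lam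
  have := log_pos x
  positivity

lemma log_le_lam (x : X) : Real.log (x.1 : ℕ) ≤ lam x := by
  unfold lam
  have := log_pos x
  have h : (0 : ℝ) ≤ x.2 := Nat.cast_nonneg _
  nlinarith

lemma half_le_lam (x : X) : 1 / 2 ≤ lam x := by
  have h1 := log_two_le x
  have h2 := log_le_lam x
  have := Real.log_two_gt_d9
  linarith

lemma wt_pos (x : X) : 0 < wt x := by
  unfold wt
  have := log_pos x
  positivity

/-- the Dirichlet series `∑ c(x) e^(-lam x s)` -/
noncomputable def DS (c : X → ℂ) (s : ℂ) : ℂ := ∑' x, c x * cexp (-(lam x : ℂ) * s)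

/-- absolute convergence in `Re s > 1` -/
def Abs1 (c : X → ℂ) : Prop := ∀ η : ℝ, 0 < η → Summable (fun x => ‖c x‖ * Real.exp (-((1 + η) * lam x)))

lemma norm_ex (x : X) (s : ℂ) : ‖cexp (-(lam x : ℂ) * s)‖ = Real.exp (-(s.re * lam x)) := by
  rw [Complex.norm_exp]
  congr 1
  simp [mul_comm]

lemma Abs1.at {c : X → ℂ} (h : Abs1 c) {σ : ℝ} (hσ : 1 < σ) :
    Summable (fun x => ‖c x‖ * Real.exp (-(σ * lam x))) := by
  have := h (σ - 1) (by linarith)
  simpa using this

lemma DS_summ {c : X → ℂ} (h : Abs1 c) {s : ℂ} (hs : 1 < s.re) :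
    Summable (fun x => c x * cexp (-(lam x : ℂ) * s)) := by
  refine Summable.of_norm ?_
  simpa only [norm_mul, norm_ex] using h.at hs

lemma norm_DS_le {c : X → ℂ} (h : Abs1 c) {s : ℂ} (hs : 1 < s.re) :
    ‖DS c s‖ ≤ ∑' x, ‖c x‖ * Real.exp (-(s.re * lam x)) := by
  unfold DS
  refine (norm_tsum_le_tsum_norm ?_).trans (le_of_eq ?_)
  · simpa only [norm_mul, norm_ex] using h.at hs
  · simp only [norm_mul, norm_ex]

/-- the coefficients at `σ + i t` -/
noncomputable def qq (c : X → ℂ) (σ t : ℝ) (x : X) : ℂ := c x * cexp (-(lam x : ℂ) * (σ + t * I))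

lemma norm_qq (c : X → ℂ) (σ t : ℝ) (x : X) : ‖qq c σ t x‖ = ‖c x‖ * Real.exp (-(σ * lam x)) := by
  unfold qq
  rw [norm_mul, norm_ex]
  simp

/-- one term -/
noncomputable def pt (c : X → ℂ) (σ t w : ℝ) (x : X) (z : ℂ) : ℂ :=
  (qq c σ t x * cexp (-(lam x : ℂ) * z) + conj (qq c σ t x) * cexp ((lam x : ℂ) * z)) /
    ((2 * Real.cosh (w * lam x) : ℝ) : ℂ)

/-- the analytic function whose real part is the harmonic function in the strip `|Re z| ≤ w` with the
values `Re ∑ c(x) e^(-lam x (σ + i (t + Im z)))` on both boundary lines -/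
noncomputable def Ph (c : X → ℂ) (σ t w : ℝ) (z : ℂ) : ℂ := ∑' x, pt c σ t w x z

lemma exp_sum_cosh (l a : ℝ) : Real.exp (-(l * a)) + Real.exp (l * a) = 2 * Real.cosh (l * a) := by
  rw [Real.cosh_eq]; ring

lemma norm_pt_le (c : X → ℂ) (σ t w : ℝ) (x : X) (z : ℂ) :
    ‖pt c σ t w x z‖ ≤ ‖c x‖ * Real.exp (-(σ * lam x)) *
      (Real.cosh (lam x * z.re) / Real.cosh (w * lam x)) := by
  have hc : 0 < Real.cosh (w * lam x) := Real.cosh_pos _
  unfold pt
  rw [norm_div, Complex.norm_real, Real.norm_eq_abs, abs_of_pos (by positivity : 0 < 2 * Real.cosh (w * lam x))]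
  have h1 : ‖qq c σ t x * cexp (-(lam x : ℂ) * z) + conj (qq c σ t x) * cexp ((lam x : ℂ) * z)‖ ≤
      ‖c x‖ * Real.exp (-(σ * lam x)) * (2 * Real.cosh (lam x * z.re)) := by
    refine (norm_add_le _ _).trans (le_of_eq ?_)
    rw [norm_mul, norm_mul, Complex.norm_conj, norm_ex, norm_qq, Complex.norm_exp,
      ← exp_sum_cosh]
    have e : ((lam x : ℂ) * z).re = lam x * z.re := by simp
    rw [e, mul_comm z.re]
    ring
  calc _ ≤ ‖c x‖ * Real.exp (-(σ * lam x)) * (2 * Real.cosh (lam x * z.re)) / (2 * Real.cosh (w * lam x)) :=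
        div_le_div_of_nonneg_right h1 (by positivity)
    _ = _ := by field_simp

lemma pt_re (c : X → ℂ) (σ t w : ℝ) (x : X) (z : ℂ) :
    (pt c σ t w x z).re = (c x * cexp (-(lam x : ℂ) * (σ + (t + z.im : ℝ) * I))).re *
      (Real.cosh (lam x * z.re) / Real.cosh (w * lam x)) := by
  have hc : 0 < Real.cosh (w * lam x) := Real.cosh_pos _
  obtain ⟨q, hq⟩ : ∃ q : ℂ, q = qq c σ t x * cexp (-(lam x * z.im : ℝ) * I) := ⟨_, rfl⟩
  have e1 : c x * cexp (-(lam x : ℂ) * (σ + (t + z.im : ℝ) * I)) = q := by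
    rw [hq]
    unfold qq
    rw [mul_assoc, ← Complex.exp_add]
    congr 2
    push_cast
    ring
  have e2 : qq c σ t x * cexp (-(lam x : ℂ) * z) = q * (Real.exp (-(lam x * z.re)) : ℝ) := by
    rw [hq, Complex.ofReal_exp, mul_assoc, ← Complex.exp_add]
    congr 2
    conv_lhs => rw [← Complex.re_add_im z]
    push_cast
    ring
  have e3 : conj (qq c σ t x) * cexp ((lam x : ℂ) * z) = conj q * (Real.exp (lam x * z.re) : ℝ) := by
    rw [hq, map_mul, ← Complex.exp_conj, Complex.ofReal_exp, mul_assoc, ← Complex.exp_add]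
    congr 2
    conv_lhs => rw [← Complex.re_add_im z]
    simp only [map_mul, map_neg, Complex.conj_I, Complex.conj_ofReal]
    push_cast
    ring
  unfold pt
  rw [e1, e2, e3, Complex.div_ofReal_re, Complex.add_re, Complex.re_mul_ofReal, Complex.re_mul_ofReal,
    Complex.conj_re, ← mul_add, exp_sum_cosh]
  field_simp

lemma cosh_ratio {l a b : ℝ} (hl : 0 ≤ l) (hab : |a| ≤ b) :
    Real.cosh (l * a) / Real.cosh (b * l) ≤ 1 := by
  rw [div_le_one (Real.cosh_pos _), Real.cosh_le_cosh, abs_mul, abs_of_nonneg hl, mul_comm b,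
    abs_of_nonneg (mul_nonneg hl ((abs_nonneg a).trans hab))]
  exact mul_le_mul_of_nonneg_left hab hl

lemma cosh_ratio_ge {l a b : ℝ} (hl : 0 ≤ l) (hab : |a| ≤ b) :
    Real.exp (-((b - a) * l)) ≤ Real.cosh (l * a) / Real.cosh (b * l) := by
  rw [le_div_iff₀ (Real.cosh_pos _), Real.cosh_eq, Real.cosh_eq]
  have h1 : Real.exp (-((b - a) * l)) * Real.exp (b * l) = Real.exp (l * a) := by
    rw [← Real.exp_add]; congr 1; ring
  have h2 : Real.exp (-((b - a) * l)) * Real.exp (-(b * l)) ≤ Real.exp (-(l * a)) := by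
    rw [← Real.exp_add]
    apply Real.exp_le_exp.2
    have := (abs_le.1 hab).1
    nlinarith [(abs_le.1 hab).2]
  have h3 : Real.exp (-((b - a) * l)) * ((Real.exp (b * l) + Real.exp (-(b * l))) / 2) =
    (Real.exp (-((b - a) * l)) * Real.exp (b * l) + Real.exp (-((b - a) * l)) * Real.exp (-(b * l))) / 2 := by
    ring
  rw [h3, h1]
  linarith

lemma one_sub_ratio_le {l a b : ℝ} (hl : 0 ≤ l) (hab : |a| ≤ b) :
    1 - Real.cosh (l * a) / Real.cosh (b * l) ≤ min 1 ((b - a) * l) := by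
  have h1 := cosh_ratio_ge hl hab
  refine le_min ?_ ?_
  · have : 0 < Real.cosh (l * a) / Real.cosh (b * l) := div_pos (Real.cosh_pos _) (Real.cosh_pos _)
    linarith
  · have := Real.add_one_le_exp (-((b - a) * l))
    linarith

lemma cosh_ratio_le' {l a b : ℝ} (hl : 0 ≤ l) : Real.cosh (l * a) / Real.cosh (b * l) ≤
    2 * Real.exp ((|a| - b) * l) := by
  rw [div_le_iff₀ (Real.cosh_pos _)]
  have h1 : Real.cosh (l * a) ≤ Real.exp (l * |a|) := by
    rw [← Real.cosh_abs, abs_mul, abs_of_nonneg hl, Real.cosh_eq]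
    have : Real.exp (-(l * |a|)) ≤ Real.exp (l * |a|) :=
      Real.exp_le_exp.2 (by have := mul_nonneg hl (abs_nonneg a); linarith)
    linarith
  have h2 : Real.exp (b * l) / 2 ≤ Real.cosh (b * l) := by
    rw [Real.cosh_eq]
    have := Real.exp_pos (-(b * l))
    linarith
  calc Real.cosh (l * a) ≤ Real.exp (l * |a|) := h1
    _ = 2 * Real.exp ((|a| - b) * l) * (Real.exp (b * l) / 2) := by
        rw [show 2 * Real.exp ((|a| - b) * l) * (Real.exp (b * l) / 2) =
          Real.exp ((|a| - b) * l) * Real.exp (b * l) by ring, ← Real.exp_add]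
        congr 1
        ring
    _ ≤ _ := mul_le_mul_of_nonneg_left h2 (by positivity)

lemma pt_summ {c : X → ℂ} (h : Abs1 c) {σ w : ℝ} (t : ℝ) {z : ℂ} (hz : |z.re| < w + σ - 1) :
    Summable (fun x => pt c σ t w x z) := by
  refine Summable.of_norm_bounded (g := fun x => 2 * (‖c x‖ * Real.exp (-((w + σ - |z.re|) * lam x)))) ?_ ?_
  · exact (h.at (by linarith)).mul_left 2
  · intro x
    refine (norm_pt_le c σ t w x z).trans ?_
    have h1 := cosh_ratio_le' (a := z.re) (b := w) (lam_pos x).le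
    calc _ ≤ ‖c x‖ * Real.exp (-(σ * lam x)) * (2 * Real.exp ((|z.re| - w) * lam x)) :=
          mul_le_mul_of_nonneg_left h1 (by positivity)
      _ = 2 * (‖c x‖ * (Real.exp (-(σ * lam x)) * Real.exp ((|z.re| - w) * lam x))) := by ring
      _ = _ := by
          rw [← Real.exp_add]
          congr 3
          ring

lemma Ph_diff {c : X → ℂ} (h : Abs1 c) {σ w : ℝ} (t : ℝ) {z : ℂ} (hz : |z.re| < w + σ - 1) :
    DifferentiableAt ℂ (Ph c σ t w) z := by
  obtain ⟨a, ha1, ha2⟩ := exists_between hz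
  have ho : IsOpen {z : ℂ | |z.re| < a} := isOpen_lt (by fun_prop) continuous_const
  have hsum : Summable (fun x => 2 * (‖c x‖ * Real.exp (-((w + σ - a) * lam x)))) :=
    (h.at (by linarith)).mul_left 2
  have hd : DifferentiableOn ℂ (fun z => ∑' x, pt c σ t w x z) {z : ℂ | |z.re| < a} := by
    refine differentiableOn_tsum_of_summable_norm hsum (fun x => ?_) ho (fun x z hz => ?_)
    · unfold pt
      fun_prop
    · refine (norm_pt_le c σ t w x z).trans ?_
      have hz' : |z.re| < a := hz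
      have h1 := cosh_ratio_le' (a := z.re) (b := w) (lam_pos x).le
      have h2 : Real.exp ((|z.re| - w) * lam x) ≤ Real.exp ((a - w) * lam x) :=
        Real.exp_le_exp.2 (mul_le_mul_of_nonneg_right (by linarith) (lam_pos x).le)
      calc _ ≤ ‖c x‖ * Real.exp (-(σ * lam x)) * (2 * Real.exp ((a - w) * lam x)) :=
            mul_le_mul_of_nonneg_left (by linarith) (by positivity)
        _ = 2 * (‖c x‖ * (Real.exp (-(σ * lam x)) * Real.exp ((a - w) * lam x))) := by ring
        _ = _ := by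
            rw [← Real.exp_add]
            congr 3
            ring
  exact hd.differentiableAt (ho.mem_nhds ha1)

lemma Ph_re {c : X → ℂ} (h : Abs1 c) {σ w : ℝ} (t : ℝ) {z : ℂ} (hz : |z.re| < w + σ - 1) :
    (Ph c σ t w z).re = ∑' x, (c x * cexp (-(lam x : ℂ) * (σ + (t + z.im : ℝ) * I))).re *
      (Real.cosh (lam x * z.re) / Real.cosh (w * lam x)) := by
  unfold Ph
  rw [Complex.re_tsum (pt_summ h t hz)]
  exact tsum_congr fun x => pt_re c σ t w x z

/-- the boundary values -/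
lemma Ph_bd {c : X → ℂ} (h : Abs1 c) {σ w : ℝ} (hσ : 1 < σ) (t : ℝ) {z : ℂ} (hz : |z.re| = w) :
    (Ph c σ t w z).re = (DS c (σ + (t + z.im : ℝ) * I)).re := by
  rw [Ph_re h t (by rw [hz]; linarith)]
  unfold DS
  rw [Complex.re_tsum (DS_summ h (by simpa using hσ))]
  refine tsum_congr fun x => ?_
  have e : Real.cosh (lam x * z.re) = Real.cosh (w * lam x) := by
    rw [← Real.cosh_abs, abs_mul, hz, abs_of_pos (lam_pos x), mul_comm]
  rw [e, div_self (Real.cosh_pos _).ne', mul_one]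

/-- the bound in the closed strip -/
lemma norm_Ph_le {c : X → ℂ} (h : Abs1 c) {σ w : ℝ} (hσ : 1 < σ) (t : ℝ) {z : ℂ} (hz : |z.re| ≤ w) :
    ‖Ph c σ t w z‖ ≤ ∑' x, ‖c x‖ * Real.exp (-(σ * lam x)) := by
  unfold Ph
  refine tsum_of_norm_bounded (h.at hσ).hasSum fun x => (norm_pt_le c σ t w x z).trans ?_
  have := cosh_ratio (lam_pos x).le hz
  exact mul_le_of_le_one_right (by positivity) this

end Pool.Agent.T3h90.WS
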