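import Mathlib

/-!
# Project WS (weak subconvexity for `GL(m)`): definitions and statements of the independent parts

`X` = pairs `(p, k)`, standing for the prime power `p^(k+1)`; `lam x = log p^(k+1)`,
`wt x = log p / p^(k+1)`; `av α x = ∑_j α_j(p)^(k+1)`.
-/

set_option autoImplicit false

open Complex MeasureTheory

namespace Pool.Agent.T3h90.WS

/-- prime powers `p^(k+1)` -/
abbrev X : Type := Nat.Primes × ℕ

/-- `log p^(k+1)` -/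
noncomputable def lam (x : X) : ℝ := ((x.2 : ℝ) + 1) * Real.log (x.1 : ℕ)

/-- `log p / p^(k+1)` -/
noncomputable def wt (x : X) : ℝ := Real.log (x.1 : ℕ) * Real.exp (-lam x)

/-- `∑_j α_j(p)^(k+1)` -/
noncomputable def av {m : ℕ} (α : Fin m → ℕ → ℂ) (x : X) : ℂ := ∑ j, α j (x.1 : ℕ) ^ (x.2 + 1)

/-- **Task W** (Chebyshev and Mertens for prime powers). -/
def S_W : Prop := ∃ K : ℝ, 0 < K ∧
  (∀ u : ℝ, Summable (fun x : X => wt x * Real.exp (-(lam x - u) ^ 2 / 4)) ∧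
    ∑' x : X, wt x * Real.exp (-(lam x - u) ^ 2 / 4) ≤ K) ∧
  (∀ η : ℝ, 0 < η → η ≤ 1 → Summable (fun x : X => wt x * Real.exp (-(η * lam x))) ∧
    ∑' x : X, wt x * Real.exp (-(η * lam x)) ≤ K / η)

/-- **Task MS** (mean square over a window of length one, with the weights `wt`). -/
def S_MS : Prop := ∃ K : ℝ, 0 < K ∧ ∀ (b : X → ℂ) (t : ℝ), Summable (fun x => wt x * ‖b x‖) →
  Summable (fun x => wt x * ‖b x‖ ^ 2) →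
  ∫ v : ℝ, ‖∑' x, (wt x : ℂ) * b x * cexp (-(lam x * v : ℝ) * I)‖ ^ 2 * Real.exp (-(v - t) ^ 2) ≤
    K * ∑' x, wt x * ‖b x‖ ^ 2

/-- **Task TL** (three lines theorem in the mean). -/
def S_TL : Prop := ∀ (f : ℂ → ℂ) (a b : ℝ), a < b → b ≤ a + 1 →
  (∀ z : ℂ, a ≤ z.re → z.re ≤ b → DifferentiableAt ℂ f z) →
  (∃ B : ℝ, ∀ z : ℂ, a ≤ z.re → z.re ≤ b → ‖f z‖ ≤ B * Real.exp |z.im|) →
  ∀ t σ : ℝ, a ≤ σ → σ ≤ b →
    ∫ v : ℝ, ‖f (σ + v * I)‖ * Real.exp (-(v - t) ^ 2) ≤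
      3 * (∫ v : ℝ, ‖f (a + v * I)‖ * Real.exp (-(v - t) ^ 2)) ^ ((b - σ) / (b - a)) *
        (∫ v : ℝ, ‖f (b + v * I)‖ * Real.exp (-(v - t) ^ 2)) ^ ((σ - a) / (b - a))

/-- **Task CAU** (the value at the centre of a strip from the integrals over its boundary). -/
def S_CAU : Prop := ∀ (f : ℂ → ℂ) (w κ B : ℝ), 1 / 4 ≤ w → w ≤ 1 → 1 ≤ κ →
  (∀ z : ℂ, |z.re| ≤ w → DifferentiableAt ℂ f z) →
  (∀ z : ℂ, |z.re| ≤ w → ‖f z‖ ≤ Real.exp (B * (1 + |z.im|))) →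
  ‖f 0‖ ≤ Real.exp κ * ∫ y : ℝ, (‖f (w + y * I)‖ + ‖f (-w + y * I)‖) * Real.exp (-(κ * y ^ 2))

/-- **Task EUL** (the Euler product is the exponential of a Dirichlet series). -/
def S_EUL : Prop := ∀ (m : ℕ) (α : Fin m → ℕ → ℂ),
  (∀ j, ∀ p : ℕ, p.Prime → ‖α j p‖ ≤ Real.sqrt p) → ∀ s : ℂ, 3 / 2 < s.re →
  Summable (fun x : X => ‖av α x‖ * Real.exp (-(s.re * lam x)) / ((x.2 : ℝ) + 1)) ∧
  ∏' p : Nat.Primes, ∏ j, (1 - α j p * ((p : ℕ) : ℂ) ^ (-s))⁻¹ =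
    cexp (∑' x : X, av α x / ((x.2 : ℂ) + 1) * cexp (-(lam x : ℂ) * s))

/-- **Task LAN** (Landau's lemma for a Dirichlet series with nonnegative coefficients and a simple pole).
`Z = (s - 1) exp (∑ b(x) (log p / lam x) e^(- lam x s))` in `Re s > 1`, `Z` is analytic in `Re s > 1/4` and
`‖Z s‖ ≤ e^M` for `1/4 < Re s`, `‖s - 1‖ ≤ 4`. -/
def S_LAN : Prop := ∃ K : ℝ, 0 < K ∧ ∀ (Z : ℂ → ℂ) (b : X → ℝ) (M : ℝ), 1 ≤ M → (∀ x, 0 ≤ b x) →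
  (∀ σ : ℝ, 1 < σ → Summable (fun x : X => b x / ((x.2 : ℝ) + 1) * Real.exp (-(σ * lam x)))) →
  (∀ s : ℂ, 1 < s.re → Z s = (s - 1) *
    cexp (∑' x : X, (b x : ℂ) / ((x.2 : ℂ) + 1) * cexp (-(lam x : ℂ) * s))) →
  (∀ s : ℂ, 1 / 4 < s.re → DifferentiableAt ℂ Z s) →
  (∀ s : ℂ, 1 / 4 < s.re → ‖s - 1‖ ≤ 4 → ‖Z s‖ ≤ Real.exp M) →
  ∀ η : ℝ, 0 < η → η ≤ 1 → Summable (fun x : X => wt x * b x * Real.exp (-(η * lam x))) ∧
    ∑' x : X, wt x * b x * Real.exp (-(η * lam x)) ≤ 1 / η + K * M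

end Pool.Agent.T3h90.WS
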