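import Pool.Agent.T3h90.WS.Stm

/-!
# Task TL: three lines theorem in the mean
-/

set_option autoImplicit false

open Complex MeasureTheory Filter Topology Set Metric
open scoped ComplexConjugate

namespace Pool.Agent.T3h90.WS

/-- `f` times a Gaussian -/
noncomputable def tlF (f : ℂ → ℂ) (σ t : ℝ) (w : ℂ) : ℂ := f w * cexp ((w - σ - t * I) ^ 2)

lemma tl_norm (f : ℂ → ℂ) (σ t : ℝ) (w : ℂ) :
    ‖tlF f σ t w‖ = ‖f w‖ * (Real.exp ((w.re - σ) ^ 2) * Real.exp (-(w.im - t) ^ 2)) := by
  unfold tlF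
  rw [norm_mul, Complex.norm_exp, ← Real.exp_add]
  congr 2
  have h1 : (w - σ - t * I).re = w.re - σ := by simp
  have h2 : (w - σ - t * I).im = w.im - t := by simp
  rw [pow_two, Complex.mul_re, h1, h2]
  ring

lemma tl_gauss (c : ℝ) (hc : 0 < c) : Integrable (fun v : ℝ => Real.exp (-(c * v ^ 2))) := by
  have := integrable_exp_neg_mul_sq hc
  refine this.congr (Eventually.of_forall fun v => ?_)
  simp only
  congr 1
  ring

theorem t_TL : S_TL := by
  intro f a b hab hb1 hd ⟨B, hB⟩ t σ hσa hσb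
  have hbd : ∀ w : ℂ, a ≤ w.re → w.re ≤ b → (w.re - σ) ^ 2 ≤ 1 := by
    intro w h1 h2
    nlinarith
  obtain ⟨G, hG⟩ : ∃ G : ℂ → ℂ, G = tlF f σ t := ⟨_, rfl⟩
  have hGd : ∀ w : ℂ, a ≤ w.re → w.re ≤ b → DifferentiableAt ℂ G w := by
    intro w h1 h2
    rw [hG]
    unfold tlF
    exact (hd w h1 h2).mul (by fun_prop)
  obtain ⟨C0, hC0⟩ : ∃ C0 : ℝ, C0 = |B| * Real.exp (2 + t ^ 2) := ⟨_, rfl⟩
  have hC00 : 0 ≤ C0 := by rw [hC0]; positivity
  have hdec : ∀ w : ℂ, a ≤ w.re → w.re ≤ b → ‖G w‖ ≤ C0 * Real.exp (-(1 / 4 * w.im ^ 2)) := by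
    intro w h1 h2
    rw [hG, tl_norm]
    have h3 := hbd w h1 h2
    have h4 : ‖f w‖ ≤ |B| * Real.exp |w.im| :=
      (hB w h1 h2).trans (mul_le_mul_of_nonneg_right (le_abs_self B) (Real.exp_pos _).le)
    calc ‖f w‖ * (Real.exp ((w.re - σ) ^ 2) * Real.exp (-(w.im - t) ^ 2))
        ≤ (|B| * Real.exp |w.im|) * (Real.exp 1 * Real.exp (-(w.im - t) ^ 2)) := by
          refine mul_le_mul h4 ?_ (by positivity) (by positivity)
          exact mul_le_mul_of_nonneg_right (Real.exp_le_exp.2 h3) (Real.exp_pos _).le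
      _ = |B| * Real.exp (|w.im| + 1 - (w.im - t) ^ 2) := by
          rw [mul_assoc, ← Real.exp_add, ← Real.exp_add]
          congr 2
          ring
      _ ≤ |B| * Real.exp ((2 + t ^ 2) + -(1 / 4 * w.im ^ 2)) := by
          refine mul_le_mul_of_nonneg_left (Real.exp_le_exp.2 ?_) (abs_nonneg _)
          have h5 : |w.im| ≤ 1 + w.im ^ 2 / 4 := by
            rw [← sq_abs]
            nlinarith [sq_nonneg (|w.im| / 2 - 1)]
          nlinarith [sq_nonneg (w.im - 2 * t)]
      _ = C0 * Real.exp (-(1 / 4 * w.im ^ 2)) := by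
          rw [hC0, Real.exp_add]; ring
  -- the line through σ
  have hline : ∀ x : ℝ, a ≤ x → x ≤ b → ∀ z : ℂ, z.re = x → Continuous fun v : ℝ => G (z + v * I) := by
    intro x h1 h2 z hz
    rw [continuous_iff_continuousAt]
    intro v
    have h3 : ContinuousAt G (z + v * I) :=
      (hGd _ (by simp [hz, h1]) (by simp [hz, h2])).continuousAt
    exact ContinuousAt.comp (f := fun v : ℝ => z + v * I) h3 (by fun_prop)
  have hfline : Continuous fun v : ℝ => f (σ + v * I) := by
    rw [continuous_iff_continuousAt]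
    intro v
    have h3 : ContinuousAt f (σ + v * I) :=
      (hd _ (by simp [hσa]) (by simp [hσb])).continuousAt
    exact ContinuousAt.comp (f := fun v : ℝ => (σ : ℂ) + v * I) h3 (by fun_prop)
  obtain ⟨φ, hφ⟩ : ∃ φ : ℝ → ℂ, φ = fun v : ℝ => conj (f (σ + v * I)) / (‖f (σ + v * I)‖ : ℂ) := ⟨_, rfl⟩
  have hφm : Measurable φ := by
    rw [hφ]
    refine Measurable.div ?_ ?_
    · exact (Complex.continuous_conj.comp hfline).measurable
    · exact (Complex.continuous_ofReal.comp hfline.norm).measurable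
  have hφn : ∀ v, ‖φ v‖ ≤ 1 := by
    intro v
    rw [hφ]
    simp only
    rw [norm_div, Complex.norm_conj, Complex.norm_real, norm_norm]
    exact div_self_le_one _
  have hφe : ∀ v : ℝ, f (σ + v * I) * φ v = (‖f (σ + v * I)‖ : ℂ) := by
    intro v
    rw [hφ]
    simp only
    rcases eq_or_ne (f (σ + v * I)) 0 with h | h
    · rw [h]; simp
    · have h1 : (‖f (σ + v * I)‖ : ℂ) ≠ 0 := by
        rw [Complex.ofReal_ne_zero]; exact norm_ne_zero_iff.2 h
      rw [mul_div_assoc', Complex.mul_conj, Complex.normSq_eq_norm_sq]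
      push_cast
      field_simp
  obtain ⟨H, hH⟩ : ∃ H : ℂ → ℂ, H = fun z => ∫ v : ℝ, G (z + v * I) * φ v := ⟨_, rfl⟩
  have hre : ∀ (z : ℂ) (v : ℝ), (z + v * I).re = z.re := fun z v => by simp
  have him : ∀ (z : ℂ) (v : ℝ), (z + v * I).im = z.im + v := fun z v => by simp
  have hmeas : ∀ z : ℂ, a ≤ z.re → z.re ≤ b → AEStronglyMeasurable (fun v : ℝ => G (z + v * I) * φ v) := by
    intro z h1 h2
    exact ((hline z.re h1 h2 z rfl).measurable.mul hφm).aestronglyMeasurable
  have hKn : ∀ (z : ℂ) (v : ℝ), ‖G (z + v * I) * φ v‖ ≤ ‖G (z + v * I)‖ := by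
    intro z v
    rw [norm_mul]
    exact mul_le_of_le_one_right (norm_nonneg _) (hφn v)
  have hlow : ∀ y v Y : ℝ, |y| ≤ Y → -(1 / 4 * (y + v) ^ 2) ≤ 1 / 4 * Y ^ 2 + -(1 / 8 * v ^ 2) := by
    intro y v Y hY
    have h1 : y ^ 2 ≤ Y ^ 2 := by
      rw [← sq_abs y]
      exact pow_le_pow_left₀ (abs_nonneg _) hY 2
    nlinarith [sq_nonneg (v + 2 * y)]
  have hdom : ∀ (z : ℂ) (Y : ℝ), a ≤ z.re → z.re ≤ b → |z.im| ≤ Y → ∀ v : ℝ,
      ‖G (z + v * I)‖ ≤ C0 * Real.exp (1 / 4 * Y ^ 2) * Real.exp (-(1 / 8 * v ^ 2)) := by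
    intro z Y h1 h2 h3 v
    refine (hdec _ (by rw [hre]; exact h1) (by rw [hre]; exact h2)).trans ?_
    rw [him, mul_assoc, ← Real.exp_add]
    exact mul_le_mul_of_nonneg_left (Real.exp_le_exp.2 (hlow _ _ _ h3)) hC00
  have hGint : ∀ z : ℂ, a ≤ z.re → z.re ≤ b → Integrable (fun v : ℝ => G (z + v * I)) := by
    intro z h1 h2
    refine ((tl_gauss (1 / 8) (by norm_num)).const_mul (C0 * Real.exp (1 / 4 * |z.im| ^ 2))).mono'
      (hline z.re h1 h2 z rfl).aestronglyMeasurable (Eventually.of_forall fun v => ?_)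
    exact hdom z |z.im| h1 h2 le_rfl v
  -- bound on vertical lines
  have hbound : ∀ z : ℂ, a ≤ z.re → z.re ≤ b →
      ‖H z‖ ≤ Real.exp 1 * ∫ v : ℝ, ‖f (z.re + v * I)‖ * Real.exp (-(v - t) ^ 2) := by
    intro z h1 h2
    rw [hH]
    refine (norm_integral_le_of_norm_le (hGint z h1 h2).norm (Eventually.of_forall (hKn z))).trans ?_
    have e1 : ∫ v : ℝ, ‖G (z + v * I)‖ = ∫ v : ℝ, ‖G (z.re + v * I)‖ := by
      have h3 := integral_add_left_eq_self (μ := (volume : Measure ℝ)) (fun v : ℝ => ‖G (z.re + v * I)‖) z.im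
      rw [← h3]
      congr 1
      funext v
      congr 2
      apply Complex.ext <;> simp
    rw [e1, ← integral_const_mul]
    have hi : Integrable (fun v : ℝ => ‖G (z.re + v * I)‖) := by
      have := (hGint (z.re : ℂ) (by simpa using h1) (by simpa using h2)).norm
      exact this
    have e2 : ∀ v : ℝ, ‖G (z.re + v * I)‖ =
        Real.exp ((z.re - σ) ^ 2) * (‖f (z.re + v * I)‖ * Real.exp (-(v - t) ^ 2)) := by
      intro v
      rw [hG, tl_norm]
      have e3 : ((z.re : ℂ) + v * I).re = z.re := by simp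
      have e4 : ((z.re : ℂ) + v * I).im = v := by simp
      rw [e3, e4]
      ring
    refine integral_mono hi ?_ ?_
    · have h3 : Integrable (fun v : ℝ => (Real.exp ((z.re - σ) ^ 2))⁻¹ * ‖G (z.re + v * I)‖) := hi.const_mul _
      have h4 : (fun v : ℝ => (Real.exp ((z.re - σ) ^ 2))⁻¹ * ‖G (z.re + v * I)‖) =
          fun v : ℝ => ‖f (z.re + v * I)‖ * Real.exp (-(v - t) ^ 2) := by
        funext v
        rw [e2, ← mul_assoc, inv_mul_cancel₀ (Real.exp_pos _).ne', one_mul]
      rw [h4] at h3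
      exact h3.const_mul _
    · intro v
      simp only
      rw [e2]
      exact mul_le_mul_of_nonneg_right (Real.exp_le_exp.2 (hbd z h1 h2)) (by positivity)
  -- regularity
  have hcont : ContinuousOn H (re ⁻¹' Icc a b) := by
    intro z0 hz0
    rw [hH]
    refine continuousWithinAt_of_dominated (s := re ⁻¹' Icc a b)
      (bound := fun v => C0 * Real.exp (1 / 4 * (|z0.im| + 1) ^ 2) * Real.exp (-(1 / 8 * v ^ 2))) ?_ ?_ ?_ ?_
    · filter_upwards [self_mem_nhdsWithin] with z hz
      exact hmeas z hz.1 hz.2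
    · have h1 : ∀ᶠ z in 𝓝[re ⁻¹' Icc a b] z0, z ∈ ball z0 1 :=
        mem_nhdsWithin_of_mem_nhds (ball_mem_nhds z0 one_pos)
      filter_upwards [self_mem_nhdsWithin, h1] with z hz hz1
      refine Eventually.of_forall fun v => (hKn z v).trans (hdom z _ hz.1 hz.2 ?_ v)
      rw [mem_ball, dist_eq_norm] at hz1
      have h2 := (Complex.abs_im_le_norm (z - z0)).trans hz1.le
      rw [Complex.sub_im] at h2
      have := abs_sub_abs_le_abs_sub z.im z0.im
      linarith
    · exact (tl_gauss (1 / 8) (by norm_num)).const_mul _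
    · refine Eventually.of_forall fun v => ?_
      have h1 : ContinuousAt G (z0 + v * I) :=
        (hGd _ (by rw [hre]; exact hz0.1) (by rw [hre]; exact hz0.2)).continuousAt
      have h2 : ContinuousAt (fun z : ℂ => G (z + v * I)) z0 :=
        ContinuousAt.comp (f := fun z : ℂ => z + v * I) h1 (by fun_prop)
      exact (h2.mul continuousAt_const).continuousWithinAt
  have hdiff : DifferentiableOn ℂ H (re ⁻¹' Ioo a b) := by
    intro z0 hz0
    have hz1 : a < z0.re := hz0.1
    have hz2 : z0.re < b := hz0.2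
    obtain ⟨ρ, hρ⟩ : ∃ ρ : ℝ, ρ = min (min ((z0.re - a) / 2) ((b - z0.re) / 2)) 1 := ⟨_, rfl⟩
    have hρ0 : 0 < ρ := by
      rw [hρ]
      have : 0 < (z0.re - a) / 2 := by linarith
      have : 0 < (b - z0.re) / 2 := by linarith
      positivity
    have hρ1 : ρ ≤ (z0.re - a) / 2 := by rw [hρ]; exact (min_le_left _ _).trans (min_le_left _ _)
    have hρ2 : ρ ≤ (b - z0.re) / 2 := by rw [hρ]; exact (min_le_left _ _).trans (min_le_right _ _)
    have hρ3 : ρ ≤ 1 := by rw [hρ]; exact min_le_right _ _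
    have hnear : ∀ z ∈ ball z0 ρ, a + ρ ≤ z.re ∧ z.re ≤ b - ρ ∧ |z.im| ≤ |z0.im| + 1 := by
      intro z hz
      rw [mem_ball, dist_eq_norm] at hz
      have h2 := (Complex.abs_im_le_norm (z - z0)).trans hz.le
      have h3 := abs_le.1 ((Complex.abs_re_le_norm (z - z0)).trans hz.le)
      rw [Complex.sub_im] at h2
      rw [Complex.sub_re] at h3
      have := abs_sub_abs_le_abs_sub z.im z0.im
      refine ⟨by linarith, by linarith, by linarith⟩
    have hder : ∀ z ∈ ball z0 ρ, ∀ v : ℝ, ‖deriv G (z + v * I)‖ ≤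
        C0 * Real.exp (1 / 4 * (|z0.im| + 2) ^ 2) * Real.exp (-(1 / 8 * v ^ 2)) / ρ := by
      intro z hz v
      obtain ⟨h1, h2, h3⟩ := hnear z hz
      refine Complex.norm_deriv_le_of_forall_mem_sphere_norm_le hρ0 ?_ ?_
      · apply DifferentiableOn.diffContOnCl
        rw [closure_ball _ hρ0.ne']
        intro w hw
        rw [mem_closedBall, dist_eq_norm] at hw
        have h4 := abs_le.1 ((Complex.abs_re_le_norm (w - (z + v * I))).trans hw)
        rw [Complex.sub_re, hre] at h4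
        exact (hGd w (by linarith) (by linarith)).differentiableWithinAt
      · intro w hw
        rw [mem_sphere, dist_eq_norm] at hw
        have h4 := abs_le.1 ((Complex.abs_re_le_norm (w - (z + v * I))).trans hw.le)
        have h5 := abs_le.1 ((Complex.abs_im_le_norm (w - (z + v * I))).trans hw.le)
        rw [Complex.sub_re, hre] at h4
        rw [Complex.sub_im, him] at h5
        have h6 := abs_le.1 h3
        have h7 := hdom (w - v * I) (|z0.im| + 2) (by simp; linarith) (by simp; linarith)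
          (by
            have : (w - v * I).im = w.im - v := by simp
            rw [this, abs_le]
            constructor <;> linarith) v
        rw [sub_add_cancel] at h7
        exact h7
    have hkey := hasDerivAt_integral_of_dominated_loc_of_deriv_le (μ := (volume : Measure ℝ)) (𝕜 := ℂ)
      (F := fun (z : ℂ) (v : ℝ) => G (z + v * I) * φ v) (x₀ := z0) (s := ball z0 ρ)
      (F' := fun (z : ℂ) (v : ℝ) => deriv G (z + v * I) * φ v)
      (bound := fun v => C0 * Real.exp (1 / 4 * (|z0.im| + 2) ^ 2) * Real.exp (-(1 / 8 * v ^ 2)) / ρ)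
      (ball_mem_nhds z0 hρ0)
      (by
        filter_upwards [ball_mem_nhds z0 hρ0] with z hz
        obtain ⟨h1, h2, -⟩ := hnear z hz
        exact hmeas z (by linarith) (by linarith))
      (((hGint z0 hz1.le hz2.le).norm).mono' (hmeas z0 hz1.le hz2.le) (Eventually.of_forall fun v => hKn z0 v))
      (by
        refine (Measurable.mul ?_ hφm).aestronglyMeasurable
        exact (measurable_deriv G).comp (by fun_prop))
      (Eventually.of_forall fun v z hz => by
        rw [norm_mul]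
        exact (mul_le_of_le_one_right (norm_nonneg _) (hφn v)).trans (hder z hz v))
      (((tl_gauss (1 / 8) (by norm_num)).const_mul _).div_const _)
      (Eventually.of_forall fun v z hz => by
        obtain ⟨h1, h2, -⟩ := hnear z hz
        have h3 : HasDerivAt G (deriv G (z + v * I)) (z + v * I) :=
          (hGd _ (by rw [hre]; linarith) (by rw [hre]; linarith)).hasDerivAt
        have h4 : HasDerivAt (fun z : ℂ => z + v * I) 1 z := (hasDerivAt_id z).add_const _
        have h5 := h3.comp z h4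
        rw [mul_one] at h5
        exact h5.mul_const _)
    rw [hH]
    exact hkey.2.differentiableAt.differentiableWithinAt
  have hcl : closure (HadamardThreeLines.verticalStrip a b) = re ⁻¹' Icc a b := by
    rw [HadamardThreeLines.verticalStrip, Complex.closure_preimage_re, closure_Ioo hab.ne]
  have hdc : DiffContOnCl ℂ H (HadamardThreeLines.verticalStrip a b) :=
    ⟨hdiff, by rw [hcl]; exact hcont⟩
  -- global bound
  have hglob : BddAbove ((norm ∘ H) '' HadamardThreeLines.verticalClosedStrip a b) := by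
    refine ⟨C0 * ∫ v : ℝ, Real.exp (-(1 / 4 * v ^ 2)), ?_⟩
    rintro _ ⟨z, hz, rfl⟩
    have h1 : a ≤ z.re := hz.1
    have h2 : z.re ≤ b := hz.2
    have e1 : ∫ v : ℝ, Real.exp (-(1 / 4 * (z.im + v) ^ 2)) = ∫ v : ℝ, Real.exp (-(1 / 4 * v ^ 2)) :=
      integral_add_left_eq_self (μ := (volume : Measure ℝ)) (fun v : ℝ => Real.exp (-(1 / 4 * v ^ 2))) z.im
    rw [← e1, ← integral_const_mul]
    simp only [Function.comp]
    rw [hH]
    refine norm_integral_le_of_norm_le ?_ (Eventually.of_forall fun v => (hKn z v).trans ?_)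
    · exact ((tl_gauss (1 / 4) (by norm_num)).comp_add_left z.im).const_mul _
    · have := hdec (z + v * I) (by rw [hre]; exact h1) (by rw [hre]; exact h2)
      rw [him] at this
      exact this
  obtain ⟨Ia, hIa⟩ : ∃ Ia : ℝ, Ia = ∫ v : ℝ, ‖f (a + v * I)‖ * Real.exp (-(v - t) ^ 2) := ⟨_, rfl⟩
  obtain ⟨Ib, hIb⟩ : ∃ Ib : ℝ, Ib = ∫ v : ℝ, ‖f (b + v * I)‖ * Real.exp (-(v - t) ^ 2) := ⟨_, rfl⟩
  have hIa0 : 0 ≤ Ia := by rw [hIa]; exact integral_nonneg fun v => by positivity
  have hIb0 : 0 ≤ Ib := by rw [hIb]; exact integral_nonneg fun v => by positivity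
  have h3l := HadamardThreeLines.norm_le_interp_of_mem_verticalClosedStrip' (f := H) (z := (σ : ℂ))
    (a := Real.exp 1 * Ia) (b := Real.exp 1 * Ib) hab
    (by
      show (σ : ℂ).re ∈ Icc a b
      rw [Complex.ofReal_re]
      exact ⟨hσa, hσb⟩) hdc hglob
    (by
      intro z hz
      have hz' : z.re = a := hz
      have := hbound z hz'.ge (hz'.le.trans hab.le)
      rw [hz', ← hIa] at this
      exact this)
    (by
      intro z hz
      have hz' : z.re = b := hz
      have := hbound z (hab.le.trans hz'.ge) hz'.le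
      rw [hz', ← hIb] at this
      exact this)
  rw [Complex.ofReal_re] at h3l
  have hHσ : H σ = ((∫ v : ℝ, ‖f (σ + v * I)‖ * Real.exp (-(v - t) ^ 2) : ℝ) : ℂ) := by
    rw [hH, ← integral_complex_ofReal]
    refine integral_congr_ae (Eventually.of_forall fun v => ?_)
    simp only
    rw [hG]
    unfold tlF
    have e1 : ((σ : ℂ) + v * I - σ - t * I) ^ 2 = ((-(v - t) ^ 2 : ℝ) : ℂ) := by
      push_cast
      have hI : (I : ℂ) ^ 2 = -1 := Complex.I_sq
      linear_combination ((v : ℂ) - t) ^ 2 * hI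
    rw [e1, ← Complex.ofReal_exp, Complex.ofReal_mul, ← hφe v]
    ring
  have hn : ‖H σ‖ = ∫ v : ℝ, ‖f (σ + v * I)‖ * Real.exp (-(v - t) ^ 2) := by
    rw [hHσ, Complex.norm_real, Real.norm_of_nonneg (integral_nonneg fun v => by positivity)]
  rw [← hn, ← hIa, ← hIb]
  refine h3l.trans ?_
  have hba : 0 < b - a := by linarith
  set θ : ℝ := (σ - a) / (b - a) with hθ
  have hθ1 : (b - σ) / (b - a) = 1 - θ := by
    rw [hθ]; field_simp; ring
  rw [hθ1, Real.mul_rpow (Real.exp_pos _).le hIa0, Real.mul_rpow (Real.exp_pos _).le hIb0]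
  have hee : Real.exp 1 ^ (1 - θ) * Real.exp 1 ^ θ = Real.exp 1 := by
    rw [← Real.rpow_add (Real.exp_pos _), sub_add_cancel, Real.rpow_one]
  have h3 : Real.exp 1 ≤ 3 := by
    have := Real.exp_one_lt_d9
    linarith
  calc Real.exp 1 ^ (1 - θ) * Ia ^ (1 - θ) * (Real.exp 1 ^ θ * Ib ^ θ)
      = (Real.exp 1 ^ (1 - θ) * Real.exp 1 ^ θ) * (Ia ^ (1 - θ) * Ib ^ θ) := by ring
    _ = Real.exp 1 * (Ia ^ (1 - θ) * Ib ^ θ) := by rw [hee]
    _ ≤ 3 * (Ia ^ (1 - θ) * Ib ^ θ) := mul_le_mul_of_nonneg_right h3 (by positivity)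
    _ = _ := by ring

end Pool.Agent.T3h90.WS
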