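import Pool.Agent.T3h90.WS.Cen

/-!
# Project WS: the thin strip (Steps B and C)
-/

set_option autoImplicit false

open Complex MeasureTheory Set Filter Asymptotics Topology
open scoped ComplexConjugate

namespace Pool.Agent.T3h90.WS

lemma lam_eq (x : X) : lam x = ((x.2 : ℝ) + 1) * Real.log (x.1 : ℕ) := rfl

/-- the coefficients of the logarithm -/
noncomputable def cc (a : X → ℂ) (x : X) : ℂ := a x / ((x.2 : ℂ) + 1)

lemma norm_cc (a : X → ℂ) (x : X) : ‖cc a x‖ = ‖a x‖ / ((x.2 : ℝ) + 1) := by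
  unfold cc
  rw [norm_div]
  congr 1
  have : ((x.2 : ℂ) + 1) = (((x.2 : ℝ) + 1 : ℝ) : ℂ) := by push_cast; ring
  rw [this, Complex.norm_real, Real.norm_eq_abs, abs_of_nonneg (by positivity)]

lemma cc_wt (a : X → ℂ) (x : X) : ‖cc a x‖ * Real.exp (-lam x) = wt x * ‖a x‖ / lam x := by
  rw [norm_cc]
  unfold wt
  rw [lam_eq]
  have h1 := log_pos x
  have h2 : (0 : ℝ) < (x.2 : ℝ) + 1 := by positivity
  field_simp

lemma one_sub_exp_le {a : ℝ} : 1 - Real.exp (-a) ≤ min 1 a := by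
  refine le_min ?_ ?_
  · have := Real.exp_pos (-a); linarith
  · have := Real.add_one_le_exp (-a); linarith

lemma min_le_exp {a : ℝ} (ha : 0 ≤ a) : min 1 a ≤ 2 * (1 - Real.exp (-a)) := by
  rcases le_total a 1 with h | h
  · rw [min_eq_right h]
    -- e^{-a} ≤ 1 - a/2 on [0,1]
    have h1 : Real.exp (-a) ≤ 1 / (1 + a) := by
      rw [Real.exp_neg, ← one_div]
      exact one_div_le_one_div_of_le (by linarith) (by linarith [Real.add_one_le_exp a])
    have h2 : 1 / (1 + a) ≤ 1 - a / 2 := by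
      rw [div_le_iff₀ (by linarith)]
      nlinarith
    linarith
  · rw [min_eq_left h]
    have h1 : Real.exp (-a) ≤ Real.exp (-1) := Real.exp_le_exp.2 (by linarith)
    have h2 : Real.exp (-1) ≤ 1 / 2 := by
      rw [Real.exp_neg, inv_le_comm₀ (Real.exp_pos _) (by norm_num)]
      have := Real.add_one_le_exp (1 : ℝ)
      norm_num
      linarith
    linarith

/-- the second part of `S_W` -/
def W1 (KW : ℝ) : Prop := ∀ η : ℝ, 0 < η → η ≤ 1 → Summable (fun x : X => wt x * Real.exp (-(η * lam x))) ∧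
    ∑' x : X, wt x * Real.exp (-(η * lam x)) ≤ KW / η

lemma dyad {KW : ℝ} (hW : W1 KW) {r : ℝ} (hr : 0 < r) (S : Finset X) (J : ℕ) (hJ : 2 ^ J * r ≤ 1) :
    ∑ x ∈ S, wt x * ((Real.exp (-(r * lam x)) - Real.exp (-(2 ^ J * r * lam x))) / lam x) ≤ KW * J := by
  induction J with
  | zero => simp
  | succ n ih =>
    have h2 : (0 : ℝ) < 2 ^ n := by positivity
    have hn : (2 : ℝ) ^ n * r ≤ 1 := by
      have : (2 : ℝ) ^ (n + 1) = 2 * 2 ^ n := by ring
      rw [this] at hJ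
      nlinarith [mul_pos h2 hr]
    have h3 := ih hn
    have h4 : ∑ x ∈ S, wt x * ((Real.exp (-(2 ^ n * r * lam x)) - Real.exp (-(2 ^ (n + 1) * r * lam x))) / lam x) ≤
        KW := by
      obtain ⟨h5, h6⟩ := hW (2 ^ n * r) (by positivity) hn
      calc _ ≤ ∑ x ∈ S, 2 ^ n * r * (wt x * Real.exp (-(2 ^ n * r * lam x))) := by
            refine Finset.sum_le_sum fun x _ => ?_
            have hl := lam_pos x
            have hw := wt_pos x
            have h7 : Real.exp (-(2 ^ (n + 1) * r * lam x)) =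
                Real.exp (-(2 ^ n * r * lam x)) * Real.exp (-(2 ^ n * r * lam x)) := by
              rw [← Real.exp_add]; congr 1; ring
            have h8 := Real.add_one_le_exp (-(2 ^ n * r * lam x))
            have h9 := Real.exp_pos (-(2 ^ n * r * lam x))
            have h10 : (Real.exp (-(2 ^ n * r * lam x)) - Real.exp (-(2 ^ (n + 1) * r * lam x))) / lam x ≤
                2 ^ n * r * Real.exp (-(2 ^ n * r * lam x)) := by
              rw [h7, div_le_iff₀ hl]
              nlinarith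
            calc _ ≤ wt x * (2 ^ n * r * Real.exp (-(2 ^ n * r * lam x))) :=
                  mul_le_mul_of_nonneg_left h10 hw.le
              _ = _ := by ring
        _ = 2 ^ n * r * ∑ x ∈ S, wt x * Real.exp (-(2 ^ n * r * lam x)) := by rw [Finset.mul_sum]
        _ ≤ 2 ^ n * r * (KW / (2 ^ n * r)) := by
            apply mul_le_mul_of_nonneg_left _ (by positivity)
            refine (h5.sum_le_tsum S fun x _ => ?_).trans h6
            have := wt_pos x
            positivity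
        _ = KW := by field_simp
    have h5 : ∑ x ∈ S, wt x * ((Real.exp (-(r * lam x)) - Real.exp (-(2 ^ (n + 1) * r * lam x))) / lam x) =
        ∑ x ∈ S, wt x * ((Real.exp (-(r * lam x)) - Real.exp (-(2 ^ n * r * lam x))) / lam x) +
        ∑ x ∈ S, wt x * ((Real.exp (-(2 ^ n * r * lam x)) - Real.exp (-(2 ^ (n + 1) * r * lam x))) / lam x) := by
      rw [← Finset.sum_add_distrib]
      refine Finset.sum_congr rfl fun x _ => ?_
      ring
    rw [h5]
    push_cast
    linarith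

lemma J_le (J : ℕ) : (J : ℝ) ≤ 6 * ((2 : ℝ) ^ J) ^ (1 / 4 : ℝ) := by
  have h1 : ((2 : ℝ) ^ J) ^ (1 / 4 : ℝ) = Real.exp (J * Real.log 2 / 4) := by
    rw [← Real.rpow_natCast, ← Real.rpow_mul (by norm_num), Real.rpow_def_of_pos (by norm_num)]
    congr 1
    ring
  rw [h1]
  have h2 := Real.add_one_le_exp (J * Real.log 2 / 4)
  have h3 := Real.log_two_gt_d9
  have h4 : (0 : ℝ) ≤ J := Nat.cast_nonneg _
  nlinarith

/-- the bound for `VS` -/
lemma VS_bd {KW : ℝ} (hKW : 0 < KW) (hW : W1 KW) {a : X → ℂ} {r B1 : ℝ} (hr : 0 < r) (hB1 : 0 ≤ B1) (J : ℕ)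
    (hJ : 2 ^ J * r ≤ 1)
    (hs : Summable fun x => wt x * ‖a x‖ ^ 2 * Real.exp (-(r * lam x)))
    (hR : ∑' x, wt x * ‖a x‖ ^ 2 * Real.exp (-(r * lam x)) ≤ B1 / r) :
    VS (cc a) r ((2 ^ J - 1) * r) ≤ (6 * KW + B1) * ((2 : ℝ) ^ J) ^ (3 / 4 : ℝ) := by
  obtain ⟨T, hT⟩ : ∃ T : ℝ, T = 2 ^ J := ⟨_, rfl⟩
  have hT1 : 1 ≤ T := by rw [hT]; exact one_le_pow₀ (by norm_num)
  obtain ⟨η, hη⟩ : ∃ η : ℝ, η = (T - 1) * r := ⟨_, rfl⟩
  have hη0 : 0 ≤ η := by rw [hη]; exact mul_nonneg (by linarith) hr.le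
  rw [← hT, ← hη]
  unfold VS
  refine tsum_le_of_sum_le' (by positivity) fun S => ?_
  obtain ⟨s, hs0⟩ : ∃ s : ℝ, s = T ^ (1 / 2 : ℝ) := ⟨_, rfl⟩
  have hsp : 0 < s := by rw [hs0]; positivity
  have hss : s * s = T := by
    rw [hs0, ← Real.rpow_add (by linarith)]
    norm_num
  -- termwise
  have ht : ∀ x ∈ S, ‖cc a x‖ * Real.exp (-((1 + r) * lam x)) * min 1 (η * lam x) ≤
      s * (wt x * ((Real.exp (-(r * lam x)) - Real.exp (-(2 ^ J * r * lam x))) / lam x)) +
      (1 / (2 * s)) * (η * (wt x * ‖a x‖ ^ 2 * Real.exp (-(r * lam x)))) := by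
    intro x _
    have hl := lam_pos x
    have hw := wt_pos x
    obtain ⟨E, hE⟩ : ∃ E : ℝ, E = Real.exp (-(r * lam x)) := ⟨_, rfl⟩
    have hE0 : 0 < E := by rw [hE]; exact Real.exp_pos _
    have e1 : Real.exp (-((1 + r) * lam x)) = Real.exp (-lam x) * E := by
      rw [hE, ← Real.exp_add]; congr 1; ring
    obtain ⟨q, hq⟩ : ∃ q : ℝ, q = min 1 (η * lam x) / lam x := ⟨_, rfl⟩
    have hq0 : 0 ≤ q := by rw [hq]; exact div_nonneg (le_min zero_le_one (by positivity)) hl.le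
    have e2 : ‖cc a x‖ * Real.exp (-((1 + r) * lam x)) * min 1 (η * lam x) = wt x * E * q * ‖a x‖ := by
      rw [e1, ← mul_assoc, cc_wt, hq]
      field_simp
    have e3 : q ≤ 2 * ((1 - Real.exp (-(η * lam x))) / lam x) := by
      rw [hq, ← mul_div_assoc]
      exact div_le_div_of_nonneg_right (min_le_exp (by positivity)) hl.le
    have e4 : q ≤ η := by
      rw [hq, div_le_iff₀ hl]
      exact min_le_right _ _
    have e5 : E * ((1 - Real.exp (-(η * lam x))) / lam x) =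
        (Real.exp (-(r * lam x)) - Real.exp (-(2 ^ J * r * lam x))) / lam x := by
      rw [← mul_div_assoc, mul_sub, mul_one, hE, ← Real.exp_add]
      congr 3
      rw [hη, hT]
      ring
    rw [e2, ← e5, ← hE]
    have e6 : ‖a x‖ ≤ s / 2 + 1 / (2 * s) * ‖a x‖ ^ 2 := by
      have h1 : 0 ≤ (s - ‖a x‖) ^ 2 := sq_nonneg _
      have h2 : s / 2 + 1 / (2 * s) * ‖a x‖ ^ 2 - ‖a x‖ = (s - ‖a x‖) ^ 2 / (2 * s) := by
        field_simp
        ring
      have h3 : 0 ≤ (s - ‖a x‖) ^ 2 / (2 * s) := by positivity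
      linarith
    have hP : 0 ≤ wt x * E := by positivity
    calc wt x * E * q * ‖a x‖ ≤ wt x * E * q * (s / 2 + 1 / (2 * s) * ‖a x‖ ^ 2) :=
          mul_le_mul_of_nonneg_left e6 (by positivity)
      _ = wt x * E * (s / 2) * q + wt x * E * (1 / (2 * s) * ‖a x‖ ^ 2) * q := by ring
      _ ≤ wt x * E * (s / 2) * (2 * ((1 - Real.exp (-(η * lam x))) / lam x)) +
          wt x * E * (1 / (2 * s) * ‖a x‖ ^ 2) * η := by gcongr
      _ = _ := by ring
  refine (Finset.sum_le_sum ht).trans ?_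
  rw [Finset.sum_add_distrib, ← Finset.mul_sum, ← Finset.mul_sum, ← Finset.mul_sum]
  have h1 := dyad hW hr S J hJ
  have h2 : ∑ x ∈ S, wt x * ‖a x‖ ^ 2 * Real.exp (-(r * lam x)) ≤ B1 / r :=
    (hs.sum_le_tsum S fun x _ => by have := wt_pos x; positivity).trans hR
  have h3 : s * ∑ x ∈ S, wt x * ((Real.exp (-(r * lam x)) - Real.exp (-(2 ^ J * r * lam x))) / lam x) ≤
      s * (KW * (6 * T ^ (1 / 4 : ℝ))) := by
    apply mul_le_mul_of_nonneg_left _ hsp.le
    refine h1.trans ?_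
    apply mul_le_mul_of_nonneg_left _ hKW.le
    rw [hT]
    exact J_le J
  have h4 : 1 / (2 * s) * (η * ∑ x ∈ S, wt x * ‖a x‖ ^ 2 * Real.exp (-(r * lam x))) ≤ s * B1 := by
    calc _ ≤ 1 / (2 * s) * (T * r * (B1 / r)) := by
          apply mul_le_mul_of_nonneg_left _ (by positivity)
          refine mul_le_mul ?_ h2 (Finset.sum_nonneg fun x _ => by have := wt_pos x; positivity) (by positivity)
          rw [hη]
          nlinarith
      _ = 1 / (2 * s) * (s * s * B1) := by rw [hss]; field_simp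
      _ = s * B1 / 2 := by field_simp
      _ ≤ _ := by have := mul_nonneg hsp.le hB1; linarith
  have e7 : T ^ (3 / 4 : ℝ) = s * T ^ (1 / 4 : ℝ) := by
    rw [hs0, ← Real.rpow_add (by linarith)]
    norm_num
  have h5 : s * B1 ≤ s * B1 * T ^ (1 / 4 : ℝ) :=
    le_mul_of_one_le_right (by positivity) (Real.one_le_rpow hT1 (by norm_num))
  rw [e7]
  nlinarith

end Pool.Agent.T3h90.WS
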